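import Pool.Agent.Work.MP_dd0d16_nt.D.Defs

/-!
Definitions used in the statement about torsion points of elliptic curves.
-/

set_option autoImplicit false

namespace Pool.Agent.Work.MP_dd0d16_nt.T

variable {p : ℕ} [Fact p.Prime]

/-- The coefficients of `W` are integral, unramified and in `K`; the discriminant is a unit. -/
def Good (K : IntermediateField ℚ_[p] (PadicAlgCl p)) (W : WeierstrassCurve (PadicAlgCl p)) :
    Prop :=
  (∀ a ∈ [W.a₁, W.a₂, W.a₃, W.a₄, W.a₆], a ∈ K ⊓ Unr p ∧ ‖a‖ ≤ 1) ∧ ‖W.Δ‖ = 1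

open Classical in
/-- `z` is the abscissa of a point of `W` whose order is finite, larger than `N` and prime to `p`. -/
def Tors (W : WeierstrassCurve (PadicAlgCl p)) (N : ℕ) (z : PadicAlgCl p) : Prop :=
  ∃ (y : PadicAlgCl p) (h : W.toAffine.Nonsingular z y),
    N < addOrderOf (WeierstrassCurve.Affine.Point.some z y h) ∧
      ¬ p ∣ addOrderOf (WeierstrassCurve.Affine.Point.some z y h)

end Pool.Agent.Work.MP_dd0d16_nt.T
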