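import Pool.Agent.Work.MP_dd0d16_nt.D.TaR
import Pool.Agent.Work.MP_dd0d16_nt.G.AxT1
import Pool.Agent.Work.MP_dd0d16_nt.D.Pt
import Pool.Agent.Work.MP_dd0d16_nt.G.GermB
import Pool.Agent.Work.MP_dd0d16_nt.R.Top2

-- merged part: Pool.Agent.Work.MP_dd0d16_nt.E.Fac2
section
-- merged part: Pool.Agent.Work.MP_dd0d16_nt.D.Ta2
section
/-!
Linearisation of an algebraic relation, with extra independent variables.

PLAN. Copy G/TaLin. `min_rel2`: as `TaLin_ind`, `min_rel`, but differentiate only in the variables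
`Sum.inr i`. If every coefficient at an exponent `ν` with `ν (inr i) ≠ 0` for some `i` is
infinitesimal, let `P0 = ∑ μ ∈ P.support with (∀ i, μ (inr i) = 0), monomial (μ on inl) (coeff μ P)`
(for example `P0 = aeval (Sum.elim X 0) P` or `killCompl Sum.inl_injective P`); `P - rename inl P0` has
infinitesimal coefficients, so `P0 y` is infinitesimal while `P0` has a coefficient that is not,
against `SI v E (v p) y`.
`ta2`: as `ta_lin` with the points `Sum.elim y (T0 - t n * T n)` and the direction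
`Sum.elim 0 (T · n)` in `taylor1` (`t = - t n`); `n0 = c + 2`. Values of `P` and its derivatives at points
of `R n` lie in `R n` (integral coefficients in `E`). `g i = G i / G i0` and
`z = - P (..) / (t n * p * G i0)` lie in `R n` by `hdiv` (first show the bound, so `v z ≤ 1`; the
denominator is not infinitesimal by `not_inf_mul`, `not_inf_of_le`). The value `P (y, T0)` is
infinitesimal and is divided by an element that is not (`LF_inf_div`).
-/

set_option autoImplicit false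

namespace Pool.Agent.Work.MP_dd0d16_nt.T

open MvPolynomial

variable {Ω Γ : Type} [Field Ω] [LinearOrderedCommGroupWithZero Γ] {v : Valuation Ω Γ}
  {L : Ω → Ω} {E : Subfield Ω} {p : ℕ} {τ Q : Type} [Fintype τ] [Fintype Q]

omit [Fintype τ] [Fintype Q] in
theorem DTa2_co (h : LF p v L E) {y : τ → Ω} {T : Q → Ω} (hy : ∀ j, v (y j) ≤ 1)
    (hT : ∀ i, v (T i) ≤ 1) (hs : SI v E (v p) y) {P : MvPolynomial (τ ⊕ Q) E}
    {ν : τ ⊕ Q →₀ ℕ} (h3 : ¬ Inf v (v p) (P.coeff ν : E))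
    (h4 : Inf v (v p) (aeval (Sum.elim y T) P)) :
    ∃ (ν : τ ⊕ Q →₀ ℕ) (i : Q), ν (Sum.inr i) ≠ 0 ∧ ¬ Inf v (v p) (P.coeff ν : E) := by
  by_contra k
  have k1 : ∀ (μ : τ ⊕ Q →₀ ℕ) (i : Q), μ (Sum.inr i) ≠ 0 → Inf v (v p) (P.coeff μ : E) :=
    fun μ i r => by_contra fun r' => k ⟨μ, i, r, r'⟩
  have k2 : ∀ μ : τ ⊕ Q →₀ ℕ, (∃ i, μ (Sum.inr i) ≠ 0) ∨
      ∃ u : τ →₀ ℕ, u.mapDomain Sum.inl = μ := fun μ => by
    by_cases r : ∃ i, μ (Sum.inr i) ≠ 0
    · exact Or.inl r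
    · refine Or.inr ((Finsupp.mem_range_mapDomain_iff _ Sum.inl_injective μ).2 ?_)
      rintro (j | i) hb
      · exact absurd ⟨j, rfl⟩ hb
      · exact by_contra fun r' => r ⟨i, r'⟩
  have hx : ∀ a, v (Sum.elim y T a) ≤ 1 := Sum.rec hy hT
  obtain ⟨P0, hP0⟩ : ∃ P0 : MvPolynomial τ E, P0 = killCompl Sum.inl_injective P := ⟨_, rfl⟩
  have k3 : Inf v (v p) (aeval y P0) := fun c => by
    have k4 : v (aeval (Sum.elim y T) (P - rename Sum.inl P0)) ≤ v p ^ c :=
      v_aeval_le hx fun μ => by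
        rw [coeff_sub]
        rcases k2 μ with ⟨i, hi⟩ | ⟨u, rfl⟩
        · rw [coeff_rename_eq_zero Sum.inl P0 μ fun u hu => (hi (by
            rw [← hu]
            exact Finsupp.mapDomain_of_notMem_range u _ (by simp))).elim, sub_zero]
          exact k1 μ i hi c
        · rw [coeff_rename_mapDomain _ Sum.inl_injective, hP0, coeff_killCompl, sub_self]
          exact LF_inf_zero c
    have k5 := v.map_sub_le (h4 c) k4
    rwa [map_sub (aeval (R := E) (Sum.elim y T)), sub_sub_cancel, aeval_rename,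
      Sum.elim_comp_inl] at k5
  rcases k2 ν with ⟨i, hi⟩ | ⟨u, rfl⟩
  · exact h3 (k1 ν i hi)
  · obtain ⟨c, hc⟩ := hs P0 u
    rw [hP0, coeff_killCompl, ← hP0] at hc
    refine h3 fun d => ?_
    have k6 := hc.trans (k3 (c + d))
    rw [pow_add] at k6
    exact le_of_mul_le_mul_left k6 (pow_pos (zero_lt_iff.2 h.p0) c)

omit [Fintype τ] [Fintype Q] in
theorem DTa2_ind (h : LF p v L E) {y : τ → Ω} {T : Q → Ω} (hy : ∀ j, v (y j) ≤ 1)
    (hT : ∀ i, v (T i) ≤ 1) (hs : SI v E (v p) y) (n : ℕ) :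
    ∀ P : MvPolynomial (τ ⊕ Q) E, (∀ μ, P.coeff μ ≠ 0 → μ.degree < n) →
      (∀ μ, v (P.coeff μ : E) ≤ 1) → (∃ ν, ¬ Inf v (v p) (P.coeff ν : E)) →
      Inf v (v p) (aeval (Sum.elim y T) P) →
      ∃ (P : MvPolynomial (τ ⊕ Q) E) (i : Q), (∀ μ, v (P.coeff μ : E) ≤ 1) ∧
        Inf v (v p) (aeval (Sum.elim y T) P) ∧
        ¬ Inf v (v p) (aeval (Sum.elim y T) (pderiv (Sum.inr i) P)) := by
  classical
  induction n with
  | zero =>
    rintro P h1 - ⟨ν, h3⟩ -
    have : P.coeff ν = 0 := by_contra fun k => Nat.not_lt_zero _ (h1 ν k)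
    rw [this] at h3
    exact (h3 LF_inf_zero).elim
  | succ n ih =>
    rintro P h1 h2 ⟨ν, h3⟩ h4
    obtain ⟨ν, i, hi, n1⟩ := DTa2_co h hy hT hs h3 h4
    by_cases h5 : Inf v (v p) (aeval (Sum.elim y T) (pderiv (Sum.inr i) P))
    · refine ih (pderiv (Sum.inr i) P) (fun μ hμ => ?_) (TaLin_der h2 _)
        ⟨ν - Finsupp.single (Sum.inr i) 1, ?_⟩ h5
      · rw [coeff_pderiv] at hμ
        have := h1 _ (left_ne_zero_of_mul hμ)
        rw [map_add, Finsupp.degree_single] at this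
        omega
      · rw [coeff_pderiv, tsub_add_cancel_of_le (Finsupp.single_le_iff.2 (by omega))]
        obtain ⟨c, hc⟩ := h.nat
          ((ν - Finsupp.single (Sum.inr i) 1 : τ ⊕ Q →₀ ℕ) (Sum.inr i) + 1) (Nat.succ_ne_zero _)
        have := not_inf_mul h.p1.le n1 (not_inf_of_le h.p0 h.p1 hc)
        push_cast at this ⊢
        exact this
    · exact ⟨P, i, h2, h4, h5⟩

theorem DTa2_mem {σ : Type} (R : Subring Ω) (hE : ∀ a ∈ E, v a ≤ 1 → a ∈ R) {x : σ → Ω}
    (hx : ∀ a, x a ∈ R) {P : MvPolynomial σ E} (hP : ∀ μ, v (P.coeff μ : E) ≤ 1) :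
    aeval x P ∈ R := by
  rw [aeval_def, eval₂_eq]
  exact sum_mem fun μ _ => mul_mem (hE _ (P.coeff μ).2 (hP μ))
    (prod_mem fun i _ => pow_mem (hx i) _)

theorem min_rel2 (h : LF p v L E) {y : τ → Ω} {T : Q → Ω} (hy : ∀ j, v (y j) ≤ 1)
    (hT : ∀ i, v (T i) ≤ 1) (hs : SI v E (v p) y) (hn : ¬ SI v E (v p) (Sum.elim y T)) :
    ∃ (P : MvPolynomial (τ ⊕ Q) E) (i : Q), (∀ μ, v (P.coeff μ : E) ≤ 1) ∧
      Inf v (v p) (aeval (Sum.elim y T) P) ∧
      ¬ Inf v (v p) (aeval (Sum.elim y T) (pderiv (Sum.inr i) P)) := by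
  obtain ⟨P, ν, h1, h2, h3⟩ := AxCore_norm hn
  refine DTa2_ind h hy hT hs (P.support.sup Finsupp.degree + 1) P (fun μ hμ => Nat.lt_succ_of_le
    (Finset.le_sup (f := Finsupp.degree) (mem_support_iff.2 hμ))) h2 ⟨ν, ?_⟩ h3
  rw [h1]
  exact not_inf_of_le h.p0 h.p1 (c := 0) (by simp)

theorem ta2 (h : LF p v L E) (R : ℕ → Subring Ω) (hR : Monotone R)
    (hE : ∀ a ∈ E, v a ≤ 1 → a ∈ R 0) (hint : ∀ n, ∀ a ∈ R n, v a ≤ 1)
    (hdiv : ∀ n, ∀ a ∈ R n, ∀ b ∈ R n, v a ≤ v b → ¬ Inf v (v p) b → a / b ∈ R n)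
    {y : τ → Ω} (hy : ∀ j, y j ∈ R 0) (hs : SI v E (v p) y) (T0 : Q → Ω) (T : Q → ℕ → Ω)
    (t : ℕ → Ω) (ht : ∀ n, t n ∈ R n ∧ v (t n) ≤ v p ^ n ∧ ¬ Inf v (v p) (t n))
    (hT : ∀ i n, v (T i n) ≤ v p) (hH : ∀ i n, T0 i - t n * T i n ∈ R n)
    (hn : ¬ SI v E (v p) (Sum.elim y T0)) :
    ∃ (g : Q → Ω) (i0 : Q) (n0 : ℕ), g i0 = 1 ∧ ∀ n, n0 ≤ n →
      (∀ i, g i ∈ R n) ∧ ∃ z ∈ R n, v (z - ∑ i, g i * (T i n / p)) ≤ v p := by
  have vy : ∀ j, v (y j) ≤ 1 := fun j => hint 0 _ (hy j)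
  have vt : ∀ n, v (t n) ≤ 1 := fun n => hint n _ (ht n).1
  have vT : ∀ i n, v (T i n) ≤ 1 := fun i n => (hT i n).trans h.p1.le
  have vT0 : ∀ i, v (T0 i) ≤ 1 := fun i => by
    have := v.map_add_le (hint 0 _ (hH i 0))
      (show v (t 0 * T i 0) ≤ 1 by rw [map_mul]; exact mul_le_one' (vt 0) (vT i 0))
    rwa [sub_add_cancel] at this
  obtain ⟨P, i1, h1, h2, h3⟩ := min_rel2 h vy vT0 hs hn
  obtain ⟨c, hc⟩ : ∃ c : ℕ, v p ^ c < v (aeval (Sum.elim y T0) (pderiv (Sum.inr i1) P)) := by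
    by_contra k
    exact h3 fun c => not_lt.1 fun r => k ⟨c, r⟩
  have hp : (p : Ω) ≠ 0 := fun k => h.p0 (by rw [k, map_zero])
  have vx : ∀ a, v (Sum.elim y T0 a) ≤ 1 := Sum.rec vy vT0
  have mH : ∀ n a, Sum.elim y (fun j => T0 j - t n * T j n) a ∈ R n := fun n =>
    Sum.rec (fun j => hR (Nat.zero_le n) (hy j)) fun j => hH j n
  have mE : ∀ n, ∀ a ∈ E, v a ≤ 1 → a ∈ R n := fun n a ha hv => hR (Nat.zero_le n) (hE a ha hv)
  obtain ⟨G, hG⟩ : ∃ G : Q → Ω, G = fun i => aeval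
      (Sum.elim y fun j => T0 j - t (c + 2) * T j (c + 2)) (pderiv (Sum.inr i) P) := ⟨_, rfl⟩
  have g1 : ∀ i, G i ∈ R (c + 2) := fun i => by
    rw [hG]
    exact DTa2_mem _ (mE _) (mH _) (TaLin_der h1 _)
  have g2 : ∀ i, v (G i - aeval (Sum.elim y T0) (pderiv (Sum.inr i) P)) ≤ v p ^ (c + 2) :=
    fun i => by
    have := v_aeval_sub vx (fun a => hint _ _ (mH (c + 2) a)) (δ := v p ^ (c + 2)) (by
      rintro (j | j)
      · simp
      · show v (T0 j - t (c + 2) * T j (c + 2) - T0 j) ≤ _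
        rw [sub_sub_cancel_left, v.map_neg, map_mul]
        exact (mul_le_of_le_one_right' (vT j _)).trans (ht _).2.1) (TaLin_der h1 (Sum.inr i))
    rw [mul_one] at this
    rw [hG]
    exact this
  obtain ⟨i0, -, hi0⟩ := Finset.exists_max_image Finset.univ (fun i => v (G i))
    ⟨i1, Finset.mem_univ _⟩
  have g3 : v p ^ c < v (G i0) := by
    refine lt_of_lt_of_le ?_ (hi0 i1 (Finset.mem_univ _))
    have k : v (G i1 - aeval (Sum.elim y T0) (pderiv (Sum.inr i1) P)) <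
        v (aeval (Sum.elim y T0) (pderiv (Sum.inr i1) P)) :=
      ((g2 i1).trans (pow_le_pow_right_of_le_one' h.p1.le (by omega))).trans_lt hc
    have k' := v.map_add_eq_of_lt_right k
    rw [sub_add_cancel] at k'
    exact k'.symm ▸ hc
  have g4 : 0 < v (G i0) := lt_of_le_of_lt zero_le g3
  have g5 : G i0 ≠ 0 := fun k => by simp [k] at g4
  have g6 : ¬ Inf v (v p) (G i0) := not_inf_of_le h.p0 h.p1 g3.le
  refine ⟨fun i => G i / G i0, i0, c + 2, div_self g5, fun n hn => ⟨fun i =>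
    hR hn (hdiv _ _ (g1 i) _ (g1 i0) (hi0 i (Finset.mem_univ _)) g6), ?_⟩⟩
  obtain ⟨d, hd⟩ : ∃ d : ℕ, v p ^ d < v (t n) := by
    by_contra k
    exact (ht n).2.2 fun c => not_lt.1 fun r => k ⟨c, r⟩
  have t4 : 0 < v (t n) := lt_of_le_of_lt zero_le hd
  have t5 : t n ≠ 0 := fun k => by simp [k] at t4
  have t1 := taylor1 vx (y := Sum.elim (fun _ => 0) fun i => T i n)
    (Sum.rec (fun _ => by simp) fun i => vT i n) (t := -t n) (by rw [v.map_neg]; exact vt n) h1
  have e0 : (fun a => Sum.elim y T0 a + -t n * Sum.elim (fun _ => (0 : Ω)) (fun i => T i n) a) =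
      Sum.elim y fun j => T0 j - t n * T j n := by
    funext a
    rcases a with j | j
    · simp
    · simp [sub_eq_add_neg]
  rw [e0, Fintype.sum_sum_type] at t1
  simp only [Sum.elim_inl, Sum.elim_inr, mul_zero, Finset.sum_const_zero, zero_add, neg_mul,
    v.map_neg] at t1
  have t2 : v (t n * ∑ i, (G i - aeval (Sum.elim y T0) (pderiv (Sum.inr i) P)) * T i n) ≤
      v (t n) * v p ^ (c + 2) := by
    rw [map_mul]
    refine mul_le_mul_right (v.map_sum_le fun i _ => ?_) _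
    rw [map_mul]
    exact (mul_le_of_le_one_right' (vT i n)).trans (g2 i)
  have t6 : v (t n) ^ 2 ≤ v (t n) * v p ^ (c + 2) := by
    rw [sq]
    exact mul_le_mul_right ((ht n).2.1.trans (pow_le_pow_right_of_le_one' h.p1.le hn)) _
  have t7 : v (aeval (Sum.elim y T0) P) ≤ v (t n) * v p ^ (c + 2) := by
    refine (h2 (d + (c + 2))).trans ?_
    rw [pow_add]
    exact mul_le_mul_left hd.le _
  have t3 := v.map_add_le (v.map_add_le (t1.trans t6) t7) t2
  have e : -aeval (Sum.elim y fun j => T0 j - t n * T j n) P / (t n * p * G i0) -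
      ∑ i, G i / G i0 * (T i n / p) =
      -(aeval (Sum.elim y fun j => T0 j - t n * T j n) P + t n * ∑ i, G i * T i n) /
        (t n * p * G i0) := by
    have : ∑ i, G i / G i0 * (T i n / p) = (∑ i, G i * T i n) / (G i0 * p) := by
      rw [Finset.sum_div]
      exact Finset.sum_congr rfl fun i _ => div_mul_div_comm _ _ _ _
    rw [this]
    field_simp
    ring
  have e' : ∑ i, (G i - aeval (Sum.elim y T0) (pderiv (Sum.inr i) P)) * T i n =
      ∑ i, G i * T i n - ∑ i, aeval (Sum.elim y T0) (pderiv (Sum.inr i) P) * T i n := by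
    simp only [sub_mul, Finset.sum_sub_distrib]
  rw [e', show ∀ a b s s' q : Ω, a - b - -(q * s) + b + q * (s' - s) = a + q * s' from
    fun a b s s' q => by ring] at t3
  have p4 : 0 < v (p : Ω) := zero_lt_iff.2 h.p0
  have d0 : 0 < v (t n * p * G i0) := by
    rw [map_mul, map_mul]
    exact mul_pos (mul_pos t4 p4) g4
  have key : v (-aeval (Sum.elim y fun j => T0 j - t n * T j n) P / (t n * p * G i0) -
      ∑ i, G i / G i0 * (T i n / p)) ≤ v p := by
    rw [e, map_div₀, v.map_neg, div_le_iff₀ d0, map_mul, map_mul]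
    refine t3.trans ?_
    rw [show v (t n) * v (p : Ω) ^ (c + 2) = v (p : Ω) * (v (t n) * v (p : Ω) * v (p : Ω) ^ c) by
      rw [pow_add, sq]; ac_rfl]
    exact mul_le_mul_right (mul_le_mul_right g3.le _) _
  refine ⟨_, hdiv n _ (neg_mem (DTa2_mem _ (mE n) (mH n) h1)) _
    (mul_mem (mul_mem (ht n).1 (natCast_mem _ _)) (hR hn (g1 i0))) ?_ ?_, key⟩
  · have s1 : v (∑ i, G i / G i0 * (T i n / p)) ≤ 1 := v.map_sum_le fun i _ => by
      rw [map_mul, map_div₀, map_div₀]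
      exact mul_le_one' (div_le_one_of_le₀ (hi0 i (Finset.mem_univ _)) zero_le)
        (div_le_one_of_le₀ (hT i n) zero_le)
    have s2 := v.map_add_le (key.trans h.p1.le) s1
    rw [sub_add_cancel, map_div₀, div_le_iff₀ d0, one_mul] at s2
    exact s2
  · exact not_inf_mul h.p1.le (not_inf_mul h.p1.le (ht n).2.2
      (not_inf_of_le h.p0 h.p1 (c := 1) (by rw [pow_one]))) g6

end Pool.Agent.Work.MP_dd0d16_nt.T
end

-- merged part: Pool.Agent.Work.MP_dd0d16_nt.D.Fac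
section
/-!
Factorisation modulo the maximal ideal.

PLAN. `factor0`: as `factor1` (G/Alg2) but keep all normalized factors; or apply `factor1` and add the
primes `X d` (`Q ⊕ σ`). `prime_der`: if all `pderiv a π` vanish then every exponent of `π` is divisible by `p`
(`coeff_pderiv`), and `π = (∑ μ ∈ support, monomial (μ / p) (root of coeff μ)) ^ p` (`sum_pow_char`), against
`Prime.irreducible`. If `pderiv a π ≠ 0` then `π` does not divide it (total degrees, or `degreeOf a`).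
`dlog_ind`: for `i0` with `c i0 ≠ 0` take `a` from `prime_der`; `factor2` with `n = 1`, `c0 = 0` needs
`¬ π q ∣ D q` for all `q`, so argue directly: `π i0` divides all other terms.
`fac`: `κ, res, k` from `exists_resF` for `E`; the field `k` (as a type) is perfect by `hl`. Divide `f j` by
a largest coefficient `b j`, reduce the coefficients to `k` (`mem_range_map_iff_coeffs_subset`,
`AxCore_lift k.toSubring`), `factor0`; lift the coefficients of the primes to integral elements of `E`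
and `W` (zero outside the support) and the constants to `E`; `u j` is the quotient, `u j - 1` is the
value of a polynomial over `E` whose coefficients have value `< 1`, hence are `Sm`, divided by a unit
(`Sm.sum`, `Sm.mul_bd`, or `Gau.norm`). Units: `Gau.idp`. The last part: multiply by `∏ j, P j (x)`,
`Gau.idp`, `dlog_ind`, `CharP.cast_eq_zero_iff`.
-/

set_option autoImplicit false

namespace Pool.Agent.Work.MP_dd0d16_nt.T

open MvPolynomial

section

variable {k σ : Type} [Field k]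

theorem factor0 [Fintype σ] {I : Type} [Fintype I] (f : I → MvPolynomial σ k) (hf : ∀ i, f i ≠ 0) :
    ∃ (Q : Type) (_ : Fintype Q) (π : Q → MvPolynomial σ k) (o : I → Q → ℕ) (κ : I → k),
      (∀ q, Prime (π q)) ∧ (∀ q q', π q ∣ π q' → q = q') ∧
      ∀ i, κ i ≠ 0 ∧ f i = C (κ i) * ∏ q, π q ^ o i q := by
  classical
  let _ : StrongNormalizationMonoid (MvPolynomial σ k) :=
    UniqueFactorizationMonoid.strongNormalizationMonoid
  let T : Finset (MvPolynomial σ k) := Finset.univ.biUnion fun i =>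
    (UniqueFactorizationMonoid.normalizedFactors (f i)).toFinset
  have hT : ∀ q : T, Prime q.1 ∧ normalize q.1 = q.1 := fun q => by
    obtain ⟨i, -, hi⟩ := Finset.mem_biUnion.1 q.2
    exact ⟨UniqueFactorizationMonoid.prime_of_normalized_factor _ (Multiset.mem_toFinset.1 hi),
      UniqueFactorizationMonoid.normalize_normalized_factor _ (Multiset.mem_toFinset.1 hi)⟩
  have key : ∀ i, ∃ (o : T → ℕ) (c : k), c ≠ 0 ∧ f i = C c * ∏ q : T, q.1 ^ o q := fun i => by
    obtain ⟨u, hu⟩ := UniqueFactorizationMonoid.prod_normalizedFactors (hf i)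
    obtain ⟨r, h3, h4⟩ := isUnit_iff_eq_C_of_isReduced.1 u.isUnit
    refine ⟨fun q => (UniqueFactorizationMonoid.normalizedFactors (f i)).count q.1, r, h3.ne_zero, ?_⟩
    rw [Finset.prod_coe_sort T fun q =>
        q ^ (UniqueFactorizationMonoid.normalizedFactors (f i)).count q,
      ← Finset.prod_multiset_count_of_subset _ T (Finset.subset_biUnion_of_mem
        (fun i => (UniqueFactorizationMonoid.normalizedFactors (f i)).toFinset) (Finset.mem_univ i)),
      ← h4, mul_comm, hu]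
  choose o κ h1 h2 using key
  refine ⟨T, inferInstance, Subtype.val, o, κ, fun q => (hT q).1, fun q q' h => Subtype.ext ?_,
    fun i => ⟨h1 i, h2 i⟩⟩
  rw [← (hT q).2, ← (hT q').2]
  exact normalize_eq_normalize_iff_associated.2
    (((hT q).1.dvd_prime_iff_associated (hT q').1).1 h)

theorem prime_der {p : ℕ} [Fact p.Prime] [CharP k p] (hk : ∀ c : k, ∃ b, b ^ p = c)
    {π : MvPolynomial σ k} (hπ : Prime π) : ∃ a, ¬ π ∣ pderiv a π := by
  classical
  by_contra! h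
  have h0 : ∀ a, pderiv a π = 0 := fun a => by
    obtain ⟨t, ht⟩ := h a
    by_contra h1
    have t0 : t ≠ 0 := fun e => h1 (by rw [ht, e, mul_zero])
    have h2 : (X a * pderiv a π).totalDegree ≤ π.totalDegree := by
      conv_lhs => rw [← π.support_sum_monomial_coeff, map_sum, Finset.mul_sum]
      refine totalDegree_finsetSum_le fun μ hμ => ?_
      rw [X_mul_pderiv_monomial]
      exact (totalDegree_smul_le _ _).trans
        ((totalDegree_monomial_le _ _).trans (le_totalDegree hμ))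
    rw [totalDegree_mul_of_isDomain (X_ne_zero a) h1, ht,
      totalDegree_mul_of_isDomain hπ.ne_zero t0, totalDegree_X] at h2
    omega
  choose r hr using hk
  suffices e : (∑ μ ∈ π.support,
      monomial (μ.mapRange (· / p) (Nat.zero_div p)) (r (π.coeff μ))) ^ p = π from
    not_irreducible_pow (Fact.out : p.Prime).ne_one (e ▸ hπ.irreducible)
  rw [sum_pow_char]
  conv_rhs => rw [← π.support_sum_monomial_coeff]
  refine Finset.sum_congr rfl fun μ hμ => ?_
  rw [monomial_pow, hr]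
  congr 2
  ext a
  rw [Finsupp.smul_apply, Finsupp.mapRange_apply, smul_eq_mul]
  refine Nat.mul_div_cancel' ?_
  by_cases ha : μ a = 0
  · rw [ha]; exact dvd_zero _
  have e : μ - Finsupp.single a 1 + Finsupp.single a 1 = μ :=
    tsub_add_cancel_of_le (Finsupp.single_le_iff.2 (by omega))
  have h1 := coeff_pderiv (i := a) π (μ - Finsupp.single a 1)
  rw [h0, e, coeff_zero, eq_comm, mul_eq_zero, or_iff_right (mem_support_iff.1 hμ),
    ← Nat.cast_succ, CharP.cast_eq_zero_iff k p] at h1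
  convert h1 using 1
  rw [Finsupp.tsub_apply, Finsupp.single_eq_same]
  omega

theorem dlog_ind {p : ℕ} [Fact p.Prime] [CharP k p] (hk : ∀ c : k, ∃ b, b ^ p = c) {Q : Type}
    [Fintype Q] [DecidableEq Q] {π : Q → MvPolynomial σ k} (hπ : ∀ q, Prime (π q))
    (hπ' : ∀ q q', π q ∣ π q' → q = q') (c : Q → k)
    (h : ∀ a, ∑ i, C (c i) * (pderiv a (π i) * ∏ j ∈ Finset.univ.erase i, π j) = 0) : c = 0 := by
  funext i
  by_contra hc
  obtain ⟨a, ha⟩ := prime_der hk (hπ i)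
  have h2 : π i ∣ ∑ j ∈ Finset.univ.erase i,
      C (c j) * (pderiv a (π j) * ∏ l ∈ Finset.univ.erase j, π l) :=
    Finset.dvd_sum fun j hj => ((Finset.dvd_prod_of_mem π (Finset.mem_erase.2
      ⟨(Finset.mem_erase.1 hj).1.symm, Finset.mem_univ i⟩)).mul_left _).mul_left _
  have h1 := h a
  rw [← Finset.sum_erase_add _ _ (Finset.mem_univ i)] at h1
  have h3 : π i ∣ C (c i) * (pderiv a (π i) * ∏ l ∈ Finset.univ.erase i, π l) :=
    (dvd_add_right h2).1 (h1 ▸ dvd_zero _)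
  rcases (hπ i).dvd_or_dvd h3 with k | k
  · exact (hπ i).not_isUnit (isUnit_of_dvd_unit k ((Ne.isUnit hc).map C))
  rcases (hπ i).dvd_or_dvd k with k | k
  · exact ha k
  · obtain ⟨j, hj, k⟩ := (hπ i).exists_mem_finset_dvd k
    exact (Finset.mem_erase.1 hj).1 (hπ' _ _ k).symm

end

variable {Ω Γ : Type} [Field Ω] [LinearOrderedCommGroupWithZero Γ] {v : Valuation Ω Γ}
  {E W : Subfield Ω} {p m : ℕ} [Fact p.Prime] {x : Fin m → Ω}

theorem DFac_lift {A B σ : Type} [CommSemiring A] [CommSemiring B] (ℓ : A → B) (h0 : ℓ 0 = 0)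
    (π : MvPolynomial σ A) : ∃ P : MvPolynomial σ B, ∀ μ, P.coeff μ = ℓ (π.coeff μ) := by
  classical
  refine ⟨∑ μ ∈ π.support, monomial μ (ℓ (π.coeff μ)), fun μ => ?_⟩
  simp only [coeff_sum, coeff_monomial, Finset.sum_ite_eq']
  split_ifs with h
  · rfl
  · rw [notMem_support_iff.1 h, h0]

theorem DFac_res (h1 : v p < 1) : ∃ (k : Type) (_ : Field k) (_ : CharP k p) (R : Subring Ω)
    (ρ : R →+* k), (∀ a, a ∈ R ↔ a ∈ E ∧ v a ≤ 1) ∧ Function.Surjective ρ ∧
      ∀ a, ρ a = 0 ↔ v (a : Ω) < 1 := by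
  obtain ⟨κ, _, _, res, hres⟩ := exists_resF (v := v) h1
  obtain ⟨k, hk⟩ := hres E
  refine ⟨k, inferInstance, inferInstance, E.toSubring ⊓ v.integer,
    (res.comp (Subring.inclusion inf_le_right)).codRestrict k
      fun a => (hk.mem _).2 ⟨_, a.2.1, rfl⟩, fun a => Iff.rfl, fun c => ?_, fun a => ?_⟩
  · obtain ⟨e, e1, e2⟩ := (hk.mem c).1 c.2
    exact ⟨⟨e, e1, e.2⟩, Subtype.ext e2⟩
  · exact Subtype.ext_iff.trans (hk.zero _)

theorem fac (h1 : v p < 1) (hx : ∀ a, v (x a) ≤ 1) (hG : Gau v E x)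
    (hl : ∀ a ∈ E, v a ≤ 1 → ∃ b ∈ E, b ∈ W ∧ v b ≤ 1 ∧ v (a - b ^ p) < 1)
    (hr : ∀ a ∈ E, v a < 1 → Sm v p a) {I : Type} [Fintype I] (f : I → MvPolynomial (Fin m) Ω)
    (hf : ∀ j, f j ≠ 0 ∧ ∀ μ, (f j).coeff μ ∈ E) :
    ∃ (Q : Type) (_ : Fintype Q) (P : Q → MvPolynomial (Fin m) Ω) (o : I → Q → ℕ) (κ u : I → Ω),
      (∀ i, Cw v W E (P i) ∧ v (eval x (P i)) = 1) ∧
      (∀ j, κ j ∈ E ∧ κ j ≠ 0 ∧ Sm v p (u j - 1) ∧
        eval x (f j) = κ j * (∏ i, eval x (P i) ^ o j i) * u j) ∧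
      ∀ c : Q → ℕ, (∀ i, c i < p) → c ≠ 0 →
        ∃ a, ¬ v (∑ i, c i * (eval x (pderiv a (P i)) / eval x (P i))) < 1 := by
  classical
  obtain ⟨k, _, _, R, ρ, hR, hρ, h0⟩ := DFac_res (E := E) h1
  have r1 : ∀ a : R, (a : Ω) ∈ E := fun a => ((hR _).1 a.2).1
  have r2 : ∀ a : R, v (a : Ω) ≤ 1 := fun a => ((hR _).1 a.2).2
  have hℓ : ∀ c : k, ∃ b : R, (b : Ω) ∈ W ∧ ρ b ^ p = c := fun c => by
    obtain ⟨e, rfl⟩ := hρ c
    obtain ⟨b, b1, b2, b3, b4⟩ := hl e (r1 e) (r2 e)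
    refine ⟨⟨b, (hR b).2 ⟨b1, b3⟩⟩, b2, ?_⟩
    rw [eq_comm, ← sub_eq_zero, ← map_pow, ← map_sub, h0]
    exact b4
  have hk : ∀ c : k, ∃ b, b ^ p = c := fun c => let ⟨b, _, hb⟩ := hℓ c; ⟨_, hb⟩
  have hℓ' : ∀ c : k, ∃ b : R, (b : Ω) ∈ W ∧ ρ b = c ∧ (c = 0 → b = 0) := fun c => by
    by_cases hc : c = 0
    · exact ⟨0, zero_mem _, by rw [hc, map_zero], fun _ => rfl⟩
    · obtain ⟨b, b1, b2⟩ := hℓ c
      exact ⟨b ^ p, pow_mem b1 p, by rw [map_pow, b2], fun h => absurd h hc⟩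
  choose ℓ l1 l2 l3 using hℓ'
  let ev : MvPolynomial (Fin m) R →+* Ω := (eval x).comp (map R.subtype)
  have hev : ∀ P, ev P = eval x (map R.subtype P) := fun _ => rfl
  have c1 : ∀ (P : MvPolynomial (Fin m) R) μ, (map R.subtype P).coeff μ ∈ E := fun P μ => by
    rw [coeff_map]; exact r1 _
  have e1 : ∀ P, map ρ P = 0 ↔ v (ev P) < 1 := fun P => by
    refine ⟨fun h => ev_lt hx one_ne_zero fun μ => ?_, fun h => MvPolynomial.ext _ _ fun μ => ?_⟩
    · rw [coeff_map]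
      exact (h0 _).1 (by rw [← coeff_map, h, coeff_zero])
    · have := (hG _ (c1 P) μ).trans_lt h
      rw [coeff_map] at this ⊢
      exact (h0 _).2 this
  have e2 : ∀ P, map ρ P ≠ 0 → v (ev P) = 1 := fun P h =>
    (ev_le hx fun μ => by rw [coeff_map]; exact r2 _).antisymm
      (not_lt.1 (mt (e1 P).2 h))
  have e3 : ∀ P, map ρ P = 0 → Sm v p (ev P) := fun P h => by
    by_cases hP : map R.subtype P = 0
    · exact Sm.of_le (by rw [hev, hP, map_zero, map_zero]; exact zero_le)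
    · obtain ⟨ν, hν⟩ := hG.norm hx (c1 P) hP
      obtain ⟨q, hq⟩ := hr _ (c1 P ν) (hν ▸ (e1 P).1 h)
      exact ⟨q, by rwa [hev, hν]⟩
  have e4 : ∀ j, ∃ b ∈ E, b ≠ 0 ∧ ∃ g, map ρ g ≠ 0 ∧ eval x (f j) = b * ev g := fun j => by
    obtain ⟨ν, hν⟩ := hG.norm hx (hf j).2 (hf j).1
    have b0 : v ((f j).coeff ν) ≠ 0 := hν ▸ v.ne_zero_iff.2 (hG.ne (hf j).2 (hf j).1)
    have b1 := v.ne_zero_iff.1 b0
    obtain ⟨g, hg⟩ := AxCore_lift R (C ((f j).coeff ν)⁻¹ * f j) fun μ => by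
      rw [coeff_C_mul]
      refine (hR _).2 ⟨mul_mem (inv_mem ((hf j).2 ν)) ((hf j).2 μ), ?_⟩
      rw [map_mul, map_inv₀, inv_mul_le_iff₀ (zero_lt_iff.2 b0), mul_one, ← hν]
      exact hG _ (hf j).2 μ
    have b2 : ev g = ((f j).coeff ν)⁻¹ * eval x (f j) := by rw [hev, hg, map_mul, eval_C]
    refine ⟨_, (hf j).2 ν, b1, g, fun h => ?_, by rw [b2, mul_inv_cancel_left₀ b1]⟩
    have := (e1 g).1 h
    rw [b2, map_mul, map_inv₀, hν, inv_mul_cancel₀ b0] at this
    exact this.false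
  choose b b1 b2 g g1 g2 using e4
  obtain ⟨Q, _, π, o, κ, hπ, hπ', hκ⟩ := factor0 (fun j => map ρ (g j)) g1
  choose P hP using fun i => DFac_lift ℓ (l3 0 rfl) (π i)
  have p1 : ∀ i, map ρ (P i) = π i := fun i => MvPolynomial.ext _ _ fun μ => by
    rw [coeff_map, hP, l2]
  have p2 : ∀ i, v (ev (P i)) = 1 := fun i => e2 _ (p1 i ▸ (hπ i).ne_zero)
  have p3 : ∀ j, map ρ (C (ℓ (κ j)) * ∏ i, P i ^ o j i) = map ρ (g j) := fun j => by
    simp only [map_mul, map_prod, map_pow, map_C, p1, l2]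
    exact (hκ j).2.symm
  refine ⟨Q, inferInstance, fun i => map R.subtype (P i), o, fun j => b j * ℓ (κ j),
    fun j => ev (g j) / ev (C (ℓ (κ j)) * ∏ i, P i ^ o j i), fun i => ⟨fun μ => ?_, p2 i⟩,
    fun j => ?_, fun c hc hc0 => ?_⟩
  · rw [coeff_map, hP]
    exact ⟨r1 _, l1 _, r2 _⟩
  · have q1 := e2 _ (p3 j ▸ g1 j)
    have q2 := v.ne_zero_iff.1 (q1 ▸ one_ne_zero)
    obtain ⟨q, hq⟩ := e3 (g j - C (ℓ (κ j)) * ∏ i, P i ^ o j i) (by rw [map_sub, p3, sub_self])
    have q3 : ev (C (ℓ (κ j)) * ∏ i, P i ^ o j i) = ℓ (κ j) * ∏ i, ev (P i) ^ o j i := by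
      rw [map_mul, map_prod, hev, map_C, eval_C]
      simp only [map_pow, Subring.subtype_apply]
    refine ⟨mul_mem (b1 j) (r1 _), mul_ne_zero (b2 j) (left_ne_zero_of_mul (q3 ▸ q2)),
      ⟨q, by rwa [div_sub_one q2, map_div₀, q1, div_one, ← map_sub]⟩, ?_⟩
    simp only [← hev]
    rw [g2, mul_assoc (b j), ← q3, mul_assoc, mul_div_cancel₀ _ q2]
  · by_contra! h
    refine hc0 (funext fun i => Nat.eq_zero_of_dvd_of_lt ((CharP.cast_eq_zero_iff k p _).1
      (congrFun (dlog_ind hk hπ hπ' (fun i => (c i : k)) fun a => ?_) i)) (hc i))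
    have q1 : ev (∑ i, C (c i : R) * (pderiv a (P i) * ∏ j ∈ Finset.univ.erase i, P j)) =
        (∑ i, c i * (eval x (pderiv a (map R.subtype (P i))) / eval x (map R.subtype (P i)))) *
          ∏ j, ev (P j) := by
      rw [map_sum, Finset.sum_mul]
      refine Finset.sum_congr rfl fun i _ => ?_
      rw [map_natCast, map_mul, map_mul, map_natCast, map_prod, pderiv_map, ← hev, ← hev,
        ← Finset.mul_prod_erase _ _ (Finset.mem_univ i), mul_assoc, ← mul_assoc (_ / _),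
        div_mul_cancel₀ _ (v.ne_zero_iff.1 (p2 i ▸ one_ne_zero))]
    have q2 := (e1 _).2 (by
      rw [q1, map_mul, map_prod, Finset.prod_eq_one fun j _ => p2 j, mul_one]; exact h a)
    simpa only [map_sum, map_mul, map_prod, ← pderiv_map, p1, map_natCast] using q2

end Pool.Agent.Work.MP_dd0d16_nt.T
end

-- merged part: Pool.Agent.Work.MP_dd0d16_nt.E.Fac2
section
/-!
Factorisation modulo the maximal ideal, independence over the residue field.
-/

set_option autoImplicit false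

namespace Pool.Agent.Work.MP_dd0d16_nt.T

open MvPolynomial

variable {Ω Γ : Type} [Field Ω] [LinearOrderedCommGroupWithZero Γ] {v : Valuation Ω Γ}
  {E W : Subfield Ω} {p m : ℕ} [Fact p.Prime] {x : Fin m → Ω}

theorem fac2 (h1 : v p < 1) (hx : ∀ a, v (x a) ≤ 1) (hG : Gau v E x)
    (hl : ∀ a ∈ E, v a ≤ 1 → ∃ b ∈ E, b ∈ W ∧ v b ≤ 1 ∧ v (a - b ^ p) < 1)
    (hr : ∀ a ∈ E, v a < 1 → Sm v p a) {I : Type} [Fintype I] (f : I → MvPolynomial (Fin m) Ω)
    (hf : ∀ j, f j ≠ 0 ∧ ∀ μ, (f j).coeff μ ∈ E) :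
    ∃ (Q : Type) (_ : Fintype Q) (P : Q → MvPolynomial (Fin m) Ω) (o : I → Q → ℕ) (κ u : I → Ω),
      (∀ i, Cw v W E (P i) ∧ v (eval x (P i)) = 1) ∧
      (∀ j, κ j ∈ E ∧ κ j ≠ 0 ∧ Sm v p (u j - 1) ∧
        eval x (f j) = κ j * (∏ i, eval x (P i) ^ o j i) * u j) ∧
      ∀ c : Q → Ω, (∀ i, c i ∈ E ∧ v (c i) ≤ 1) →
        (∀ a, v (∑ i, c i * (eval x (pderiv a (P i)) / eval x (P i))) < 1) → ∀ i, v (c i) < 1 := by
  classical
  obtain ⟨k, _, _, R, ρ, hR, hρ, h0⟩ := DFac_res (E := E) h1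
  have r1 : ∀ a : R, (a : Ω) ∈ E := fun a => ((hR _).1 a.2).1
  have r2 : ∀ a : R, v (a : Ω) ≤ 1 := fun a => ((hR _).1 a.2).2
  have hℓ : ∀ c : k, ∃ b : R, (b : Ω) ∈ W ∧ ρ b ^ p = c := fun c => by
    obtain ⟨e, rfl⟩ := hρ c
    obtain ⟨b, b1, b2, b3, b4⟩ := hl e (r1 e) (r2 e)
    refine ⟨⟨b, (hR b).2 ⟨b1, b3⟩⟩, b2, ?_⟩
    rw [eq_comm, ← sub_eq_zero, ← map_pow, ← map_sub, h0]
    exact b4
  have hk : ∀ c : k, ∃ b, b ^ p = c := fun c => let ⟨b, _, hb⟩ := hℓ c; ⟨_, hb⟩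
  have hℓ' : ∀ c : k, ∃ b : R, (b : Ω) ∈ W ∧ ρ b = c ∧ (c = 0 → b = 0) := fun c => by
    by_cases hc : c = 0
    · exact ⟨0, zero_mem _, by rw [hc, map_zero], fun _ => rfl⟩
    · obtain ⟨b, b1, b2⟩ := hℓ c
      exact ⟨b ^ p, pow_mem b1 p, by rw [map_pow, b2], fun h => absurd h hc⟩
  choose ℓ l1 l2 l3 using hℓ'
  let ev : MvPolynomial (Fin m) R →+* Ω := (eval x).comp (map R.subtype)
  have hev : ∀ P, ev P = eval x (map R.subtype P) := fun _ => rfl
  have c1 : ∀ (P : MvPolynomial (Fin m) R) μ, (map R.subtype P).coeff μ ∈ E := fun P μ => by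
    rw [coeff_map]; exact r1 _
  have e1 : ∀ P, map ρ P = 0 ↔ v (ev P) < 1 := fun P => by
    refine ⟨fun h => ev_lt hx one_ne_zero fun μ => ?_, fun h => MvPolynomial.ext _ _ fun μ => ?_⟩
    · rw [coeff_map]
      exact (h0 _).1 (by rw [← coeff_map, h, coeff_zero])
    · have := (hG _ (c1 P) μ).trans_lt h
      rw [coeff_map] at this ⊢
      exact (h0 _).2 this
  have e2 : ∀ P, map ρ P ≠ 0 → v (ev P) = 1 := fun P h =>
    (ev_le hx fun μ => by rw [coeff_map]; exact r2 _).antisymm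
      (not_lt.1 (mt (e1 P).2 h))
  have e3 : ∀ P, map ρ P = 0 → Sm v p (ev P) := fun P h => by
    by_cases hP : map R.subtype P = 0
    · exact Sm.of_le (by rw [hev, hP, map_zero, map_zero]; exact zero_le)
    · obtain ⟨ν, hν⟩ := hG.norm hx (c1 P) hP
      obtain ⟨q, hq⟩ := hr _ (c1 P ν) (hν ▸ (e1 P).1 h)
      exact ⟨q, by rwa [hev, hν]⟩
  have e4 : ∀ j, ∃ b ∈ E, b ≠ 0 ∧ ∃ g, map ρ g ≠ 0 ∧ eval x (f j) = b * ev g := fun j => by
    obtain ⟨ν, hν⟩ := hG.norm hx (hf j).2 (hf j).1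
    have b0 : v ((f j).coeff ν) ≠ 0 := hν ▸ v.ne_zero_iff.2 (hG.ne (hf j).2 (hf j).1)
    have b1 := v.ne_zero_iff.1 b0
    obtain ⟨g, hg⟩ := AxCore_lift R (C ((f j).coeff ν)⁻¹ * f j) fun μ => by
      rw [coeff_C_mul]
      refine (hR _).2 ⟨mul_mem (inv_mem ((hf j).2 ν)) ((hf j).2 μ), ?_⟩
      rw [map_mul, map_inv₀, inv_mul_le_iff₀ (zero_lt_iff.2 b0), mul_one, ← hν]
      exact hG _ (hf j).2 μ
    have b2 : ev g = ((f j).coeff ν)⁻¹ * eval x (f j) := by rw [hev, hg, map_mul, eval_C]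
    refine ⟨_, (hf j).2 ν, b1, g, fun h => ?_, by rw [b2, mul_inv_cancel_left₀ b1]⟩
    have := (e1 g).1 h
    rw [b2, map_mul, map_inv₀, hν, inv_mul_cancel₀ b0] at this
    exact this.false
  choose b b1 b2 g g1 g2 using e4
  obtain ⟨Q, _, π, o, κ, hπ, hπ', hκ⟩ := factor0 (fun j => map ρ (g j)) g1
  choose P hP using fun i => DFac_lift ℓ (l3 0 rfl) (π i)
  have p1 : ∀ i, map ρ (P i) = π i := fun i => MvPolynomial.ext _ _ fun μ => by
    rw [coeff_map, hP, l2]
  have p2 : ∀ i, v (ev (P i)) = 1 := fun i => e2 _ (p1 i ▸ (hπ i).ne_zero)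
  have p3 : ∀ j, map ρ (C (ℓ (κ j)) * ∏ i, P i ^ o j i) = map ρ (g j) := fun j => by
    simp only [map_mul, map_prod, map_pow, map_C, p1, l2]
    exact (hκ j).2.symm
  refine ⟨Q, inferInstance, fun i => map R.subtype (P i), o, fun j => b j * ℓ (κ j),
    fun j => ev (g j) / ev (C (ℓ (κ j)) * ∏ i, P i ^ o j i), fun i => ⟨fun μ => ?_, p2 i⟩,
    fun j => ?_, fun c hc h i => ?_⟩
  · rw [coeff_map, hP]
    exact ⟨r1 _, l1 _, r2 _⟩
  · have q1 := e2 _ (p3 j ▸ g1 j)
    have q2 := v.ne_zero_iff.1 (q1 ▸ one_ne_zero)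
    obtain ⟨q, hq⟩ := e3 (g j - C (ℓ (κ j)) * ∏ i, P i ^ o j i) (by rw [map_sub, p3, sub_self])
    have q3 : ev (C (ℓ (κ j)) * ∏ i, P i ^ o j i) = ℓ (κ j) * ∏ i, ev (P i) ^ o j i := by
      rw [map_mul, map_prod, hev, map_C, eval_C]
      simp only [map_pow, Subring.subtype_apply]
    refine ⟨mul_mem (b1 j) (r1 _), mul_ne_zero (b2 j) (left_ne_zero_of_mul (q3 ▸ q2)),
      ⟨q, by rwa [div_sub_one q2, map_div₀, q1, div_one, ← map_sub]⟩, ?_⟩
    simp only [← hev]
    rw [g2, mul_assoc (b j), ← q3, mul_assoc, mul_div_cancel₀ _ q2]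
  · let c' : Q → R := fun i => ⟨c i, (hR _).2 (hc i)⟩
    refine (h0 (c' i)).1 (congrFun (dlog_ind hk hπ hπ' (fun i => ρ (c' i)) fun a => ?_) i)
    have q1 : ev (∑ i, C (c' i) * (pderiv a (P i) * ∏ j ∈ Finset.univ.erase i, P j)) =
        (∑ i, c i * (eval x (pderiv a (map R.subtype (P i))) / eval x (map R.subtype (P i)))) *
          ∏ j, ev (P j) := by
      rw [map_sum, Finset.sum_mul]
      refine Finset.sum_congr rfl fun i _ => ?_
      have q0 : ev (C (c' i)) = c i := by rw [hev, map_C, eval_C]; rfl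
      rw [map_mul, map_mul, q0, map_prod, pderiv_map, ← hev, ← hev,
        ← Finset.mul_prod_erase _ _ (Finset.mem_univ i), mul_assoc, ← mul_assoc (_ / _),
        div_mul_cancel₀ _ (v.ne_zero_iff.1 (p2 i ▸ one_ne_zero))]
    have q2 := (e1 _).2 (by
      rw [q1, map_mul, map_prod, Finset.prod_eq_one fun j _ => p2 j, mul_one]; exact h a)
    simpa only [map_sum, map_mul, map_prod, ← pderiv_map, p1, map_C] using q2

end Pool.Agent.Work.MP_dd0d16_nt.T
end
end

-- merged part: Pool.Agent.Work.MP_dd0d16_nt.D.SeqD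
section
-- merged part: Pool.Agent.Work.MP_dd0d16_nt.D.Germ
section
/-!
Passage to the ultrapower.

PLAN. `vG_lt`: `lt_iff_not_ge`, `vG_le`, `Ultrafilter.eventually_not`. `exists_aut`: as `exists_frob`
(G/GermC); for example `Filter.Germ.liftOn`, or `RingEquiv.ofBijective`. `fam_poly`:
`∑ μ ∈ S, monomial μ (fun n => coeff μ (P n))` with `S` the finite set of exponents of degree at most `D`
(see `algInd_iff` in S/Germ). `poly_lift`: `MvPolynomial.map_surjective`, `gm_surj`. `co_gm`, `ev_gm`: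
`coeff_map`, `map_ev`. `ev_all`: a property of the coefficients that holds for `0` and, for each `μ`,
eventually, holds eventually for all `μ` (finite support, `eventually_all_finset`).
`deg_pr`: supports shrink under `map`. `lead_gm`: let `ν` be the degree of the image; eventually the
coefficient at `ν` is nonzero and all coefficients at `μ` above `ν` vanish
(`MonomialOrder.coeff_eq_zero_of_lt`, `MonomialOrder.degree_le_iff`, `MonomialOrder.le_degree`).
-/

set_option autoImplicit false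

namespace Pool.Agent.Work.MP_dd0d16_nt.T

open Filter MvPolynomial

variable {p : ℕ} [Fact p.Prime] {ι : Type} (U : Ultrafilter ι) {τ : Type}

/-- The member with index `n` of a family of polynomials. -/
noncomputable abbrev pr (n : ι) (P : MvPolynomial τ (ι → PadicAlgCl p)) :
    MvPolynomial τ (PadicAlgCl p) :=
  map (Pi.evalRingHom (fun _ => PadicAlgCl p) n) P

theorem vG_lt (f g : ι → PadicAlgCl p) :
    vG U (gm U f) < vG U (gm U g) ↔ ∀ᶠ n in U, ‖f n‖ < ‖g n‖ := by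
  rw [lt_iff_not_ge, vG_le, ← Ultrafilter.eventually_not]
  simp only [not_le]

theorem vG_lt_one (f : ι → PadicAlgCl p) : vG U (gm U f) < 1 ↔ ∀ᶠ n in U, ‖f n‖ < 1 := by
  have h := vG_lt U f 1
  rw [map_one, map_one] at h
  simpa using h

theorem vG_eq_one (f : ι → PadicAlgCl p) : vG U (gm U f) = 1 ↔ ∀ᶠ n in U, ‖f n‖ = 1 := by
  have h := vG_le U 1 f
  rw [map_one, map_one] at h
  rw [le_antisymm_iff, vG_le_one, h, ← eventually_and]
  simp only [Pi.one_apply, norm_one, ← le_antisymm_iff]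

theorem exists_aut (σ : ι → PadicAlgCl p ≃ₐ[ℚ_[p]] PadicAlgCl p) : ∃ s : GF p U ≃+* GF p U,
    (∀ f, s (gm U f) = gm U fun n => σ n (f n)) ∧
      ∀ f, s.symm (gm U f) = gm U fun n => (σ n).symm (f n) := by
  have key : ∀ σ : ι → PadicAlgCl p ≃ₐ[ℚ_[p]] PadicAlgCl p, ∃ Φ : GF p U → GF p U,
      ∀ f, Φ (gm U f) = gm U fun n => σ n (f n) := fun σ =>
    ⟨Germ.map' (fun f n => σ n (f n)) fun f g H => H.mono fun n h => by simp only [h],
      fun _ => rfl⟩
  obtain ⟨Φ, hΦ⟩ := key σ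
  obtain ⟨Ψ, hΨ⟩ := key fun n => (σ n).symm
  refine ⟨⟨⟨Φ, Ψ, fun a => ?_, fun a => ?_⟩, fun a b => ?_, fun a b => ?_⟩, hΦ, hΨ⟩
  · obtain ⟨f, rfl⟩ := gm_surj U a
    rw [hΦ, hΨ]
    simp only [AlgEquiv.symm_apply_apply]
  · obtain ⟨f, rfl⟩ := gm_surj U a
    rw [hΨ, hΦ]
    simp only [AlgEquiv.apply_symm_apply]
  · obtain ⟨f, rfl⟩ := gm_surj U a
    obtain ⟨g, rfl⟩ := gm_surj U b
    change Φ _ = Φ _ * Φ _
    rw [← map_mul, hΦ, hΦ, hΦ, ← map_mul]
    exact congrArg _ (funext fun n => map_mul _ _ _)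
  · obtain ⟨f, rfl⟩ := gm_surj U a
    obtain ⟨g, rfl⟩ := gm_surj U b
    change Φ _ = Φ _ + Φ _
    rw [← map_add, hΦ, hΦ, hΦ, ← map_add]
    exact congrArg _ (funext fun n => map_add _ _ _)

theorem fam_poly [Fintype τ] (P : ι → MvPolynomial τ (PadicAlgCl p)) {D : ℕ}
    (hP : ∀ n, (P n).totalDegree ≤ D) :
    ∃ P' : MvPolynomial τ (ι → PadicAlgCl p), ∀ n, pr n P' = P n := by
  classical
  let S := (Finsupp.finite_of_degree_le (σ := τ) D).toFinset
  refine ⟨∑ μ ∈ S, monomial μ fun n => (P n).coeff μ, fun n => ?_⟩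
  simp only [pr, map_sum, map_monomial, Pi.evalRingHom_apply]
  conv_rhs => rw [← support_sum_monomial_coeff (P n)]
  refine (Finset.sum_subset (fun μ hμ => (Set.Finite.mem_toFinset _).2
    ((le_totalDegree hμ).trans (hP n))) fun μ _ hμ => ?_).symm
  rw [notMem_support_iff.1 hμ, map_zero]

theorem poly_lift (P : MvPolynomial τ (GF p U)) :
    ∃ P' : MvPolynomial τ (ι → PadicAlgCl p), map (gm U) P' = P := by
  exact map_surjective _ (gm_surj U) P

theorem co_gm (P : MvPolynomial τ (ι → PadicAlgCl p)) (μ : τ →₀ ℕ) :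
    (map (gm U) P).coeff μ = gm U fun n => (pr n P).coeff μ := by
  simp only [pr, coeff_map, Pi.evalRingHom_apply]

theorem DGerm_ev {A B σ : Type} [CommRing A] [CommRing B] (f : A →+* B) (x : σ → A)
    (P : MvPolynomial σ A) : f (eval x P) = eval (fun a => f (x a)) (map f P) := by
  rw [eval_map]
  exact eval₂_comp f x P

theorem ev_gm (P : MvPolynomial τ (ι → PadicAlgCl p)) (z : ι → τ → PadicAlgCl p) :
    eval (fun a => gm U fun n => z n a) (map (gm U) P) = gm U fun n => eval (z n) (pr n P) := by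
  have h := DGerm_ev (gm U) (fun a n => z n a) P
  rw [← h]
  exact congrArg _ (funext fun n =>
    DGerm_ev (Pi.evalRingHom (fun _ => PadicAlgCl p) n) (fun a n => z n a) P)

theorem ev_all (P : MvPolynomial τ (ι → PadicAlgCl p)) {q : ι → PadicAlgCl p → Prop}
    (h0 : ∀ n, q n 0) (h : ∀ μ, ∀ᶠ n in U, q n ((pr n P).coeff μ)) :
    ∀ᶠ n in U, ∀ μ, q n ((pr n P).coeff μ) := by
  refine ((eventually_all_finset P.support).2 fun μ _ => h μ).mono fun n hn μ => ?_
  by_cases hμ : μ ∈ P.support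
  · exact hn μ hμ
  · rw [coeff_map, notMem_support_iff.1 hμ, map_zero]
    exact h0 n

theorem deg_pr (P : MvPolynomial τ (ι → PadicAlgCl p)) (n : ι) :
    (pr n P).totalDegree ≤ P.totalDegree := by
  exact Finset.sup_mono (support_map_subset _ _)

theorem ne_gm (P : MvPolynomial τ (ι → PadicAlgCl p)) (h : ∀ n, pr n P ≠ 0) :
    map (gm U) P ≠ 0 := by
  intro h0
  have h1 := ev_all U P (q := fun _ c => c = 0) (fun _ => rfl) fun μ => by
    have h2 := co_gm U P μ
    rw [h0, coeff_zero, ← map_zero (gm U)] at h2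
    exact (gm_eq U).1 h2.symm
  obtain ⟨n, hn⟩ := h1.exists
  exact h n (MvPolynomial.ext _ _ fun μ => hn μ)

theorem lead_gm {m : ℕ} (P : MvPolynomial (Fin m) (ι → PadicAlgCl p)) (h : map (gm U) P ≠ 0) :
    MonomialOrder.lex.leadingCoeff (map (gm U) P) =
      gm U fun n => MonomialOrder.lex.leadingCoeff (pr n P) := by
  set ν := MonomialOrder.lex.degree (map (gm U) P) with hν
  have h1 : ∀ᶠ n in U, (pr n P).coeff ν ≠ 0 := by
    rw [← gm_ne, ← co_gm]
    exact MonomialOrder.coeff_degree_ne_zero_iff.2 h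
  have h2 : ∀ᶠ n in U, ∀ μ ∈ P.support, MonomialOrder.lex.toSyn ν < MonomialOrder.lex.toSyn μ →
      (pr n P).coeff μ = 0 := by
    refine (eventually_all_finset _).2 fun μ _ => ?_
    by_cases hμ : MonomialOrder.lex.toSyn ν < MonomialOrder.lex.toSyn μ
    · have h3 := co_gm U P μ
      rw [MonomialOrder.coeff_eq_zero_of_lt hμ, ← map_zero (gm U)] at h3
      exact ((gm_eq U).1 h3.symm).mono fun n hn _ => hn
    · exact Eventually.of_forall fun n k => absurd k hμ
  rw [MonomialOrder.leadingCoeff, co_gm, gm_eq]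
  refine (h1.and h2).mono fun n hn => ?_
  have h3 : MonomialOrder.lex.degree (pr n P) = ν := by
    refine MonomialOrder.lex.toSyn.injective (le_antisymm ?_
      (MonomialOrder.le_degree (mem_support_iff.2 hn.1)))
    refine MonomialOrder.degree_le_iff.2 fun μ hμ => not_lt.1 fun k => ?_
    exact mem_support_iff.1 hμ (hn.2 μ (support_map_subset _ _ hμ) k)
  rw [MonomialOrder.leadingCoeff, h3]

end Pool.Agent.Work.MP_dd0d16_nt.T
end

-- merged part: Pool.Agent.Work.MP_dd0d16_nt.D.Germ2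
section
/-!
The hypotheses in the ultrapower.

PLAN. Take representatives (`gm_surj`, `GS_rep`, `gm_mem`, `poly_lift`) and use `vG_le`, `vG_lt`,
`vG_lt_one`, `vG_eq_one`, `vG_le_pow` with the lemmas of D/Pt (`Unr_normal` in S/Disj).
`unf_germ`, `lift`: choose `b n` when `f n ∈ K n` and `‖f n‖ ≤ 1`, else zero. `ram_germ`: `sm_germ`, `norm_p_eq`.
`gau_germ`: `poly_lift`, `ev_all` with `q n c = (c ∈ K n)`, `deg_pr`, `co_gm`, `ev_gm`.
`dif_germ`: choose `Φ n`, `fam_poly` for each `a`; `pderiv_map`; the point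
`fun o => o.elim (s (x a)) x` is `fun o => gm U fun n => o.elim (σ n (z n a)) (z n)` (cases on `o`).
For `NDv`: `poly_lift` for `H a`, `D`; `dEq_map` for `gm U` and for `pr n`; `ev_all` three times;
`(p : GF p U) = gm U fun _ => p`.
-/

set_option autoImplicit false

namespace Pool.Agent.Work.MP_dd0d16_nt.T

open Filter MvPolynomial

variable {p : ℕ} [Fact p.Prime] {ι : Type} {U : Ultrafilter ι} {L : PadicAlgCl p → PadicAlgCl p}
  {σ : ι → PadicAlgCl p ≃ₐ[ℚ_[p]] PadicAlgCl p} {s : GF p U ≃+* GF p U}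
  {K : ι → IntermediateField ℚ_[p] (PadicAlgCl p)} {m : ℕ} {z : ι → Fin m → PadicAlgCl p}

theorem frb_germ (hL : IsLog L) (hσ : ∀ n, Frob (σ n))
    (hs : ∀ f, s (gm U f) = gm U fun n => σ n (f n))
    (hs' : ∀ f, s.symm (gm U f) = gm U fun n => (σ n).symm (f n)) :
    Frb p (vG U) (LG U L) s (GS U fun _ => Unr p) := by
  refine ⟨fun a => ?_, fun a => ?_, fun a => ?_, fun a => ?_, fun a => ?_, fun a => ?_⟩ <;>
    obtain ⟨f, rfl⟩ := gm_surj U a
  · rw [hs]
    exact le_antisymm ((vG_le U _ _).2 (Eventually.of_forall fun n => (norm_aut _ _).le))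
      ((vG_le U _ _).2 (Eventually.of_forall fun n => (norm_aut _ _).ge))
  · intro h
    rw [hs, ← map_pow, ← map_sub, vG_lt_one]
    exact ((vG_le_one U f).1 h).mono fun n hn => hσ n _ hn
  · intro h
    rw [hs, LG_gm, LG_gm, hs, gm_eq]
    exact ((gm_ne U).1 h).mono fun n hn => log_aut hL _ hn
  · rw [hs, gm_mem, gm_mem]
    exact fun h => h.mono fun n hn => Unr_normal _ _ hn
  · rw [hs', gm_mem, gm_mem]
    exact fun h => h.mono fun n hn => Unr_normal _ _ hn
  · intro h1 h2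
    rw [← pow_one (vG U p), vG_le_pow, pow_one]
    exact (((gm_mem U).1 h1).and ((vG_lt_one U f).1 h2)).mono fun n hn => unr_disc hn.1 hn.2

theorem unf_germ (hs : ∀ f, s (gm U f) = gm U fun n => σ n (f n))
    (hs' : ∀ f, s.symm (gm U f) = gm U fun n => (σ n).symm (f n))
    (K : ι → IntermediateField ℚ_[p] (PadicAlgCl p)) :
    Unf (vG U) s (GS U fun _ => Unr p) (GS U K) := by
  refine ⟨fun a => ?_, fun a => ?_, fun a => ?_⟩ <;> obtain ⟨f, rfl⟩ := gm_surj U a
  · rw [hs, gm_mem, gm_mem, gm_mem]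
    exact fun h1 h2 => (h1.and h2).mono fun n hn => unr_stab _ hn.1 hn.2
  · rw [hs', gm_mem, gm_mem, gm_mem]
    exact fun h1 h2 => (h1.and h2).mono fun n hn => unr_stab _ hn.1 hn.2
  · intro h1 h2
    obtain ⟨b, hb⟩ := (((gm_mem U).1 h1).and ((vG_le_one U f).1 h2)).mono
      (fun n hn => unr_lift hn.1 hn.2) |>.choice
    refine ⟨gm U b, (gm_mem U).2 (hb.mono fun n hn => hn.1),
      (gm_mem U).2 (hb.mono fun n hn => hn.2.1), ?_⟩
    rw [← map_sub, vG_lt_one]
    exact hb.mono fun n hn => hn.2.2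

theorem ram_germ {B : ℕ} (h : ∀ n, RamLe (K n) B) : ∀ a ∈ GS U K, vG U a < 1 → Sm (vG U) p a := by
  intro a h1 h2
  obtain ⟨f, hf, rfl⟩ := GS_rep U h1
  exact (sm_germ U f).2 ⟨B, ((vG_lt_one U f).1 h2).mono fun n hn =>
    (h n _ (hf n) hn).trans norm_p_eq.le⟩

theorem gau_germ (h : ∀ D, ∀ᶠ n in U, GenZ (K n) D (z n)) :
    Gau (vG U) (GS U K) fun a => gm U fun n => z n a := by
  intro P hP μ
  obtain ⟨P, rfl⟩ := poly_lift U P
  rw [co_gm, ev_gm, vG_le]
  have h1 := ev_all U P (q := fun n c => c ∈ K n) (fun n => zero_mem _) fun ν => by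
    rw [← gm_mem, ← co_gm]
    exact hP ν
  exact (h1.and (h P.totalDegree)).mono fun n hn => hn.2 _ ⟨hn.1, deg_pr P n⟩ μ

theorem dif_germ (hs : ∀ f, s (gm U f) = gm U fun n => σ n (f n)) {B : ℕ}
    (h : ∀ n, DifEq (σ n) (K n) B (z n)) : ∃ Φ : Fin m → MvPolynomial (Option (Fin m)) (GF p U),
      DifW (vG U) s (GS U fun _ => Unr p) (GS U K) (fun a => gm U fun n => z n a) Φ ∧
        NDv (vG U) p Φ := by
  choose Φ h1 h2 using h
  choose F hF using fun a => fam_poly (fun n => Φ n a) fun n => (h2 n a).2.2.1.2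
  have e1 : ∀ a, (fun o : Option (Fin m) => o.elim (s (gm U fun n => z n a))
      fun a => gm U fun n => z n a) =
      fun o => gm U fun n => (o.elim (σ n (z n a)) (z n) : PadicAlgCl p) := fun a => by
    funext o
    cases o
    · exact hs _
    · rfl
  refine ⟨fun a => map (gm U) (F a), ⟨fun a => ?_, fun a => ?_, fun a μ => ?_, fun a => ?_,
    fun a => ?_⟩, fun H D k1 k2 k3 k4 a μ => ?_⟩
  · exact (gm_mem U).2 (Eventually.of_forall fun n => (h2 n a).1)
  · exact (vG_le_one U _).2 (Eventually.of_forall fun n => (h2 n a).2.1)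
  · rw [co_gm, gm_mem, gm_mem, vG_le_one]
    simp only [hF]
    exact ⟨Eventually.of_forall fun n => ((h2 n a).2.2.1.1 μ).1,
      Eventually.of_forall fun n => ((h2 n a).2.2.1.1 μ).2,
      Eventually.of_forall fun n => (h2 n a).2.2.2.1 μ⟩
  · rw [e1, ev_gm, ← map_zero (gm U), gm_eq]
    simp only [hF]
    exact Eventually.of_forall fun n => (h2 n a).2.2.2.2.1
  · rw [e1, pderiv_map, ev_gm, vG_eq_one]
    simp only [pr, ← pderiv_map, hF]
    exact Eventually.of_forall fun n => (h2 n a).2.2.2.2.2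
  · choose H' hH using fun a => poly_lift U (H a)
    obtain rfl : (fun a => map (gm U) (H' a)) = H := funext hH
    obtain ⟨D, rfl⟩ := poly_lift U D
    obtain ⟨ν, k3⟩ := k3
    simp only [← dEq_map, co_gm, vG_le_one, vG_eq_one] at k1 k2 k3 k4
    have k5 : ∀ a μ, ∀ᶠ n in U, ‖(pr n (dEq p F H' D a)).coeff μ‖ < ‖(p : PadicAlgCl p)‖ :=
      fun a μ => by
        have := k4 a μ
        rw [← map_natCast (gm U), vG_lt] at this
        exact this
    have hp : (0 : ℝ) < ‖(p : PadicAlgCl p)‖ := norm_pos_iff.2 (Nat.cast_ne_zero.2 (NeZero.ne p))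
    rw [co_gm, vG_lt_one]
    filter_upwards [eventually_all.2 fun a => ev_all U (H' a) (q := fun _ c => ‖c‖ ≤ 1)
      (fun _ => by simp) (k1 a), ev_all U D (q := fun _ c => ‖c‖ ≤ 1) (fun _ => by simp) k2, k3,
      eventually_all.2 fun a => ev_all U (dEq p F H' D a)
        (q := fun _ c => ‖c‖ < ‖(p : PadicAlgCl p)‖) (fun _ => by simpa using hp) (k5 a)]
      with n l1 l2 l3 l4
    refine h1 n (fun a => pr n (H' a)) (pr n D) l1 l2 ⟨ν, l3⟩ (fun a μ => ?_) a μ
    have := l4 a μ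
    rw [pr, dEq_map] at this
    simpa only [hF] using this

end Pool.Agent.Work.MP_dd0d16_nt.T
end

-- merged part: Pool.Agent.Work.MP_dd0d16_nt.D.TaF
section
/-!
Independence of the logarithms of prime polynomials.

PLAN. `towerD`: `x n = (s.symm)^[n] ∘ x`; induction on `n` for the statement that there is `Φ n` with
`DifW v s W E (x n) (Φ n)`, `Gau v E (x n)`, and for every `P` with `Cw v W E P` a `P'` with `Cw v W E P'`,
`(s.symm)^[n] (eval x P) = eval (x n) P'` (`DifW.back`, `Gau.back`, `Cw.back`, `map_ev`,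
`Function.iterate_succ_apply'`); monotone by `monotone_nat_of_le_succ`, `DifW.le`; last part by
`log_step` for `a n = (s.symm)^[n] (eval x P)` (`L (a n) = (s.symm)^[n] (L (a 0))`, `Frb.log_symm`).
`taF`: `ta2` with `R n = AR v p (FX E (x n))`, `T0 i = D * T i + t i`, `t n = D * p ^ n` (`LF.nat`,
`not_inf_of_le`, `Res1_int`), `AR.div`, `AR.of_mem`, `Frb.log_le`, then `taF_rel`.
-/

set_option autoImplicit false

namespace Pool.Agent.Work.MP_dd0d16_nt.T

open MvPolynomial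

variable {Ω Γ : Type} [Field Ω] [CharZero Ω] [LinearOrderedCommGroupWithZero Γ]
  {v : Valuation Ω Γ} {L : Ω → Ω} {E W : Subfield Ω} {p m : ℕ} [Fact p.Prime] {s : Ω ≃+* Ω}
  {x : Fin m → Ω} {Φ : Fin m → MvPolynomial (Option (Fin m)) Ω}

omit [CharZero Ω] in
theorem DTaF_val (hs : Frb p v L s W) (a : Ω) (n : ℕ) : v (s.symm^[n] a) = v a := by
  induction n with
  | zero => rfl
  | succ n ih => rw [Function.iterate_succ_apply', hs.val_symm, ih]

omit [CharZero Ω] in
theorem DTaF_log (hs : Frb p v L s W) {a : Ω} (h1 : v a = 1) (n : ℕ) :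
    L (s.symm^[n] a) = s.symm^[n] (L a) := by
  induction n with
  | zero => rfl
  | succ n ih =>
    have h0 : s.symm^[n] a ≠ 0 := fun h0 => by
      have := DTaF_val hs a n
      rw [h0, h1, map_zero] at this
      exact zero_ne_one this
    rw [Function.iterate_succ_apply', Function.iterate_succ_apply', hs.log_symm h0, ih]

omit [CharZero Ω] [Fact p.Prime] in
theorem DTaF_mem (hs : Frb p v L s W) {a : Ω} (ha : a ∈ W) (n : ℕ) : s.symm^[n] a ∈ W := by
  induction n with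
  | zero => exact ha
  | succ n ih =>
    rw [Function.iterate_succ_apply']
    exact hs.bwd _ ih

omit [CharZero Ω] in
theorem DTaF_tow (h1 : v p < 1) (hs : Frb p v L s W) (hE : Unf v s W E) (hx : DifW v s W E x Φ)
    (hG : Gau v E x) (n : ℕ) :
    (∃ Φ', DifW v s W E (fun a => s.symm^[n] (x a)) Φ') ∧ (Gau v E fun a => s.symm^[n] (x a)) ∧
      ∀ P : MvPolynomial (Fin m) Ω, Cw v W E P → ∃ P', Cw v W E P' ∧
        s.symm^[n] (eval x P) = eval (fun a => s.symm^[n] (x a)) P' := by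
  induction n with
  | zero => exact ⟨⟨Φ, hx⟩, hG, fun P hP => ⟨P, hP, rfl⟩⟩
  | succ n ih =>
    obtain ⟨⟨Φ', k1⟩, k2, k3⟩ := ih
    simp only [Function.iterate_succ_apply']
    refine ⟨⟨_, k1.back hs hE⟩, k2.back h1 hs k1.int, fun P hP => ?_⟩
    obtain ⟨P', k4, k5⟩ := k3 P hP
    refine ⟨_, k4.back hs hE, ?_⟩
    rw [k5]
    exact map_ev (s.symm : Ω →+* Ω) _ P'

theorem towerD (h : LF p v L E) (hT : Tail p v L) (hs : Frb p v L s W) (hE : Unf v s W E)
    (hx : DifW v s W E x Φ) (hG : Gau v E x) :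
    (∀ n, Gau v E fun a => s.symm^[n] (x a)) ∧
    (Monotone fun n => AR v p (FX E fun a => s.symm^[n] (x a))) ∧
    ∀ P : MvPolynomial (Fin m) Ω, Cw v W E P → v (eval x P) = 1 → ∀ n,
      L (eval x P) - p ^ n * s.symm^[n] (L (eval x P)) ∈
        AR v p (FX E fun a => s.symm^[n] (x a)) := by
  have hm : Monotone fun n => AR v p (FX E fun a => s.symm^[n] (x a)) := by
    refine monotone_nat_of_le_succ fun n => ?_
    obtain ⟨⟨Φ', k1⟩, k2, -⟩ := DTaF_tow h.p1 hs hE hx hG n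
    simp only [Function.iterate_succ_apply']
    exact k1.le h.p1 hs hE k2
  refine ⟨fun n => (DTaF_tow h.p1 hs hE hx hG n).2.1, hm, fun P hP h1 n => ?_⟩
  have hW : eval x P ∈ W := ev_mem W.toSubring hx.mem fun μ => (hP μ).2.1
  have hA : ∀ n, s.symm^[n] (eval x P) ∈ AR v p (FX E fun a => s.symm^[n] (x a)) := fun n => by
    refine AR.of_mem ?_ ((DTaF_val hs _ n).trans h1).le
    obtain ⟨P', k4, k5⟩ := (DTaF_tow h.p1 hs hE hx hG n).2.2 P hP
    rw [k5]
    exact ev_FX _ fun μ => (k4 μ).1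
  induction n with
  | zero => simp
  | succ n ih =>
    have k1 := log_step h hT hs (DTaF_mem hs hW n) ((DTaF_val hs _ n).trans h1)
      (hm n.le_succ (hA n)) (by rw [← Function.iterate_succ_apply' s.symm]; exact hA (n + 1))
    rw [DTaF_log hs h1, ← Function.iterate_succ_apply' s.symm] at k1
    convert add_mem (hm n.le_succ ih) (mul_mem (pow_mem (natCast_mem _ p) n) k1) using 1
    ring

theorem taF (h : LF p v L E) (hW : LF p v L W) (hT : Tail p v L) (hs : Frb p v L s W)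
    (hE : Unf v s W E) (hx : DifW v s W E x Φ) (hG : Gau v E x) (hN : NDv v p Φ) {Q : Type}
    [Fintype Q] (P : Q → MvPolynomial (Fin m) Ω) (hP : ∀ i, Cw v W E (P i) ∧ v (eval x (P i)) = 1)
    (hind : ∀ c : Q → ℕ, (∀ i, c i < p) → c ≠ 0 →
      ∃ a, ¬ v (∑ i, c i * (eval x (pderiv a (P i)) / eval x (P i))) < 1) :
    (∀ i, v (L (eval x (P i))) ≤ 1) ∧ TA v p E (AR v p (FX E x)) fun i => L (eval x (P i)) := by
  obtain ⟨k1, k2, k3⟩ := towerD h hT hs hE hx hG
  have hL : ∀ i, v (L (eval x (P i))) ≤ v p := fun i =>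
    hs.log_le hW hT (ev_mem W.toSubring hx.mem fun μ => ((hP i).1 μ).2.1) (hP i).2
  refine ⟨fun i => (hL i).trans h.p1.le, fun τ _ y D t hD hy ht hs' => ?_⟩
  by_contra hn
  obtain ⟨c, hc⟩ := h.nat D.natAbs (Int.natAbs_ne_zero.2 hD)
  have hD' : v (D.natAbs : Ω) = v (D : Ω) := by
    rw [← Int.cast_natCast]
    rcases Int.natAbs_eq D with e | e
    · rw [← e]
    · conv_rhs => rw [e, Int.cast_neg, Valuation.map_neg]
  obtain ⟨g, i0, n0, hg, hn0⟩ := ta2 h (fun n => AR v p (FX E fun a => s.symm^[n] (x a))) k2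
    (fun a ha h1 => AR.of_mem (Subfield.subset_closure (Or.inl ha)) h1) (fun n a ha => ha.1)
    (fun n a ha b hb => AR.div ha hb) hy hs' (fun i => D * L (eval x (P i)) + t i)
    (fun i n => s.symm^[n] (L (eval x (P i)))) (fun n => D * p ^ n)
    (fun n => ⟨mul_mem (intCast_mem _ D) (pow_mem (natCast_mem _ p) n), by
      rw [map_mul, map_pow]
      exact mul_le_of_le_one_left' (Res1_int D), not_inf_of_le h.p0 h.p1 (c := c + n) (by
      rw [map_mul, map_pow, pow_add, ← hD']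
      exact mul_le_mul_left hc _)⟩)
    (fun i n => (DTaF_val hs _ n).trans_le (hL i))
    (fun i n => by
      convert add_mem (mul_mem (intCast_mem _ D) (k3 (P i) (hP i).1 (hP i).2 n))
        (k2 (Nat.zero_le n) (ht i)) using 1
      ring) hn
  exact taF_rel h hW hT hs hE hx hG hN k1 P hP hind g hg n0 hn0

end Pool.Agent.Work.MP_dd0d16_nt.T
end

-- merged part: Pool.Agent.Work.MP_dd0d16_nt.D.DichD
section
/-!
The dichotomy for solutions of Frobenius difference equations.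

PLAN. `leadD`: lift `f i` to `MvPolynomial (Fin m) E` (`AxCore_lift E.toSubring`), then `Lead_R_mem`,
`Lead_R_prod`, `Lead_R_zpow` as in `lead` (S/Lead) with `Q = 1`; the leading coefficient of the image
under the injective map is the image of the leading coefficient (`MonomialOrder.degree`,
`support_map_of_injective`, `coeff_map`).
-/

set_option autoImplicit false

namespace Pool.Agent.Work.MP_dd0d16_nt.T

open MvPolynomial

variable {Ω Γ : Type} [Field Ω] [CharZero Ω] [LinearOrderedCommGroupWithZero Γ]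
  {v : Valuation Ω Γ} {L : Ω → Ω} {E E2 W : Subfield Ω} {p m : ℕ} [Fact p.Prime] {s : Ω ≃+* Ω}
  {x : Fin m → Ω} {Φ : Fin m → MvPolynomial (Option (Fin m)) Ω}

theorem dichD (h : LF p v L E) (hW : LF p v L W) (hT : Tail p v L) (hs : Frb p v L s W)
    (hE : Unf v s W E) (hx : DifW v s W E x Φ) (hG : Gau v E x) (hN : NDv v p Φ) (h2 : E2 ≤ E)
    (hE2 : Unf v s W E2) (hr : ∀ a ∈ E2, v a < 1 → Sm v p a) {I : Type} [Fintype I]
    (f : I → MvPolynomial (Fin m) Ω) (hf : ∀ j, f j ≠ 0 ∧ ∀ μ, (f j).coeff μ ∈ E2) :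
    Dic0 L E x fun j => eval x (f j) := by
  obtain ⟨Q, _, P, o, κ, u, h3, h4, h5⟩ := fac (W := W) h.p1 hx.int (hG.mono h2) (fun a ha h1 => by
    obtain ⟨b, b1, b2, b3⟩ := hE2.lift a ha h1
    have b4 : v b ≤ 1 := by
      have := v.map_sub_le h1 b3.le
      rwa [sub_sub_cancel] at this
    have b5 : v (s.symm b) ≤ 1 := (hs.val_symm b).trans_le b4
    refine ⟨s.symm b, hE2.bwd b b1 b2, hs.bwd b b2, b5, ?_⟩
    have b6 := hs.frob _ b5
    rw [s.apply_symm_apply] at b6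
    have := v.map_add_lt b3 b6
    rwa [sub_add_sub_cancel] at this) hr f hf
  have h6 : ∀ i, Cw v W E (P i) := fun i μ => ⟨h2 ((h3 i).1 μ).1, ((h3 i).1 μ).2⟩
  obtain ⟨h7, h8⟩ := taF h hW hT hs hE hx hG hN P (fun i => ⟨h6 i, (h3 i).2⟩) h5
  exact stepD h hT x hx.int hG.ssi (fun i => eval x (P i))
    (fun i => ⟨fun e => by simpa [e] using (h3 i).2, ev_FX x fun μ => (h6 i μ).1, h7 i⟩) h8 _ u κ o
    (fun k => ⟨h2 (h4 k).1, (h4 k).2⟩) fun k => ev_FX x fun μ => h2 ((hf k).2 μ)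

omit [Fact p.Prime] in
theorem leadD (hL : ∀ a b, a ≠ 0 → b ≠ 0 → L (a * b) = L a + L b)
    (hi : AlgebraicIndependent E x) {I : Type} [Fintype I] (f : I → MvPolynomial (Fin m) Ω)
    (hf : ∀ j, f j ≠ 0 ∧ ∀ μ, (f j).coeff μ ∈ E) (r : I → ℤ) (h : ∏ i, eval x (f i) ^ r i ∈ E) :
    ∑ i, r i * (L (eval x (f i)) - L (MonomialOrder.lex.leadingCoeff (f i))) = 0 := by
  have k : ∀ i, ∃ P : MvPolynomial (Fin m) E, map E.subtype P = f i := fun i =>
    mem_range_map_iff_coeffs_subset.2 fun c hc => by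
      obtain ⟨μ, -, rfl⟩ := mem_coeffs_iff.1 hc
      exact ⟨⟨_, (hf i).2 μ⟩, rfl⟩
  choose P hP using k
  refine Lead_R_mem hL hi (Lead_R_prod hL Finset.univ fun i => Lead_R_zpow hL ?_ (r i)) h
  have h0 : P i ≠ 0 := fun e => (hf i).1 (by rw [← hP, e, map_zero])
  have h1 : eval x (f i) = aeval x (P i) := by
    rw [← hP, eval_map]
    rfl
  have h2 : MonomialOrder.lex.leadingCoeff (f i) = (Lead_lc E (P i) : E) := by
    rw [← hP, MonomialOrder.leadingCoeff, coeff_map, MonomialOrder.degree,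
      support_map_of_injective _ E.subtype.injective]
    rfl
  refine ⟨fun e => h0 (hi (by rw [← h1, e, map_zero])), P i, 1, h0, one_ne_zero, ?_, ?_⟩
  · rw [map_one, mul_one, h1]
  · rw [h2, map_one, OneMemClass.coe_one, Lead_one hL, add_zero]

end Pool.Agent.Work.MP_dd0d16_nt.T
end

-- merged part: Pool.Agent.Work.MP_dd0d16_nt.D.SeqD
section
/-!
The determinant along an ultrafilter and the compactness argument.

PLAN. `seqD`: copy the second half of `seq3` (G/Seq3). `x a = gm U (z · a)` is independent over `GS U K`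
(`hd Empty`). `lc n k = leadingCoeff (pr n (f k)) ∈ K n` is nonzero (it is a coefficient;
`MonomialOrder.leadingCoeff_ne_zero_iff`); `lead_gm`, `ne_gm`, `leadD`, `ev_gm`, `LG_gm`. `E'` from
`exists_up (GS U K) x`. The class of a family with `AlgZ` lies in `E'`: choose `g n i`, `Seq2_root` for
`fun n i => eval (z n) (g n i)`; by `fam_poly`, `ev_gm`, `ev_mem E'.toSubring`, `co_gm`, `gm_mem` these
classes lie in `E'`. Then `elim2` (`log_mem` for `L (lc n k)`), `dep_or_zero'` as in `seq3`.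
-/

set_option autoImplicit false

namespace Pool.Agent.Work.MP_dd0d16_nt.T

open Filter MvPolynomial

variable {p : ℕ} [Fact p.Prime] {ι : Type} {L : PadicAlgCl p → PadicAlgCl p}

theorem DSeqD_alg {U : Ultrafilter ι} {m B0 : ℕ} {K : ι → IntermediateField ℚ_[p] (PadicAlgCl p)}
    {z : ι → Fin m → PadicAlgCl p} {E' : Subfield (GF p U)} (h1 : GS U K ≤ E')
    (h2 : ∀ a, (gm U fun n => z n a) ∈ E')
    (h3 : ∀ (n : ℕ) (f : Fin (n + 1) → GF p U) (a : GF p U), f ≠ 0 → (∀ i, f i ∈ E') →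
      ∑ i, f i * a ^ (i : ℕ) = 0 → a ∈ E')
    {a : ι → PadicAlgCl p} (ha : ∀ n, AlgZ (K n) B0 (z n) (a n)) : gm U a ∈ E' := by
  choose g hg h0 hz using ha
  refine Seq2_root h3 (fun n i => eval (z n) (g n i)) a (fun n => Function.ne_iff.2 (h0 n)) hz
    fun i => ?_
  obtain ⟨P, hP⟩ := fam_poly (fun n => g n i) fun n => (hg n i).2
  have e : (gm U fun n => eval (z n) (g n i)) =
      eval (fun a => gm U fun n => z n a) (map (gm U) P) := by
    simp only [ev_gm, hP]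
  rw [e]
  refine ev_mem E'.toSubring h2 fun μ => h1 ?_
  rw [co_gm, gm_mem]
  exact Eventually.of_forall fun n => hP n ▸ (hg n i).1 μ

theorem seqD (hL : IsLog L) (U : Ultrafilter ι) {m : ℕ} {I : Type} [Fintype I]
    (K : ι → IntermediateField ℚ_[p] (PadicAlgCl p)) (z : ι → Fin m → PadicAlgCl p) (B0 : ℕ)
    (f : I → MvPolynomial (Fin m) (ι → PadicAlgCl p)) (hf : ∀ n k, pr n (f k) ≠ 0)
    (hfK : ∀ n k μ, (pr n (f k)).coeff μ ∈ K n)
    (hd : Dic0 (LG U L) (GS U K) (fun a => gm U fun n => z n a)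
      fun k => eval (fun a => gm U fun n => z n a) (map (gm U) (f k)))
    (A : ι → Fin 2 → Fin 2 → PadicAlgCl p) (B : ι → Fin 2 → Fin 2 → I → PadicAlgCl p)
    (hA : ∀ n i i', IsAlgebraic ℚ (A n i i') ∧ AlgZ (K n) B0 (z n) (A n i i'))
    (hB : ∀ n i i' k, IsAlgebraic ℚ (B n i i' k) ∧ AlgZ (K n) B0 (z n) (B n i i' k))
    (M : ι → Fin 2 → Fin 2 → PadicAlgCl p)
    (hM : ∀ n i i', M n i i' = A n i i' + ∑ k, B n i i' k * L (eval (z n) (pr n (f k))))
    (hdet : ∀ n, M n 0 0 * M n 1 1 = M n 0 1 * M n 1 0) :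
    ∀ᶠ n in U, Dep (M n) ∨ ∀ i i', M n i i' ∈ Submodule.span
      (algebraicClosure ℚ (PadicAlgCl p))
      (insert 1 (Set.range fun k => L (MonomialOrder.lex.leadingCoeff (pr n (f k))))) := by
  classical
  have hX : AlgebraicIndependent (GS U K) fun a => gm U fun n => z n a := by
    rcases hd Empty Empty.elim with ⟨r, hr, -⟩ | h
    · exact absurd (Subsingleton.elim _ _) hr
    · exact h.comp Sum.inl Sum.inl_injective
  let lc : ι → I → PadicAlgCl p := fun n k => MonomialOrder.lex.leadingCoeff (pr n (f k))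
  have hlc0 : ∀ n k, lc n k ≠ 0 := fun n k => MonomialOrder.leadingCoeff_ne_zero_iff.2 (hf n k)
  have hlcK : ∀ n k, lc n k ∈ K n := fun n k => hfK n k _
  have hF : ∀ k, map (gm U) (f k) ≠ 0 ∧ ∀ μ, (map (gm U) (f k)).coeff μ ∈ GS U K := fun k =>
    ⟨ne_gm U _ fun n => hf n k, fun μ => by
      rw [co_gm, gm_mem]
      exact Eventually.of_forall fun n => hfK n k μ⟩
  obtain ⟨E', hE1, hE2, hE3, hE4⟩ := exists_up (GS U K) fun a => gm U fun n => z n a
  obtain ⟨S, q, hq, hY⟩ := elim2 E' (fun k => gm U fun n => L (eval (z n) (pr n (f k))))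
    (fun k => gm U fun n => L (lc n k))
    (fun k => hE1 ((gm_mem U).2 (Eventually.of_forall fun n =>
      log_mem hL (K n) (hlcK n k) (hlc0 n k))))
    (fun I' _ ε => (hd I' ε).imp (fun ⟨r, h1, h2⟩ => ⟨r, h1, by
      have h3 := leadD (lf_germ U hL K).mul hX (fun i => map (gm U) (f (ε i)))
        (fun i => hF (ε i)) r h2
      simpa only [ev_gm, lead_gm U _ (hF _).1, LG_gm] using h3⟩) fun h => by
      simp only [ev_gm, LG_gm] at h
      exact hE4 I' _ h)
    (fun i j => gm U fun n => A n i j) (fun i j k => gm U fun n => B n i j k)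
    (fun i j => DSeqD_alg hE1 hE2 hE3 fun n => (hA n i j).2)
    (fun i j k => DSeqD_alg hE1 hE2 hE3 fun n => (hB n i j k).2) (by
      simp only [← Seq2_mul, ← Seq2_sum, ← Seq2_add, ← hM, hdet])
  let W : ι → I → PadicAlgCl p := fun n k => L (eval (z n) (pr n (f k))) - L (lc n k)
  let A1 : ι → Fin 2 → Fin 2 → PadicAlgCl p := fun n i j => A n i j + ∑ k, B n i j k * L (lc n k)
  let B1 : ι → Fin 2 → Fin 2 → S → PadicAlgCl p := fun n i j l => ∑ k, q k l * B n i j k
  have hq' : ∀ᶠ n in U, ∀ k, W n k = ∑ l : S, q k l * W n l := eventually_all.2 fun k =>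
    (gm_eq U).1 (by simpa only [W, Seq2_sum, Seq2_mul, Seq2_sub, Seq2_rat] using hq k)
  have hY' : ∀ y : ι → S → PadicAlgCl p, ∀ᶠ n in U,
      (A1 n 0 0 + ∑ l, B1 n 0 0 l * y n l) * (A1 n 1 1 + ∑ l, B1 n 1 1 l * y n l) =
      (A1 n 0 1 + ∑ l, B1 n 0 1 l * y n l) * (A1 n 1 0 + ∑ l, B1 n 1 0 l * y n l) := fun y => by
    have h1 := hY (fun l => gm U fun n => y n l)
      (fun i j => gm U fun n => A1 n i j + ∑ l, B1 n i j l * y n l) fun i j => by
        simp only [A1, B1, Seq2_add, Seq2_sum, Seq2_mul, Seq2_rat]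
    simp only [← Seq2_mul] at h1
    exact (gm_eq U).1 h1
  filter_upwards [hq', eventually_all.2 fun y : S × Bool =>
    hY' fun n => (fun l : S => W n l) + Pi.single y.1 (if y.2 then 1 else -1)] with n h3 h4
  have e1 : ∀ i j, M n i j = A1 n i j + ∑ l, B1 n i j l * W n l := fun i j => by
    have e2 : ∑ l, B1 n i j l * W n l = ∑ k, B n i j k * W n k := by
      simp only [B1, Finset.sum_mul]
      rw [Finset.sum_comm]
      refine Finset.sum_congr rfl fun k _ => ?_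
      rw [h3 k, Finset.mul_sum]
      exact Finset.sum_congr rfl fun l _ => by ring
    rw [e2, hM]
    simp only [A1, W, mul_sub, Finset.sum_sub_distrib]
    ring
  refine (dep_or_zero' (A1 n) (B1 n) (fun i j l => ?_) (fun l => W n l) (by
    simp only [← e1, hdet]) fun l0 b y hy => hy ▸ h4 (l0, b)).imp (fun h => ?_) fun h i j => ?_
  · exact mem_algebraicClosure_iff.1 (sum_mem fun k _ => mul_mem
      (SubfieldClass.ratCast_mem _ _) (mem_algebraicClosure_iff.2 (hB n i j k).1))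
  · simpa only [← e1] using h
  · rw [e1, Finset.sum_eq_zero fun l _ => by rw [h i j l, zero_mul], add_zero]
    refine add_mem ?_ (sum_mem fun k _ => Submodule.smul_mem _
      (⟨_, mem_algebraicClosure_iff.2 (hB n i j k).1⟩ : algebraicClosure ℚ (PadicAlgCl p))
      (Submodule.subset_span (Set.mem_insert_of_mem _ ⟨k, rfl⟩)))
    rw [← mul_one (A n i j)]
    exact Submodule.smul_mem _
      (⟨_, mem_algebraicClosure_iff.2 (hA n i j).1⟩ : algebraicClosure ℚ (PadicAlgCl p))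
      (Submodule.subset_span (Set.mem_insert _ _))

theorem finalD (hL : IsLog L) (m n B : ℕ) :
    ∃ N : ℕ, ∀ (σ : PadicAlgCl p ≃ₐ[ℚ_[p]] PadicAlgCl p)
      (K2 K : IntermediateField ℚ_[p] (PadicAlgCl p)) (z : Fin m → PadicAlgCl p)
      (f : Fin n → MvPolynomial (Fin m) (PadicAlgCl p)) (a : Fin 2 → Fin 2 → PadicAlgCl p)
      (c : Fin 2 → Fin 2 → Fin n → PadicAlgCl p), Frob σ → K2 ≤ K → RamLe K2 B →
      DifEq σ K B z → GenZ K N z → (∀ k, f k ≠ 0 ∧ PolK K2 B (f k)) →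
      (∀ i j, IsAlgebraic ℚ (a i j) ∧ AlgZ K B z (a i j)) →
      (∀ i j k, IsAlgebraic ℚ (c i j k) ∧ AlgZ K B z (c i j k)) →
      FourExp (Matrix.of fun i j => a i j + ∑ k, c i j k * L (eval z (f k))) ∨
        ∀ i j, a i j + ∑ k, c i j k * L (eval z (f k)) ∈
          Submodule.span (algebraicClosure ℚ (PadicAlgCl p))
            (insert 1 (Set.range fun k => L (MonomialOrder.lex.leadingCoeff (f k)))) := by
  classical
  by_contra hh
  simp only [not_exists, not_forall, not_or] at hh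
  choose σ K2 K z f a c hσ h2 hr hz hg hf ha hc h1 h3 using hh
  let U : Ultrafilter ℕ := Ultrafilter.of atTop
  choose F hF using fun k => fam_poly (fun n => f n k) fun n => (hf n k).2.2
  obtain ⟨s, hs, hs'⟩ := exists_aut U σ
  obtain ⟨Φ, h4, h5⟩ := dif_germ hs hz
  have h6 := dichD (lf_germ U hL K) (lf_germ U hL _) (tail_germ U hL) (frb_germ hL hσ hs hs')
    (unf_germ hs hs' K) h4 (gau_germ fun D => ((eventually_ge_atTop D).filter_mono
      (Ultrafilter.of_le atTop)).mono fun n hn P hP => hg n P ⟨hP.1, hP.2.trans hn⟩) h5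
    (GS_mono U (Eventually.of_forall h2)) (unf_germ hs hs' K2) (ram_germ hr)
    (fun k => map (gm U) (F k)) fun k => ⟨ne_gm U _ fun n => hF k n ▸ (hf n k).1, fun μ => by
      rw [co_gm, gm_mem]
      exact Eventually.of_forall fun n => hF k n ▸ (hf n k).2.1 μ⟩
  obtain ⟨N, h7⟩ := (seqD hL U K z B F (fun n k => hF k n ▸ (hf n k).1)
    (fun n k μ => hF k n ▸ h2 n ((hf n k).2.1 μ)) h6 a c ha hc
    (fun n i j => a n i j + ∑ k, c n i j k * L (eval (z n) (f n k)))
    (fun n i j => by simp only [hF]) fun n => det_of_not (h1 n)).exists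
  rcases h7 with h7 | h7
  · exact h1 N (fourExp_of_dep h7)
  · obtain ⟨i, j, h8⟩ := h3 N
    exact h8 (by simpa only [hF] using h7 i j)

end Pool.Agent.Work.MP_dd0d16_nt.T
end
end

-- merged part: Pool.Agent.Work.MP_dd0d16_nt.E.TaE
section
-- merged part: Pool.Agent.Work.MP_dd0d16_nt.E.K2
section
/-!
The contradiction in the residue field.

PLAN. `moore_q`: copy `moore_vec` (D/CharP) with `p ^ e` in place of `p`. `ind_alg`: `k'` is the relative
algebraic closure of `k` (`algebraicClosure k κ` as a subfield), `Idp.alg`. For each `a` the polynomial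
`∑ i, C (c i) * G i a`, `G i a = pderiv a (π i) * ∏ j ∈ univ.erase i, π j`, vanishes at `t`, so it is zero.
For a `k`-linear `l : κ → k` apply `l` to its coefficients: `c' i = l (c i)` satisfies the same equations, so
`l (c i) = 0` for all `l` (`Module.forall_dual_apply_eq_zero_iff`).
`odd_deg`: `FX_frac`, `Idp`, total degrees (`totalDegree_mul_of_isDomain`, the cubic in `X i` has total
degree three), `p = 2 * h + 1`: `3 h + 2 h u = 2 h w`.
`ell_main`: case `e ≥ 2`: `∑ i, ρ i * H i n a = 0`; `H i n a ^ q ^ n = γ n a * H i 0 a` with `γ n a ≠ 0`;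
`moore_q`, `ind_alg` (`c ^ q = c` is algebraic). Case `e = 1`: `H' i n a = y n a * H i n a` has
`H' (n + 1) ^ p = A * H' n`, `A ≠ 0`, and `s a = ∑ i, ρ i * H' i n a` does not depend on `n ≥ n0`. In
`AlgebraicClosure κ` take `β` with `β ^ (p - 1) * A = 1`; `(β * H' n) ^ p ^ n = β * H' 0`; `moore_vec` with
the index `Q ⊕ Fin m`, the vector `Sum.elim ρ (β * s)` and `H (inr b) a = - (if a = b then 1 else 0)` gives
`β * y 0 a * h a = c' a`, `h a = ∑ i, c i * H i 0 a`, `c ≠ 0`. If `c' a ≠ 0` then `(y 0 a * h a) ^ (p - 1) = A`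
(`ZMod.pow_card_sub_one_eq_one`-type fact), against `odd_deg`; so `h = 0`, against `hind`.
If `m = 0` then `hind` gives `Q` empty.
-/

set_option autoImplicit false

namespace Pool.Agent.Work.MP_dd0d16_nt.T

open MvPolynomial

variable {p : ℕ} [Fact p.Prime] {κ : Type} [Field κ] [CharP κ p] {k k2 : Subfield κ} {m : ℕ}
  {Q : Type} [Fintype Q]

/-- Polynomials with coefficients in `k`. -/
def EK2_S (k : Subfield κ) (σ : Type) : Subring (MvPolynomial σ κ) where
  carrier := {P | ∀ μ, P.coeff μ ∈ k}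
  mul_mem' := fun hP hQ => DCharP_mul hP hQ
  one_mem' := DCharP_C (one_mem k)
  add_mem' := fun hP hQ => DCharP_add hP hQ
  zero_mem' := fun _ => zero_mem k
  neg_mem' := fun {P} hP μ => by
    rw [coeff_neg]
    exact neg_mem (hP μ)

theorem EK2_X (k : Subfield κ) {σ : Type} (a : σ) : X a ∈ EK2_S k σ := fun μ => by
  classical
  rw [coeff_X]
  split_ifs
  exacts [one_mem _, zero_mem _]

theorem EK2_pd {σ : Type} {P : MvPolynomial σ κ} (hP : P ∈ EK2_S k σ) (a : σ) :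
    pderiv a P ∈ EK2_S k σ := fun μ => by
  rw [coeff_pderiv]
  exact mul_mem (hP _) (add_mem (natCast_mem k _) (one_mem k))

theorem EK2_fix {R : Type} [Monoid R] {y : R} {q : ℕ} (h : y ^ q = y) (n : ℕ) :
    y ^ q ^ n = y := by
  induction n with
  | zero => simp
  | succ n ih => rw [pow_succ, pow_mul, ih, h]

theorem moore_q {σ : Type} (e : ℕ) (ρ : Q → κ) (H : Q → σ → κ) (hρ : ρ ≠ 0) (n0 : ℕ)
    (h : ∀ n, n0 ≤ n → ∀ a, ∑ i, ρ i ^ (p ^ e) ^ n * H i a = 0) :
    ∃ c : Q → κ, c ≠ 0 ∧ (∀ i, c i ^ p ^ e = c i) ∧ ∀ a, ∑ i, c i * H i a = 0 := by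
  classical
  induction hN : (Finset.univ.filter fun i => ρ i ≠ 0).card using Nat.strong_induction_on
    generalizing ρ with
  | _ N ih =>
    obtain ⟨i0, h0⟩ := Function.ne_iff.1 hρ
    have h0 : ρ i0 ≠ 0 := h0
    have h1 : ∀ n, n0 ≤ n → ∀ a, ∑ i, (ρ i / ρ i0) ^ (p ^ e) ^ n * H i a = 0 := fun n hn a => by
      simp only [div_pow, div_mul_eq_mul_div, ← Finset.sum_div, h n hn, zero_div]
    by_cases h2 : (fun i => (ρ i / ρ i0) ^ p ^ e - ρ i / ρ i0) = 0
    · have h3 : ∀ i, (ρ i / ρ i0) ^ p ^ e = ρ i / ρ i0 := fun i => sub_eq_zero.1 (congrFun h2 i)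
      refine ⟨fun i => ρ i / ρ i0, fun h6 => ?_, h3, fun a => ?_⟩
      · have := congrFun h6 i0
        simp [h0] at this
      · rw [← h1 n0 le_rfl a]
        exact Finset.sum_congr rfl fun i _ => by rw [EK2_fix (h3 i)]
    · refine ih _ ?_ _ h2 (fun n hn a => ?_) rfl
      · rw [← hN]
        refine Finset.card_lt_card ⟨fun i hi => ?_, fun hs => ?_⟩
        · simp only [Finset.mem_filter, Finset.mem_univ, true_and] at hi ⊢
          exact fun h3 => hi (by simp [h3, (Fact.out : p.Prime).ne_zero])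
        · have := hs (Finset.mem_filter.2 ⟨Finset.mem_univ i0, h0⟩)
          simp [div_self h0] at this
      · have e1 : ∀ i, ((ρ i / ρ i0) ^ p ^ e - ρ i / ρ i0) ^ (p ^ e) ^ n =
            (ρ i / ρ i0) ^ (p ^ e) ^ (n + 1) - (ρ i / ρ i0) ^ (p ^ e) ^ n := fun i => by
          rw [pow_succ' (p ^ e), pow_mul (ρ i / ρ i0), ← pow_mul p e n, sub_pow_char_pow]
        simp only [e1, sub_mul, Finset.sum_sub_distrib, h1 n hn, h1 (n + 1) (hn.trans n.le_succ),
          sub_zero]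

omit [Fact p.Prime] [CharP κ p] in
theorem ind_alg {t : Fin m → κ} (hi : Idp k t) {π : Q → MvPolynomial (Fin m) κ}
    (hπ : ∀ i, (∀ μ, (π i).coeff μ ∈ k) ∧ eval t (π i) ≠ 0)
    (hind : ∀ c : Q → κ, (∀ i, c i ∈ k) →
      (∀ a, ∑ i, c i * (eval t (pderiv a (π i)) / eval t (π i)) = 0) → c = 0)
    (c : Q → κ) (hc : ∀ i, IsAlgebraic k (c i))
    (h : ∀ a, ∑ i, c i * (eval t (pderiv a (π i)) / eval t (π i)) = 0) : c = 0 := by
  classical
  let k' : Subfield κ := (algebraicClosure k κ).toSubfield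
  have hk : k ≤ k' := fun x hx => (algebraicClosure k κ).algebraMap_mem ⟨x, hx⟩
  have hi' : Idp k' t := hi.alg hk fun x hx => (mem_algebraicClosure_iff).1 hx
  let G : Q → Fin m → MvPolynomial (Fin m) κ :=
    fun i a => pderiv a (π i) * ∏ j ∈ Finset.univ.erase i, π j
  have hG : ∀ i a, G i a ∈ EK2_S k (Fin m) := fun i a =>
    mul_mem (EK2_pd (hπ i).1 a) (prod_mem fun j _ => (hπ j).1)
  have hP : ∏ j, eval t (π j) ≠ 0 := Finset.prod_ne_zero_iff.2 fun j _ => (hπ j).2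
  have hev : ∀ (c' : Q → κ) a, eval t (∑ i, C (c' i) * G i a) =
      (∑ i, c' i * (eval t (pderiv a (π i)) / eval t (π i))) * ∏ j, eval t (π j) := by
    intro c' a
    rw [map_sum, Finset.sum_mul]
    refine Finset.sum_congr rfl fun i _ => ?_
    have := (hπ i).2
    rw [← Finset.mul_prod_erase _ _ (Finset.mem_univ i)]
    simp only [G, map_mul, eval_C, map_prod]
    field_simp
  have h0 : ∀ a, ∑ i, C (c i) * G i a = 0 := fun a => by
    refine hi' _ ?_ (by rw [hev, h, zero_mul])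
    have : ∑ i, C (c i) * G i a ∈ EK2_S k' (Fin m) := sum_mem fun i _ =>
      mul_mem (DCharP_C ((mem_algebraicClosure_iff).2 (hc i))) fun μ => hk (hG i a μ)
    exact this
  funext i
  refine (Module.forall_dual_apply_eq_zero_iff k (c i)).1 fun l => ?_
  have := hind (fun j => (l (c j) : κ)) (fun j => (l (c j)).2) fun a => by
    refine mul_right_cancel₀ hP ?_
    rw [← hev, zero_mul]
    have e1 : ∑ j, C (l (c j) : κ) * G j a = 0 := by
      ext μ
      have e2 := congrArg (fun P => l (coeff μ P)) (h0 a)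
      simp only [coeff_sum, coeff_C_mul, coeff_zero, map_zero, map_sum] at e2 ⊢
      rw [← k.coe_zero, ← e2, AddSubmonoidClass.coe_finsetSum]
      refine Finset.sum_congr rfl fun j _ => ?_
      have e3 : c j * coeff μ (G j a) = (⟨_, hG j a μ⟩ : k) • c j := mul_comm _ _
      rw [e3, map_smul, smul_eq_mul, mul_comm]
      rfl
    rw [e1, map_zero]
  exact Subtype.ext (congrFun this i)

omit [CharP κ p] in
theorem odd_deg (hp : p ≠ 2) {t : Fin m → κ} (hi : Idp k t) {a b c A z : κ} (ha : a ∈ k)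
    (hb : b ∈ k) (hc : c ∈ k) (hA : A ∈ k) (h0 : A ≠ 0) (hz : z ∈ FX k t) (i : Fin m) :
    cu a b c (t i) ^ (p / 2) * z ^ (p - 1) ≠ A := by
  intro e
  have hpp : p.Prime := Fact.out
  obtain ⟨h, hh⟩ := hpp.odd_of_ne_two hp
  have h1 : 1 ≤ h := by
    have := hpp.two_le
    omega
  have e1 : p / 2 = h := by omega
  have e2 : p - 1 = 2 * h := by omega
  rw [e1, e2] at e
  obtain ⟨P, H, hP, hH, hH0, he⟩ := FX_frac t hz
  let U : MvPolynomial (Fin m) κ := cu (C a) (C b) (C c) (X i)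
  have hU : U ∈ EK2_S k (Fin m) := add_mem (add_mem (add_mem (pow_mem (EK2_X k i) 3)
    (mul_mem (DCharP_C ha) (pow_mem (EK2_X k i) 2))) (mul_mem (DCharP_C hb) (EK2_X k i)))
    (DCharP_C hc)
  have hd : degreeOf i U = 3 := by
    have d3 : degreeOf i (X i ^ 3 : MvPolynomial (Fin m) κ) = 3 := by
      rw [degreeOf_pow_eq _ _ _ (X_ne_zero i), degreeOf_X_self]
    have d2 : degreeOf i (C a * X i ^ 2 : MvPolynomial (Fin m) κ) ≤ 2 :=
      (degreeOf_C_mul_le _ _ _).trans ((degreeOf_pow_le _ _ _).trans (by rw [degreeOf_X_self]))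
    have d1 : degreeOf i (C b * X i : MvPolynomial (Fin m) κ) ≤ 1 :=
      (degreeOf_C_mul_le _ _ _).trans (by rw [degreeOf_X_self])
    have d0 : degreeOf i (C c : MvPolynomial (Fin m) κ) = 0 := degreeOf_C _ _
    have d4 : degreeOf i (C a * X i ^ 2 + C b * X i + C c : MvPolynomial (Fin m) κ) < 3 := by
      have := degreeOf_add_le i (C a * X i ^ 2 + C b * X i : MvPolynomial (Fin m) κ) (C c)
      have := degreeOf_add_le i (C a * X i ^ 2 : MvPolynomial (Fin m) κ) (C b * X i)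
      omega
    have e3 : U = X i ^ 3 + (C a * X i ^ 2 + C b * X i + C c) := by
      simp only [U, cu]
      ring
    rw [e3, degreeOf_add_eq_of_degreeOf_lt (by rw [d3]; exact d4), d3]
  have hU0 : U ≠ 0 := fun h2 => by simp [h2] at hd
  have hH1 : H ≠ 0 := fun h2 => hH0 (by rw [h2, map_zero])
  have hz0 : z ≠ 0 := fun h2 => h0 (by rw [← e, h2, zero_pow (by omega), mul_zero])
  have hP1 : P ≠ 0 := fun h2 => mul_ne_zero hz0 hH0 (by rw [he, h2, map_zero])
  have hm : U ^ h * P ^ (2 * h) - C A * H ^ (2 * h) ∈ EK2_S k (Fin m) :=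
    sub_mem (mul_mem (pow_mem hU _) (pow_mem (show P ∈ EK2_S k (Fin m) from hP) _))
      (mul_mem (DCharP_C hA) (pow_mem (show H ∈ EK2_S k (Fin m) from hH) _))
  have e4 := sub_eq_zero.1 (hi _ hm (by
    simp only [U, cu, map_sub, map_mul, map_pow, map_add, eval_C, eval_X, ← he, ← e]
    ring))
  have e5 := congrArg (degreeOf i) e4
  rw [degreeOf_mul_eq (pow_ne_zero _ hU0) (pow_ne_zero _ hP1),
    degreeOf_mul_eq (by simpa using h0) (pow_ne_zero _ hH1), degreeOf_pow_eq _ _ _ hU0,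
    degreeOf_pow_eq _ _ _ hP1, degreeOf_pow_eq _ _ _ hH1, hd, degreeOf_C] at e5
  have e6 : h * (3 + 2 * degreeOf i P) = h * (2 * degreeOf i H) := by linarith
  have := Nat.eq_of_mul_eq_mul_left h1 e6
  omega

theorem ell_main (hp : p ≠ 2) (h2 : k2 ≤ k) {t : Fin m → κ} (hi : Idp k t)
    {π : Q → MvPolynomial (Fin m) κ} (hπ : ∀ i, (∀ μ, (π i).coeff μ ∈ k2) ∧ eval t (π i) ≠ 0)
    (hind : ∀ c : Q → κ, (∀ i, c i ∈ k2) →
      (∀ a, ∑ i, c i * (eval t (pderiv a (π i)) / eval t (π i)) = 0) → c = 0)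
    {a b c : κ} (ha : a ∈ k) (hb : b ∈ k) (hc : c ∈ k) (y δ : ℕ → Fin m → κ)
    (hy : ∀ d, y 0 d ^ 2 = cu a b c (t d)) (hy0 : ∀ n d, y n d ≠ 0) (hδ : ∀ n d, δ n d ≠ 0)
    {e : ℕ} (he : e ≠ 0) (H : Q → ℕ → Fin m → κ)
    (hH0 : ∀ i d, H i 0 d = eval t (pderiv d (π i)) / eval t (π i))
    (hH : ∀ i n d, H i (n + 1) d ^ p ^ e = δ n d ^ p ^ e * H i n d)
    (hA : e = 1 → ∃ A ∈ k, ∀ n d,
      y (n + 1) d ^ (p - 1) * δ n d ^ p = A * (y n d / y (n + 1) d))
    (ρ : Q → κ) (hρ : ρ ≠ 0) (n0 : ℕ) (hrel : ∀ n, n0 ≤ n → ∀ d, ∑ i, ρ i *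
      (y n d / y (n + 1) d * H i n d - (p : κ) ^ (e - 1) * H i (n + 1) d) = 0) : False := by
  classical
  have hpp : p.Prime := Fact.out
  have hi2 : Idp k2 t := fun P hP => hi P fun μ => h2 (hP μ)
  rcases eq_or_ne e 1 with rfl | he1
  · obtain ⟨A, hAk, hA⟩ := hA rfl
    simp only [pow_one, Nat.sub_self, pow_zero, one_mul] at hH hrel
    rcases Nat.eq_zero_or_pos m with rfl | hm
    · obtain ⟨i0, _⟩ := Function.ne_iff.1 hρ
      exact one_ne_zero (congrFun (hind (fun _ => 1) (fun _ => one_mem _) fun d => d.elim0) i0)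
    have hA0 : A ≠ 0 := fun h3 => by
      have := hA 0 ⟨0, hm⟩
      rw [h3, zero_mul] at this
      exact mul_ne_zero (pow_ne_zero _ (hy0 _ _)) (pow_ne_zero _ (hδ _ _)) this
    have hH' : ∀ i n d, (y (n + 1) d * H i (n + 1) d) ^ p = A * (y n d * H i n d) := by
      intro i n d
      have e1 : y (n + 1) d ^ p = y (n + 1) d ^ (p - 1) * y (n + 1) d := by
        rw [← pow_succ, Nat.sub_add_cancel hpp.pos]
      have e2 := hA n d
      have := hy0 (n + 1) d
      rw [mul_pow, hH, e1]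
      field_simp at e2
      linear_combination H i n d * e2
    have hs : ∀ d n, n0 ≤ n →
        ∑ i, ρ i * (y n d * H i n d) = ∑ i, ρ i * (y n0 d * H i n0 d) := by
      intro d n hn
      induction n, hn using Nat.le_induction with
      | base => rfl
      | succ n hn ih =>
        rw [← ih, eq_comm, ← sub_eq_zero, ← mul_zero (y (n + 1) d), ← hrel n hn d,
          ← Finset.sum_sub_distrib, Finset.mul_sum]
        refine Finset.sum_congr rfl fun i _ => ?_
        have := hy0 (n + 1) d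
        field_simp
    let φ := algebraMap κ (AlgebraicClosure κ)
    have hφ : Function.Injective φ := φ.injective
    obtain ⟨β, hβ⟩ := IsAlgClosed.exists_pow_nat_eq (φ A)⁻¹ (Nat.sub_pos_of_lt hpp.one_lt)
    have hA1 : φ A ≠ 0 := (map_ne_zero φ).2 hA0
    have hβ0 : β ≠ 0 := fun h3 => by
      rw [h3, zero_pow (Nat.sub_pos_of_lt hpp.one_lt).ne'] at hβ
      exact inv_ne_zero hA1 hβ.symm
    have hb1 : ∀ i n d, (β * φ (y n d * H i n d)) ^ p ^ n = β * φ (y 0 d * H i 0 d) := by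
      intro i n d
      induction n with
      | zero => simp
      | succ n ih =>
        have e1 : β ^ p = (φ A)⁻¹ * β := by rw [← hβ, ← pow_succ, Nat.sub_add_cancel hpp.pos]
        rw [pow_succ', pow_mul, mul_pow β, ← map_pow, hH', e1, map_mul φ A, ← ih]
        congr 1
        field_simp
    obtain ⟨c', hc1, hc2, hc3⟩ := moore_vec (p := p) (Q := Q ⊕ Fin m)
      (Sum.elim (fun i => φ (ρ i)) fun d => β * φ (∑ i, ρ i * (y n0 d * H i n0 d)))
      (Sum.elim (fun i d => β * φ (y 0 d * H i 0 d)) fun d' d => -if d' = d then 1 else 0)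
      (fun h3 => hρ (funext fun i => hφ ((congrFun h3 (Sum.inl i)).trans (map_zero φ).symm))) n0
      fun n hn d => by
        rw [Fintype.sum_sum_type]
        simp only [Sum.elim_inl, Sum.elim_inr, mul_neg, mul_ite, mul_one, mul_zero,
          Finset.sum_neg_distrib, Finset.sum_ite_eq', Finset.mem_univ, if_true]
        rw [← hs d n hn, map_sum, Finset.mul_sum, sum_pow_char_pow, ← sub_eq_add_neg, sub_eq_zero]
        refine Finset.sum_congr rfl fun i _ => ?_
        rw [← hb1 i n d, ← mul_pow, map_mul φ (ρ i)]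
        congr 1
        ring
    have hc4 : ∀ d, β * φ (y 0 d * ∑ i, (c' (Sum.inl i) : κ) * H i 0 d) = c' (Sum.inr d) := by
      intro d
      have := hc3 d
      rw [Fintype.sum_sum_type] at this
      simp only [Sum.elim_inl, Sum.elim_inr, mul_neg, mul_ite, mul_one, mul_zero,
        Finset.sum_neg_distrib, Finset.sum_ite_eq', Finset.mem_univ, if_true] at this
      rw [← sub_eq_add_neg, sub_eq_zero] at this
      rw [← this, Finset.mul_sum, map_sum, Finset.mul_sum]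
      refine Finset.sum_congr rfl fun i _ => ?_
      simp only [map_mul, map_natCast]
      ring
    have hc5 : ∀ d, (c' (Sum.inr d) : AlgebraicClosure κ) = 0 := by
      intro d
      by_contra h3
      have hz : ∑ i, (c' (Sum.inl i) : κ) * H i 0 d ∈ FX k t := sum_mem fun i _ => by
        have h4 : π i ∈ EK2_S k (Fin m) := fun μ => h2 ((hπ i).1 μ)
        rw [hH0]
        exact mul_mem (natCast_mem _ _) (div_mem (ev_FX t (EK2_pd h4 d)) (ev_FX t h4))
      refine odd_deg hp hi ha hb hc hAk hA0 hz d (hφ ?_)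
      have e1 : (c' (Sum.inr d) : AlgebraicClosure κ) ^ (p - 1) = 1 := by
        refine mul_right_cancel₀ h3 ?_
        rw [← pow_succ, Nat.sub_add_cancel hpp.pos, one_mul, ← frobenius_def, map_natCast]
      have e2 : p - 1 = 2 * (p / 2) := by
        obtain ⟨h, hh⟩ := hpp.odd_of_ne_two hp
        omega
      rw [← hc4, mul_pow, hβ, ← map_pow, mul_pow, inv_mul_eq_one₀ hA1] at e1
      rw [e1, ← hy, ← pow_mul, ← e2]
    have hc6 := hind (fun i => (c' (Sum.inl i) : κ)) (fun i => natCast_mem _ _) fun d => by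
      have := hc4 d
      rw [hc5, mul_eq_zero, map_eq_zero, mul_eq_zero] at this
      simpa only [hH0] using (this.resolve_left hβ0).resolve_left (hy0 0 d)
    refine hc2 (funext fun j => ?_)
    refine Nat.eq_zero_of_dvd_of_lt ?_ (hc1 j)
    rcases j with i | d
    · exact (CharP.cast_eq_zero_iff κ p _).1 (congrFun hc6 i)
    · exact (CharP.cast_eq_zero_iff (AlgebraicClosure κ) p _).1 (hc5 d)
  · have h3 : ∀ n, n0 ≤ n → ∀ d, ∑ i, ρ i * H i n d = 0 := by
      intro n hn d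
      have := hrel n hn d
      rw [CharP.cast_eq_zero, zero_pow (by omega)] at this
      refine mul_left_cancel₀ (div_ne_zero (hy0 n d) (hy0 (n + 1) d)) ?_
      rw [mul_zero, ← this, Finset.mul_sum]
      exact Finset.sum_congr rfl fun i _ => by ring
    have h4 : ∀ n d, ∃ γ : κ, γ ≠ 0 ∧ ∀ i, H i n d ^ (p ^ e) ^ n = γ * H i 0 d := by
      intro n d
      induction n with
      | zero => exact ⟨1, one_ne_zero, fun i => by simp⟩
      | succ n ih =>
        obtain ⟨γ, g0, g1⟩ := ih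
        refine ⟨(δ n d ^ p ^ e) ^ (p ^ e) ^ n * γ,
          mul_ne_zero (pow_ne_zero _ (pow_ne_zero _ (hδ n d))) g0, fun i => ?_⟩
        rw [pow_succ' (p ^ e), pow_mul (H i (n + 1) d), hH, mul_pow, g1, mul_assoc]
    obtain ⟨c', c0, c1, c2⟩ := moore_q (p := p) e ρ (fun i d => H i 0 d) hρ n0 fun n hn d => by
      obtain ⟨γ, g0, g1⟩ := h4 n d
      have e1 := congrArg (· ^ (p ^ e) ^ n) (h3 n hn d)
      simp only [← pow_mul p e n] at g1 e1 ⊢
      rw [sum_pow_char_pow, zero_pow (pow_ne_zero _ hpp.ne_zero)] at e1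
      refine mul_left_cancel₀ g0 ?_
      rw [mul_zero, ← e1, Finset.mul_sum]
      exact Finset.sum_congr rfl fun i _ => by rw [mul_pow, g1]; ring
    refine c0 (ind_alg hi2 hπ hind c' (fun i => ?_) fun d => by simpa only [hH0] using c2 d)
    exact ⟨Polynomial.X ^ p ^ e - Polynomial.X,
      FiniteField.X_pow_card_sub_X_ne_zero k2 (Nat.one_lt_pow he hpp.one_lt), by simp [c1]⟩

end Pool.Agent.Work.MP_dd0d16_nt.T
end

-- merged part: Pool.Agent.Work.MP_dd0d16_nt.E.TaE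
section
/-!
Independence of the logarithms of prime polynomials along a tower of division points.

PLAN. Take `κ, res` and the residue fields `k`, `k2` of `E`, `E2` (`exists_resF`), lift `a, b, c, x, y, P i` to
`v.integer` (`int_lift`), `d n` from `exists_pd`, `Gau.idp`; `e, r, δ` from `ell_e`, `q = p ^ e`; `ε` from `log_res`.
`ell_seq`: recursion on the subtype of `z : v.integer` with `z ∈ FX E (x n)`, `z ∈ W`, `res z ≠ 0`: `Pd.root` for
`u = res z` (`pd_res` or `res_mem`, `res_perf`), `res_lift`. With `w i n` from `ell_w`, `T i n = L (z i n)`: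
`T i n = q * T i (n + 1) + L (1 + p * w i n)`, so `T i 0 - q ^ n * T i n ∈ R n = AR v p (FX E (x n))` (`AR.log`,
`AR.of_mem`; `FX E (x n) ≤ FX E (x (n + 1))` by `ell_d0`, so `R` is monotone by `AR.trans`). `v (T i n) ≤ v p` by
`Urm.log`. If independence fails, `ta2` with `T0 i = D * T i 0 + t i`, `t n = D * q ^ n` (see `taF` in D/TaF) gives
`g, i0, n0`; `ρ i = res (g i)`. The residue of `T i n / p` is `res w + ε * res w ^ p` (`Sm.lt`; `T i (n + 1)` has
value `< 1`). `res_mem` puts `ρ i` and `res z` into `FX k (t n)`, which `d (n + 1) a` kills (`Pd.chain` with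
`γ = 0`, `t n j = r ^ q`, `Pd.pow`). Apply `d (n + 1) a` (`Pd.sum`, `Pd.mul`, `Pd.pow`), then `ell_main` with
`H i n a = d n a (res (z i n)) / res (z i n)`, `π i = map res (P i)`; for `hind` lift `c i ∈ k2` to `E2`.
-/

set_option autoImplicit false

namespace Pool.Agent.Work.MP_dd0d16_nt.T

open MvPolynomial

variable {Ω Γ : Type} [Field Ω] [CharZero Ω] [LinearOrderedCommGroupWithZero Γ]
  {v : Valuation Ω Γ} {L : Ω → Ω} {E E2 W : Subfield Ω} {p m : ℕ} [Fact p.Prime]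

omit [CharZero Ω] in
theorem ell_seq {κ : Type} [Field κ] [CharP κ p] {res : v.integer →+* κ} {k : Subfield κ}
    (hr : ResF v E res k) (hl : Plf v p W E) {x : ℕ → Fin m → v.integer}
    (hx : ∀ n i, (x n i : Ω) ∈ W) (hG : ∀ n, Gau v E fun i => (x n i : Ω))
    {d : ℕ → Fin m → κ → κ} (hd : ∀ n, Pd k (fun i => res (x n i)) (d n)) {e : ℕ}
    {r δ : ℕ → Fin m → κ}
    (h1 : ∀ n j, r n j ∈ (FX k fun i => res (x (n + 1) i)) ∧ r n j ^ p ^ e = res (x n j))
    (h2 : ∀ n i j, d (n + 1) i (r n j) = if i = j then δ n i else 0) (z0 : v.integer)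
    (h3 : (z0 : Ω) ∈ (FX E fun i => (x 0 i : Ω)) ∧ (z0 : Ω) ∈ W ∧ res z0 ≠ 0) :
    ∃ z : ℕ → v.integer, z 0 = z0 ∧ ∀ n, (z n : Ω) ∈ (FX E fun i => (x n i : Ω)) ∧
      (z n : Ω) ∈ W ∧ res (z n) ≠ 0 ∧ res (z (n + 1)) ^ p ^ e = res (z n) ∧ ∀ i,
        (d (n + 1) i (res (z (n + 1))) / res (z (n + 1))) ^ p ^ e =
          δ n i ^ p ^ e * (d n i (res (z n)) / res (z n)) := by
  have p1 : v p < 1 := by simpa using (hr.zero (p : v.integer)).1 (by simp)
  have step : ∀ n (z : v.integer),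
      ((z : Ω) ∈ (FX E fun i => (x n i : Ω)) ∧ (z : Ω) ∈ W ∧ res z ≠ 0) → ∃ z' : v.integer,
        ((z' : Ω) ∈ (FX E fun i => (x (n + 1) i : Ω)) ∧ (z' : Ω) ∈ W ∧ res z' ≠ 0) ∧
        res z' ^ p ^ e = res z ∧ ∀ i, (d (n + 1) i (res z') / res z') ^ p ^ e =
          δ n i ^ p ^ e * (d n i (res z) / res z) := fun n z hz => by
    obtain ⟨u, u1, u2, u3⟩ := (hd n).root (res_perf hr hl) (hd (n + 1)) e (h1 n) (h2 n)
      (res_mem hr p1 (hG n) (AR.of_mem hz.1 z.2))
    obtain ⟨z', k1, k2, rfl⟩ := res_lift hr hl (hx (n + 1)) u1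
    refine ⟨z', ⟨k1, k2, fun k => hz.2.2 ?_⟩, u2, fun i => ?_⟩
    · rw [← u2, k, zero_pow (pow_ne_zero e (Fact.out : p.Prime).ne_zero)]
    · rw [div_pow, u3, u2, mul_div_assoc]
  choose! f hf using step
  obtain ⟨z, e0, e1⟩ : ∃ z : ℕ → v.integer, z 0 = z0 ∧ ∀ n, z (n + 1) = f n (z n) :=
    ⟨fun n => Nat.rec z0 f n, rfl, fun _ => rfl⟩
  have hz : ∀ n, (z n : Ω) ∈ (FX E fun i => (x n i : Ω)) ∧ (z n : Ω) ∈ W ∧ res (z n) ≠ 0 :=
    fun n => by
      induction n with
      | zero => exact e0 ▸ h3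
      | succ n ih => exact e1 n ▸ (hf n _ ih).1
  exact ⟨z, e0, fun n => ⟨(hz n).1, (hz n).2.1, (hz n).2.2, e1 n ▸ (hf n _ (hz n)).2⟩⟩

omit [CharZero Ω] [Fact p.Prime] in
theorem ETaE_pow (h : LF p v L E) {a : Ω} (ha : a ≠ 0) (n : ℕ) : L (a ^ n) = n * L a := by
  induction n with
  | zero => simpa using h.one
  | succ n ih => rw [pow_succ, h.mul _ _ (pow_ne_zero _ ha) ha, ih, Nat.cast_succ, add_one_mul]

omit [CharZero Ω] in
theorem ETaE_inv {κ : Type} [Field κ] (res : v.integer →+* κ) {b : v.integer}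
    (hb : v (b : Ω) = 1) : ∃ u : v.integer, (u : Ω) = (b : Ω)⁻¹ ∧ res u = (res b)⁻¹ := by
  refine ⟨⟨(b : Ω)⁻¹, show v _ ≤ 1 by rw [map_inv₀, hb, inv_one]⟩, rfl,
    eq_inv_of_mul_eq_one_left ?_⟩
  rw [← map_mul, ← map_one res]
  exact congrArg _ (Subtype.ext (inv_mul_cancel₀ fun e => by simp [e] at hb))

theorem ETaE_kill {κ σ : Type} [Field κ] [CharP κ p] [DecidableEq σ] {k : Subfield κ}
    {t t' r : σ → κ} {d d' : σ → κ → κ} (h : Pd k t d) (h' : Pd k t' d') {e : ℕ} (he : e ≠ 0)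
    (hr : ∀ b, r b ∈ FX k t' ∧ r b ^ p ^ e = t b) {Q : Type} [Fintype Q] {ρ w : Q → κ} (ε : ℤ)
    (hρ : ∀ i, ρ i ∈ FX k t) (hw : ∀ i, w i ∈ FX k t')
    (hz : ∑ i, ρ i * (w i + ε * w i ^ p) ∈ FX k t) (a : σ) : ∑ i, ρ i * d' a (w i) = 0 := by
  have key : ∀ u ∈ FX k t, u ∈ FX k t' ∧ d' a u = 0 := fun u hu => by
    simpa using h.chain h' (fun b => (hr b).2 ▸ pow_mem (hr b).1 _) a (γ := 0) (fun b => by
      rw [← (hr b).2, ← pow_sub_one_mul he, pow_mul, h'.pow a (pow_mem (hr b).1 _), ite_self]) hu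
  have m1 : ∀ i, (ε : κ) * w i ^ p ∈ FX k t' := fun i =>
    mul_mem (intCast_mem _ ε) (pow_mem (hw i) p)
  rw [← (key _ hz).2, h'.sum a _ fun i _ => mul_mem (key _ (hρ i)).1 (add_mem (hw i) (m1 i))]
  refine Finset.sum_congr rfl fun i _ => ?_
  rw [h'.mul a _ (key _ (hρ i)).1 _ (add_mem (hw i) (m1 i)), (key _ (hρ i)).2,
    h'.add a _ (hw i) _ (m1 i), h'.mul a _ (intCast_mem _ ε) _ (pow_mem (hw i) p),
    h'.pow a (hw i), h'.const a (intCast_mem k ε)]
  ring

omit [CharZero Ω] [Fact p.Prime] in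
theorem ETaE_ta (h : LF p v L E) {F : ℕ → Subfield Ω} (hE : E ≤ F 0)
    (hF : ∀ n, F n ≤ F (n + 1)) {Q : Type} [Fintype Q] {T U : Q → ℕ → Ω} {e : ℕ} (he : e ≠ 0)
    (hT : ∀ i n, v (T i n) ≤ v p) (hU : ∀ i n, U i n ∈ AR v p (F (n + 1)))
    (hrec : ∀ i n, T i n = p ^ e * T i (n + 1) + U i n)
    (hn : ∀ (g : Q → Ω) (i0 : Q) (n0 : ℕ), g i0 = 1 → ¬ ∀ n, n0 ≤ n → (∀ i, g i ∈ AR v p (F n)) ∧
      ∃ z ∈ AR v p (F n), v (z - ∑ i, g i * (T i n / p)) ≤ v p) :
    TA v p E (AR v p (F 0)) fun i => T i 0 := by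
  have hm : Monotone fun n => AR v p (F n) :=
    monotone_nat_of_le_succ fun n => AR.trans fun u hu u1 => AR.of_mem (hF n hu) u1
  have hR : ∀ i n, T i 0 - p ^ (e * n) * T i n ∈ AR v p (F n) := fun i n => by
    induction n with
    | zero => simp
    | succ n ih =>
      convert add_mem (hm n.le_succ ih) (mul_mem (pow_mem (natCast_mem _ p) (e * n)) (hU i n))
        using 1
      rw [hrec i n]
      ring
  intro τ _ y D t hD hy ht hs
  by_contra hc
  obtain ⟨c, hc'⟩ := h.nat D.natAbs (Int.natAbs_ne_zero.2 hD)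
  have hD' : v (D.natAbs : Ω) = v (D : Ω) := by
    rw [← Int.cast_natCast]
    rcases Int.natAbs_eq D with e | e
    · rw [← e]
    · conv_rhs => rw [e, Int.cast_neg, Valuation.map_neg]
  obtain ⟨g, i0, n0, hg, hn0⟩ := ta2 h (fun n => AR v p (F n)) hm
    (fun a ha h1 => AR.of_mem (hE ha) h1) (fun n a ha => ha.1)
    (fun n a ha b hb => AR.div ha hb) hy hs (fun i => D * T i 0 + t i) T (fun n => D * p ^ (e * n))
    (fun n => ⟨mul_mem (intCast_mem _ D) (pow_mem (natCast_mem _ p) _), by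
      rw [map_mul, map_pow]
      exact (mul_le_of_le_one_left' (Res1_int D)).trans (pow_le_pow_right_of_le_one' h.p1.le
        (Nat.le_mul_of_pos_left n (Nat.pos_of_ne_zero he))),
      not_inf_of_le h.p0 h.p1 (c := c + e * n) (by
        rw [map_mul, map_pow, pow_add, ← hD']
        exact mul_le_mul_left hc' _)⟩) hT
    (fun i n => by
      convert add_mem (mul_mem (intCast_mem _ D) (hR i n)) (hm (Nat.zero_le n) (ht i)) using 1
      ring) hc
  exact hn g i0 n0 hg hn0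

theorem taE (hp : p ≠ 2) (h : LF p v L E) (hT : Tail p v L) (hW : Urm p v L W) (hl : Plf v p W E)
    {a b c : Ω} {x y : ℕ → Fin m → Ω} {N D M : Polynomial Ω}
    (hx : EllW v p W E a b c x y N D M) (h2 : E2 ≤ E) {Q : Type} [Fintype Q]
    (P : Q → MvPolynomial (Fin m) Ω) (hP : ∀ i, Cw v W E2 (P i) ∧ v (eval (x 0) (P i)) = 1)
    (hind : ∀ c : Q → Ω, (∀ i, c i ∈ E2 ∧ v (c i) ≤ 1) →
      (∀ a, v (∑ i, c i * (eval (x 0) (pderiv a (P i)) / eval (x 0) (P i))) < 1) →
      ∀ i, v (c i) < 1) :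
    (∀ i, v (L (eval (x 0) (P i))) ≤ 1) ∧
      TA v p E (AR v p (FX E (x 0))) fun i => L (eval (x 0) (P i)) := by
  have h0 := h.p0
  have h1 := h.p1
  have p0 : (p : Ω) ≠ 0 := (map_ne_zero v).1 h0
  obtain ⟨κ, _, _, res, hk'⟩ := exists_resF h1
  obtain ⟨k, hk⟩ := hk' E
  obtain ⟨k2, hk2⟩ := hk' E2
  obtain ⟨ε, hε⟩ := log_res h0 h1 hT
  have hF : ∀ n, FX E (x n) ≤ FX E (x (n + 1)) := fun n => by
    obtain ⟨d1, hd1⟩ := exists_pd (hx.gau (n + 1)).idp0
    refine Subfield.closure_le.2 ?_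
    rintro _ (hu | ⟨j, rfl⟩)
    exacts [Subfield.subset_closure (Or.inl hu), (ell_d0 hx n hd1 j).1]
  lift a to v.integer using hx.ca.2
  lift b to v.integer using hx.cb.2
  lift c to v.integer using hx.cc.2
  lift x to ℕ → Fin m → v.integer using hx.int
  lift y to ℕ → Fin m → v.integer using fun n i => (hx.uy n i).le
  choose P' eP using fun i => int_lift fun μ => ((hP i).1 μ).2.2
  obtain rfl := funext eP
  choose d hd using fun n => exists_pd ((hx.gau n).idp hk)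
  obtain ⟨e, r, δ, he, r1, r2, r3, r4⟩ := ell_e hp h0 hk hl hW hx hd
  have ne : ∀ {b : v.integer}, v (b : Ω) = 1 → res b ≠ 0 := fun hb e => ((hk.zero _).1 e).ne hb
  have hP1 := fun i => (hP i).2
  have hP2 := fun i => ev_FX (fun j => (x 0 j : Ω)) fun μ => h2 ((hP i).1 μ).1
  have hP3 := fun i => ev_mem W.toSubring (hx.mem 0) fun μ => ((hP i).1 μ).2.1
  simp only [pderiv_map, ← coe_eval] at hP1 hP2 hP3 hind ⊢
  choose z z0 z1 z2 z3 z4 z5 using fun i => ell_seq hk hl hx.mem hx.gau hd r1 r2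
    (eval (x 0) (P' i)) ⟨hP2 i, hP3 i, ne (hP1 i)⟩
  choose w w1 w2 w3 using fun i n => ell_w h0 hk hW hx hd he n ⟨z1 i n, z2 i n⟩
    ⟨z1 i (n + 1), z2 i (n + 1)⟩ (z3 i n) (z4 i n)
  have zv : ∀ i n, v (z i n : Ω) = 1 := fun i n =>
    le_antisymm (z i n).2 (not_lt.1 fun q => z3 i n ((hk.zero _).2 q))
  have zT : ∀ i n, v (L (z i n)) ≤ v p := fun i n => hW.log _ (z2 i n) (zv i n)
  have hrec : ∀ i n, L (z i n) = p ^ e * L (z i (n + 1)) + L (1 + p * w i n) := fun i n => by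
    have e1 : (z i n : Ω) = z i (n + 1) ^ p ^ e * (1 + p * w i n) := by
      exact_mod_cast congrArg Subtype.val (w2 i n)
    have n0 : ∀ n, (z i n : Ω) ≠ 0 := fun n => v.ne_zero_iff.1 (zv i n ▸ one_ne_zero)
    rw [e1, h.mul _ _ (pow_ne_zero _ (n0 _)) (right_ne_zero_of_mul (e1 ▸ n0 n)),
      ETaE_pow h (n0 _), Nat.cast_pow]
  simp only [← z0]
  have hU : ∀ i n, L (1 + p * w i n) ∈ AR v p (FX E fun j => (x (n + 1) j : Ω)) := fun i n =>
    AR.log h hT (add_mem (one_mem _) (mul_mem (natCast_mem _ p)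
      (AR.of_mem (w1 i n) (w i n).2))) (by
        rw [add_sub_cancel_left, map_mul]
        exact mul_le_of_le_one_right' (w i n).2)
  refine ⟨fun i => (zT i 0).trans h1.le, ETaE_ta h (F := fun n => FX E fun j => (x n j : Ω))
    (T := fun i n => L (z i n)) (U := fun i n => L (1 + p * w i n))
    (fun u hu => Subfield.subset_closure (Or.inl hu)) hF he zT hU hrec fun g i0 n0 hg hn => ?_⟩
  lift g to Q → v.integer using fun i => ((hn n0 le_rfl).1 i).1
  refine ell_main hp (k2 := k2) (fun u hu => ?_) ((hx.gau 0).idp hk) (π := fun i => map res (P' i))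
    (fun i => ⟨hk2.co fun μ => ((hP i).1 μ).1, res_eval res _ _ ▸ ne (hP1 i)⟩)
    (fun s hs hs' => ?_) ((hk.mem _).2 ⟨a, hx.ca.1, rfl⟩) ((hk.mem _).2 ⟨b, hx.cb.1, rfl⟩)
    ((hk.mem _).2 ⟨c, hx.cc.1, rfl⟩) (fun n j => res (y n j)) δ (fun j => ?_)
    (fun n j => ne (hx.uy n j)) r3 he (fun i n j => d n j (res (z i n)) / res (z i n))
    (fun i j => ?_) z5 r4 (fun i => res (g i))
    (fun q => by simpa [show g i0 = 1 from Subtype.ext hg] using congrFun q i0) n0
    fun n hn0 j => ?_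
  · obtain ⟨u', u1, u2⟩ := (hk2.mem u).1 hu
    exact (hk.mem u).2 ⟨u', h2 u1, u2⟩
  · choose s' s1 s2 using fun i => (hk2.mem _).1 (hs i)
    choose u hu hu' using fun i => ETaE_inv res (hP1 i)
    funext i
    rw [← s2]
    refine (hk.zero _).2 (hind (fun i => s' i) (fun i => ⟨s1 i, (s' i).2⟩) (fun j => ?_) i)
    have h3 := (hk.zero (∑ i, s' i * (eval (x 0) (pderiv j (P' i)) * u i))).1 (by
      simpa only [map_sum, map_mul, hu', s2, res_eval, pderiv_map, div_eq_mul_inv] using hs' j)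
    push_cast [hu] at h3
    simpa only [div_eq_mul_inv] using h3
  · have h3 : y 0 j ^ 2 = cu a b c (x 0 j) := Subtype.ext (by simpa [cu] using hx.cur 0 j)
    simpa [cu] using congrArg res h3
  · rw [z0, res_eval, (hd 0).pol j _ (hk.co fun μ => h2 ((hP i).1 μ).1)]
  · obtain ⟨g1, u, u1, u2⟩ := hn n hn0
    lift u to v.integer using u1.1
    have h3 : res u = ∑ i, res (g i) * (res (w i n) + ε * res (w i n) ^ p) := by
      simp only [← map_pow res, ← map_intCast res, ← map_mul res, ← map_add res, ← map_sum res]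
      refine hk.eq ?_
      push_cast
      rw [← sub_add_sub_cancel _ (∑ i, (g i : Ω) * (L (z i n) / p)), ← Finset.sum_sub_distrib]
      refine v.map_add_lt (u2.trans_lt h1) (v.map_sum_lt one_ne_zero fun i _ => ?_)
      rw [← mul_sub, map_mul, hrec, add_div, add_sub_assoc, ← pow_sub_one_mul he, mul_right_comm,
        mul_div_cancel_right₀ _ p0]
      refine (mul_le_of_le_one_left' (g i).2).trans_lt (v.map_add_lt ?_
        ((hε _ (Bd.of_le h1 (w i n).2)).lt h1))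
      rw [map_mul, map_pow]
      exact (mul_le_of_le_one_left' (AR_p v p _)).trans_lt ((zT i _).trans_lt h1)
    simp only [← w3]
    exact ETaE_kill (hd n) (hd (n + 1)) he (r1 n) ε (fun i => res_mem hk h1 (hx.gau n) (g1 i))
      (fun i => res_mem hk h1 (hx.gau (n + 1)) (AR.of_mem (w1 i n) (w i n).2))
      (h3 ▸ res_mem hk h1 (hx.gau n) u1) j

end Pool.Agent.Work.MP_dd0d16_nt.T
end
end

-- merged part: Pool.Agent.Work.MP_dd0d16_nt.E.FinalE
section
-- merged part: Pool.Agent.Work.MP_dd0d16_nt.E.GermE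
section
/-!
The tower of division points in the ultrapower.

PLAN. `urm_germ`, `plf_germ`: representatives (`GS_rep`, `gm_mem`), `vG_lt_one`, `vG_eq_one`, `vG_le_pow` with
exponent one, `unr_disc`, `unr_log`, `unr_plf` (choose `b n` when `‖f n‖ ≤ 1`, else zero); see D/Germ2.
`chn_germ`: each equation holds in the ring `ι → PadicAlgCl p` (`funext`), apply the ring homomorphism `gm U`
(`Seq2_add`, `Seq2_mul`, .. in S/Seq2, or a lemma `Chn.map`). `ell_germ`: choose the towers by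
`tors_tower`; `Good.abc`; `ellW_of`, `gm_ne`, `vG_le_one`, `vG_eq_one`, `(lf_germ ..).p1`-type fact
`vG U p < 1` (`vG_lt_one`).
-/

set_option autoImplicit false

namespace Pool.Agent.Work.MP_dd0d16_nt.T

open Filter

variable {p : ℕ} [Fact p.Prime] {ι : Type} {U : Ultrafilter ι} {L : PadicAlgCl p → PadicAlgCl p}
  {K : ι → IntermediateField ℚ_[p] (PadicAlgCl p)} {m : ℕ} {z : ι → Fin m → PadicAlgCl p}

theorem EGermE_le (f : ι → PadicAlgCl p) :
    vG U (gm U f) ≤ vG U (p : GF p U) ↔ ∀ᶠ n in U, ‖f n‖ ≤ (p : ℝ)⁻¹ := by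
  simpa only [pow_one] using vG_le_pow U f 1

theorem urm_germ (U : Ultrafilter ι) (hL : IsLog L) :
    Urm p (vG U) (LG U L) (GS U fun _ => Unr p) := by
  refine ⟨?_, ?_⟩ <;> rintro _ ⟨f, hf, rfl⟩ h
  · exact (EGermE_le f).2 (((vG_lt_one U f).1 h).mono fun n k => unr_disc (hf n) k)
  · exact (EGermE_le _).2 (((vG_eq_one U f).1 h).mono fun n k => unr_log hL (hf n) k)

theorem plf_germ (U : Ultrafilter ι) (K : ι → IntermediateField ℚ_[p] (PadicAlgCl p)) :
    Plf (vG U) p (GS U fun _ => Unr p) (GS U K) := by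
  rintro _ ⟨f, hf, rfl⟩ h
  have k : ∀ n, ∃ b ∈ K n, b ∈ Unr p ∧ ‖b‖ ≤ 1 ∧ (‖f n‖ ≤ 1 → ‖f n - b ^ p‖ < 1) := fun n => by
    by_cases e : ‖f n‖ ≤ 1
    · obtain ⟨b, h1, h2, h3, h4⟩ := unr_plf (hf n) e
      exact ⟨b, h1, h2, h3, fun _ => h4⟩
    · exact ⟨0, zero_mem _, zero_mem _, norm_zero.trans_le zero_le_one, fun k => absurd k e⟩
  choose b h1 h2 h3 h4 using k
  refine ⟨gm U b, ⟨b, h1, rfl⟩, ⟨b, h2, rfl⟩, (vG_le_one U b).2 (.of_forall h3), ?_⟩
  rw [← map_pow, ← map_sub, vG_lt_one]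
  exact ((vG_le_one U f).1 h).mono h4

theorem EGermE_map {R S : Type} [CommRing R] [CommRing S] (f : R →+* S) {q : ℕ} {a b c : R}
    {X Y : ℕ → R} (h : Chn q a b c X Y) :
    Chn q (f a) (f b) (f c) (fun j => f (X j)) fun j => f (Y j) := by
  refine ⟨fun j h1 h2 => ?_, ?_, ?_, fun j h1 h2 => ?_, fun j h1 h2 => ?_⟩
  · simpa only [cu, map_add, map_mul, map_pow] using congrArg f (h.cur j h1 h2)
  · simpa only [map_add, map_sub, map_mul, map_pow, map_ofNat] using congrArg f h.dx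
  · simpa only [map_add, map_sub, map_mul, map_pow, map_ofNat, map_neg] using congrArg f h.dy
  · simpa only [map_add, map_sub, map_mul, map_pow] using congrArg f (h.ax j h1 h2)
  · simpa only [map_add, map_sub, map_mul, map_neg] using congrArg f (h.ay j h1 h2)

theorem chn_germ {a b c : ι → PadicAlgCl p} {X Y : ι → ℕ → PadicAlgCl p}
    (h : ∀ n, Chn p (a n) (b n) (c n) (X n) (Y n)) :
    Chn p (gm U a) (gm U b) (gm U c) (fun j => gm U fun n => X n j)
      fun j => gm U fun n => Y n j :=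
  EGermE_map (gm U) (X := fun j n => X n j) (Y := fun j n => Y n j)
    ⟨fun j h1 h2 => funext fun n => (h n).cur j h1 h2, funext fun n => (h n).dx,
      funext fun n => (h n).dy, fun j h1 h2 => funext fun n => (h n).ax j h1 h2,
      fun j h1 h2 => funext fun n => (h n).ay j h1 h2⟩

theorem ell_germ (hp : p ≠ 2) {W : ι → WeierstrassCurve (PadicAlgCl p)}
    (hW : ∀ n, Good (K n) (W n)) (hz : ∀ n d, Tors (W n) (2 * p) (z n d))
    (hG : Gau (vG U) (GS U K) fun d => gm U fun n => z n d) :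
    ∃ (a b c : GF p U) (x y : ℕ → Fin m → GF p U) (N D M : Polynomial (GF p U)),
      (x 0 = fun d => gm U fun n => z n d) ∧
        EllW (vG U) p (GS U fun _ => Unr p) (GS U K) a b c x y N D M := by
  choose x y X Y h0 h using fun n d => tors_tower hp (hW n) (hz n d)
  have e : (fun d => gm U fun n => x n d 0) = fun d => gm U fun n => z n d := by simp only [h0]
  have k : ∀ a : ι → PadicAlgCl p, (∀ n, a n ∈ [(W n).b₂ / 4, (W n).b₄ / 2, (W n).b₆ / 4]) →
      gm U a ∈ GS U K ∧ gm U a ∈ (GS U fun _ => Unr p) ∧ vG U (gm U a) ≤ 1 := fun a ha =>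
    have l := fun n => (hW n).abc hp _ (ha n)
    ⟨⟨a, fun n => (l n).1, rfl⟩, ⟨a, fun n => (l n).2.1, rfl⟩,
      (vG_le_one U a).2 (.of_forall fun n => (l n).2.2)⟩
  have h1 : vG U (p : GF p U) < 1 := by
    rw [← map_natCast (gm (p := p) U), vG_lt_one]
    refine .of_forall fun n => ?_
    rw [Pi.natCast_apply, norm_p_eq]
    exact inv_lt_one_of_one_lt₀ (by exact_mod_cast (Fact.out : p.Prime).one_lt)
  obtain ⟨N, D, M, l⟩ := ellW_of hp h1 (k (fun n => (W n).b₂ / 4) fun _ => by simp)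
    (k (fun n => (W n).b₄ / 2) fun _ => by simp) (k (fun n => (W n).b₆ / 4) fun _ => by simp)
    (fun j d => gm U fun n => x n d j) (fun j d => gm U fun n => y n d j)
    (fun j d i => gm U fun n => X n d j i) (fun j d i => gm U fun n => Y n d j i) (e ▸ hG)
    fun j d => by
      choose a1 a2 a3 a4 a5 a6 a7 a8 a9 a10 using fun n => h n d j
      have b := fun n => (h n d (j + 1)).2
      refine ⟨⟨_, a1, rfl⟩, (vG_le_one U _).2 (.of_forall a2), (vG_eq_one U _).2 (.of_forall a3),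
        chn_germ a4, ⟨(vG_le_one U _).2 (.of_forall fun n => ?_),
          (vG_eq_one U _).2 (.of_forall fun n => ?_), fun i i1 i2 => ?_,
          fun i i1 i2 => (gm_ne U).2 (.of_forall fun n => a10 n i i1 i2)⟩,
        congrArg _ (funext a5), congrArg _ (funext a6), congrArg _ (funext a7),
        congrArg _ (funext a8)⟩
      · exact a5 n ▸ (b n).1
      · exact a6 n ▸ (b n).2.1
      · rw [← map_sub, vG_eq_one]
        exact .of_forall fun n => a9 n i i1 i2
  exact ⟨_, _, _, _, _, N, D, M, e, l⟩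

end Pool.Agent.Work.MP_dd0d16_nt.T
end

-- merged part: Pool.Agent.Work.MP_dd0d16_nt.E.FinalE
section
/-!
The dichotomy and the compactness argument for torsion points.
-/

set_option autoImplicit false

namespace Pool.Agent.Work.MP_dd0d16_nt.T

open Filter MvPolynomial

theorem dichE {Ω Γ : Type} [Field Ω] [CharZero Ω] [LinearOrderedCommGroupWithZero Γ]
    {v : Valuation Ω Γ} {L : Ω → Ω} {E E2 W : Subfield Ω} {p m : ℕ} [Fact p.Prime] (hp : p ≠ 2)
    (h : LF p v L E) (hT : Tail p v L) (hW : Urm p v L W) (hl : Plf v p W E) {a b c : Ω}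
    {x y : ℕ → Fin m → Ω} {N D M : Polynomial Ω} (hx : EllW v p W E a b c x y N D M)
    (h2 : E2 ≤ E) (hl2 : Plf v p W E2) (hr : ∀ a ∈ E2, v a < 1 → Sm v p a) {I : Type} [Fintype I]
    (f : I → MvPolynomial (Fin m) Ω) (hf : ∀ j, f j ≠ 0 ∧ ∀ μ, (f j).coeff μ ∈ E2) :
    Dic0 L E (x 0) fun j => eval (x 0) (f j) := by
  obtain ⟨Q, _, P, o, κ, u, h3, h4, h5⟩ :=
    fac2 (W := W) h.p1 (hx.int 0) ((hx.gau 0).mono h2) hl2 hr f hf
  obtain ⟨h7, h8⟩ := taE hp h hT hW hl hx h2 P h3 h5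
  exact stepD h hT (x 0) (hx.int 0) (hx.gau 0).ssi (fun i => eval (x 0) (P i))
    (fun i => ⟨fun e => by simpa [e] using (h3 i).2, ev_FX _ fun μ => h2 ((h3 i).1 μ).1, h7 i⟩) h8 _
    u κ o (fun k => ⟨h2 (h4 k).1, (h4 k).2⟩) fun k => ev_FX _ fun μ => h2 ((hf k).2 μ)

variable {p : ℕ} [Fact p.Prime] {L : PadicAlgCl p → PadicAlgCl p}

theorem finalE (hp : p ≠ 2) (hL : IsLog L) (m n B : ℕ) :
    ∃ N : ℕ, ∀ (K2 K : IntermediateField ℚ_[p] (PadicAlgCl p))
      (W : WeierstrassCurve (PadicAlgCl p)) (z : Fin m → PadicAlgCl p)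
      (f : Fin n → MvPolynomial (Fin m) (PadicAlgCl p)) (a : Fin 2 → Fin 2 → PadicAlgCl p)
      (c : Fin 2 → Fin 2 → Fin n → PadicAlgCl p), K2 ≤ K → RamLe K2 B → Good K W →
      (∀ d, Tors W N (z d)) → GenZ K N z → (∀ k, f k ≠ 0 ∧ PolK K2 B (f k)) →
      (∀ i j, IsAlgebraic ℚ (a i j) ∧ AlgZ K B z (a i j)) →
      (∀ i j k, IsAlgebraic ℚ (c i j k) ∧ AlgZ K B z (c i j k)) →
      FourExp (Matrix.of fun i j => a i j + ∑ k, c i j k * L (eval z (f k))) ∨
        ∀ i j, a i j + ∑ k, c i j k * L (eval z (f k)) ∈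
          Submodule.span (algebraicClosure ℚ (PadicAlgCl p))
            (insert 1 (Set.range fun k => L (MonomialOrder.lex.leadingCoeff (f k)))) := by
  classical
  by_contra hh
  simp only [not_exists, not_forall, not_or] at hh
  choose K2 K W z f a c h2 hr hW hz hg hf ha hc h1 h3 using fun n => hh (n + 2 * p)
  let U : Ultrafilter ℕ := Ultrafilter.of atTop
  choose F hF using fun k => fam_poly (fun n => f n k) fun n => (hf n k).2.2
  obtain ⟨a', b', c', x, y, N', D, M, h4, h5⟩ := ell_germ (U := U) hp hW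
    (fun n d => (hz n d).imp fun _ h => h.imp fun _ h => ⟨lt_of_le_of_lt le_add_self h.1, h.2⟩)
    (gau_germ fun D => ((eventually_ge_atTop D).filter_mono (Ultrafilter.of_le atTop)).mono
      fun n hn P hP => hg n P ⟨hP.1, hP.2.trans (hn.trans le_self_add)⟩)
  have h6 := dichE hp (lf_germ U hL K) (tail_germ U hL) (urm_germ U hL) (plf_germ U K) h5
    (GS_mono U (Eventually.of_forall h2)) (plf_germ U K2) (ram_germ hr)
    (fun k => map (gm U) (F k)) fun k => ⟨ne_gm U _ fun n => hF k n ▸ (hf n k).1, fun μ => by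
      rw [co_gm, gm_mem]
      exact Eventually.of_forall fun n => hF k n ▸ (hf n k).2.1 μ⟩
  rw [h4] at h6
  obtain ⟨N, h7⟩ := (seqD hL U K z B F (fun n k => hF k n ▸ (hf n k).1)
    (fun n k μ => hF k n ▸ h2 n ((hf n k).2.1 μ)) h6 a c ha hc
    (fun n i j => a n i j + ∑ k, c n i j k * L (eval (z n) (f n k)))
    (fun n i j => by simp only [hF]) fun n => det_of_not (h1 n)).exists
  rcases h7 with h7 | h7
  · exact h1 N (fourExp_of_dep h7)
  · obtain ⟨i, j, h8⟩ := h3 N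
    exact h8 (by simpa only [hF] using h7 i j)

end Pool.Agent.Work.MP_dd0d16_nt.T
end
end
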