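import Pool.Agent.Work.MP_dd0d16_nt.G.AxT1
import Pool.Agent.Work.MP_dd0d16_nt.D.Defs
import Pool.Agent.Work.MP_dd0d16_nt.E.Defs
import Pool.Agent.Work.MP_dd0d16_nt.G.Cyc

-- merged part: Pool.Agent.Work.MP_dd0d16_nt.D.LDefs
section
/-!
Valued fields with a Frobenius automorphism: definitions (overview: /team-store/h29_dd0d16_D.md).
-/

set_option autoImplicit false

namespace Pool.Agent.Work.MP_dd0d16_nt.T

open MvPolynomial

variable {Ω Γ : Type} [Field Ω] [LinearOrderedCommGroupWithZero Γ]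

/-- The field generated by `E` and `x`. -/
abbrev FX (E : Subfield Ω) {σ : Type} (x : σ → Ω) : Subfield Ω :=
  Subfield.closure ((E : Set Ω) ∪ Set.range x)

theorem AR_p (v : Valuation Ω Γ) (p c : ℕ) : v p ^ c ≤ 1 :=
  pow_le_one' (natCast_mem v.integer p) c

/-- Integral limits at the scale of `p` of elements of `F`. -/
def AR (v : Valuation Ω Γ) (p : ℕ) (F : Subfield Ω) : Subring Ω where
  carrier := {y | v y ≤ 1 ∧ ∀ c : ℕ, ∃ e ∈ F, v (y - e) ≤ v p ^ c}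
  mul_mem' := by
    rintro y y' ⟨h1, h2⟩ ⟨k1, k2⟩
    refine ⟨by rw [map_mul]; exact mul_le_one' h1 k1, fun c => ?_⟩
    obtain ⟨e, e1, e2⟩ := h2 c
    obtain ⟨f, f1, f2⟩ := k2 c
    have f3 : v f ≤ 1 := by
      have := v.map_sub_le k1 (f2.trans (AR_p v p c))
      rwa [sub_sub_cancel] at this
    refine ⟨e * f, mul_mem e1 f1, ?_⟩
    rw [show y * y' - e * f = y * (y' - f) + (y - e) * f by ring]
    refine v.map_add_le ?_ ?_ <;> rw [map_mul]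
    · exact (mul_le_of_le_one_left' h1).trans f2
    · exact (mul_le_of_le_one_right' f3).trans e2
  one_mem' := ⟨v.map_one.le, fun c => ⟨1, one_mem _, by simp⟩⟩
  add_mem' := by
    rintro y y' ⟨h1, h2⟩ ⟨k1, k2⟩
    refine ⟨v.map_add_le h1 k1, fun c => ?_⟩
    obtain ⟨e, e1, e2⟩ := h2 c
    obtain ⟨f, f1, f2⟩ := k2 c
    exact ⟨e + f, add_mem e1 f1, by rw [add_sub_add_comm]; exact v.map_add_le e2 f2⟩
  zero_mem' := ⟨by simp, fun c => ⟨0, zero_mem _, by simp⟩⟩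
  neg_mem' := by
    rintro y ⟨h1, h2⟩
    refine ⟨by rwa [v.map_neg], fun c => ?_⟩
    obtain ⟨e, e1, e2⟩ := h2 c
    exact ⟨-e, neg_mem e1, by rwa [neg_sub_neg, Valuation.map_sub_swap]⟩

theorem mem_AR {v : Valuation Ω Γ} {p : ℕ} {F : Subfield Ω} {y : Ω} :
    y ∈ AR v p F ↔ v y ≤ 1 ∧ ∀ c : ℕ, ∃ e ∈ F, v (y - e) ≤ v p ^ c := Iff.rfl

/-- The value of a polynomial over `E` at `x` is its Gauss value. -/
def Gau (v : Valuation Ω Γ) (E : Subfield Ω) {σ : Type} (x : σ → Ω) : Prop :=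
  ∀ P : MvPolynomial σ Ω, (∀ μ, P.coeff μ ∈ E) → ∀ μ, v (P.coeff μ) ≤ v (eval x P)

/-- No nonzero polynomial over `k` vanishes at `t`. -/
def Idp (k : Subfield Ω) {σ : Type} (t : σ → Ω) : Prop :=
  ∀ P : MvPolynomial σ Ω, (∀ μ, P.coeff μ ∈ k) → eval t P = 0 → P = 0

/-- The coefficients of `P` are integral and lie in `E` and in `W`. -/
def Cw (v : Valuation Ω Γ) (W E : Subfield Ω) {σ : Type} (P : MvPolynomial σ Ω) : Prop :=
  ∀ μ, P.coeff μ ∈ E ∧ P.coeff μ ∈ W ∧ v (P.coeff μ) ≤ 1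

/-- `s` is a Frobenius automorphism, `W` is an unramified subfield. -/
structure Frb (p : ℕ) (v : Valuation Ω Γ) (L : Ω → Ω) (s : Ω ≃+* Ω) (W : Subfield Ω) : Prop where
  val : ∀ a, v (s a) = v a
  frob : ∀ a, v a ≤ 1 → v (s a - a ^ p) < 1
  log : ∀ a, a ≠ 0 → L (s a) = s (L a)
  fwd : ∀ a ∈ W, s a ∈ W
  bwd : ∀ a ∈ W, s.symm a ∈ W
  disc : ∀ a ∈ W, v a < 1 → v a ≤ v p

/-- The unramified part of `E` is stable under `s` and has the same residue field. -/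
structure Unf (v : Valuation Ω Γ) (s : Ω ≃+* Ω) (W E : Subfield Ω) : Prop where
  fwd : ∀ a ∈ E, a ∈ W → s a ∈ E
  bwd : ∀ a ∈ E, a ∈ W → s.symm a ∈ E
  lift : ∀ a ∈ E, v a ≤ 1 → ∃ b ∈ E, b ∈ W ∧ v (a - b) < 1

/-- `x` solves the system `Φ a (x, s (x a)) = 0`. -/
structure DifW (v : Valuation Ω Γ) (s : Ω ≃+* Ω) (W E : Subfield Ω) {m : ℕ} (x : Fin m → Ω)
    (Φ : Fin m → MvPolynomial (Option (Fin m)) Ω) : Prop where
  mem : ∀ a, x a ∈ W
  int : ∀ a, v (x a) ≤ 1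
  co : ∀ a, Cw v W E (Φ a)
  zero : ∀ a, eval (fun o : Option (Fin m) => o.elim (s (x a)) x) (Φ a) = 0
  unit : ∀ a, v (eval (fun o : Option (Fin m) => o.elim (s (x a)) x) (pderiv none (Φ a))) = 1

/-- Modulo the maximal ideal the equation `dEq` has only the solution zero. -/
def NDv (v : Valuation Ω Γ) (p : ℕ) {m : ℕ} (Φ : Fin m → MvPolynomial (Option (Fin m)) Ω) : Prop :=
  ∀ (H : Fin m → MvPolynomial (Fin m) Ω) (D : MvPolynomial (Fin m) Ω),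
    (∀ a μ, v ((H a).coeff μ) ≤ 1) → (∀ μ, v (D.coeff μ) ≤ 1) → (∃ μ, v (D.coeff μ) = 1) →
    (∀ a μ, v ((dEq p Φ H D a).coeff μ) < v p) → ∀ a μ, v ((H a).coeff μ) < 1

/-- The family `T` stays independent at the scale of `p` over every independent family in `R`. -/
def TA (v : Valuation Ω Γ) (p : ℕ) (E : Subfield Ω) (R : Subring Ω) {Q : Type} (T : Q → Ω) : Prop :=
  ∀ (τ : Type) [Fintype τ] (y : τ → Ω) (D : ℤ) (t : Q → Ω), D ≠ 0 → (∀ j, y j ∈ R) →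
    (∀ i, t i ∈ R) → SI v E (v p) y → SI v E (v p) (Sum.elim y fun i => D * T i + t i)

/-- Multiplicative relation or algebraic independence, for every subfamily of `α`. -/
def Dic0 (L : Ω → Ω) (E : Subfield Ω) {τ I : Type} (X : τ → Ω) (α : I → Ω) : Prop :=
  ∀ (I' : Type) [Fintype I'] (ε : I' → I), (∃ r : I' → ℤ, r ≠ 0 ∧ ∏ i, α (ε i) ^ r i ∈ E) ∨
    AlgebraicIndependent E (Sum.elim X fun i => L (α (ε i)))

/-- `res` is the residue map and `k` is the residue field of `E`. -/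
structure ResF (v : Valuation Ω Γ) (E : Subfield Ω) {κ : Type} [Field κ] (res : v.integer →+* κ)
    (k : Subfield κ) : Prop where
  zero : ∀ z : v.integer, res z = 0 ↔ v (z : Ω) < 1
  mem : ∀ c, c ∈ k ↔ ∃ e : v.integer, (e : Ω) ∈ E ∧ res e = c

/-- `d a` is the derivative in the variable `t a` on the field generated by `k` and `t`. -/
structure Pd {κ σ : Type} [Field κ] (k : Subfield κ) (t : σ → κ) (d : σ → κ → κ) : Prop where
  add : ∀ a, ∀ y ∈ FX k t, ∀ y' ∈ FX k t, d a (y + y') = d a y + d a y'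
  mul : ∀ a, ∀ y ∈ FX k t, ∀ y' ∈ FX k t, d a (y * y') = y * d a y' + y' * d a y
  pol : ∀ (a : σ) (P : MvPolynomial σ κ), (∀ μ, P.coeff μ ∈ k) →
    d a (eval t P) = eval t (pderiv a P)

end Pool.Agent.Work.MP_dd0d16_nt.T
end

-- merged part: Pool.Agent.Work.MP_dd0d16_nt.E.LDefs
section
/-!
Towers of division points: definitions (overview: /team-store/h29_dd0d16_E.md).
-/

set_option autoImplicit false

namespace Pool.Agent.Work.MP_dd0d16_nt.T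

/-- The cubic. -/
def cu {R : Type} [CommRing R] (a b c x : R) : R := x ^ 3 + a * x ^ 2 + b * x + c

/-- `(X j, Y j)`, `1 ≤ j ≤ p`, are the multiples of the point `(X 1, Y 1)` of `Y ^ 2 = cu a b c X`. -/
structure Chn {R : Type} [CommRing R] (p : ℕ) (a b c : R) (X Y : ℕ → R) : Prop where
  cur : ∀ j, 1 ≤ j → j ≤ p → Y j ^ 2 = cu a b c (X j)
  dx : X 2 * (2 * Y 1) ^ 2 = (3 * X 1 ^ 2 + 2 * a * X 1 + b) ^ 2 - (a + 2 * X 1) * (2 * Y 1) ^ 2
  dy : Y 2 * (2 * Y 1) = -((3 * X 1 ^ 2 + 2 * a * X 1 + b) * (X 2 - X 1) + Y 1 * (2 * Y 1))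
  ax : ∀ j, 2 ≤ j → j < p →
    X (j + 1) * (X j - X 1) ^ 2 = (Y j - Y 1) ^ 2 - (a + X j + X 1) * (X j - X 1) ^ 2
  ay : ∀ j, 2 ≤ j → j < p →
    Y (j + 1) * (X j - X 1) = -((Y j - Y 1) * (X (j + 1) - X 1) + Y 1 * (X j - X 1))

variable {Ω Γ : Type} [Field Ω] [LinearOrderedCommGroupWithZero Γ]

/-- The denominators in a chain are units. -/
structure ChU (v : Valuation Ω Γ) (p : ℕ) (X Y : ℕ → Ω) : Prop where
  int : v (X 1) ≤ 1
  uy : v (Y 1) = 1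
  ux : ∀ j, 2 ≤ j → j < p → v (X j - X 1) = 1
  ne : ∀ j, 1 ≤ j → j ≤ p → Y j ≠ 0

/-- The coefficients of `P` are integral and lie in `E` and in `W`. -/
def Cw1 (v : Valuation Ω Γ) (W E : Subfield Ω) (P : Polynomial Ω) : Prop :=
  ∀ i, P.coeff i ∈ E ∧ P.coeff i ∈ W ∧ v (P.coeff i) ≤ 1

/-- `W` is unramified. -/
structure Urm (p : ℕ) (v : Valuation Ω Γ) (L : Ω → Ω) (W : Subfield Ω) : Prop where
  disc : ∀ a ∈ W, v a < 1 → v a ≤ v p
  log : ∀ a ∈ W, v a = 1 → v (L a) ≤ v p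

/-- Residues of `E` are `p`-th powers of residues of unramified elements of `E`. -/
def Plf (v : Valuation Ω Γ) (p : ℕ) (W E : Subfield Ω) : Prop :=
  ∀ a ∈ E, v a ≤ 1 → ∃ b ∈ E, b ∈ W ∧ v b ≤ 1 ∧ v (a - b ^ p) < 1

/-- A tower of points `(x n d, y n d)`; multiplication by `p` is `(N / D, y * M / D)`. -/
structure EllW (v : Valuation Ω Γ) (p : ℕ) (W E : Subfield Ω) (a b c : Ω) {m : ℕ}
    (x y : ℕ → Fin m → Ω) (N D M : Polynomial Ω) : Prop where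
  cN : Cw1 v W E N
  cD : Cw1 v W E D
  cM : Cw1 v W E M
  ca : a ∈ E ∧ v a ≤ 1
  cb : b ∈ E ∧ v b ≤ 1
  cc : c ∈ E ∧ v c ≤ 1
  mem : ∀ n d, x n d ∈ W
  int : ∀ n d, v (x n d) ≤ 1
  gau : ∀ n, Gau v E (x n)
  cur : ∀ n d, y n d ^ 2 = cu a b c (x n d)
  uy : ∀ n d, v (y n d) = 1
  den : ∀ n d, v (D.eval (x (n + 1) d)) = 1
  hx : ∀ n d, x n d * D.eval (x (n + 1) d) = N.eval (x (n + 1) d)
  hy : ∀ n d, y n d * D.eval (x (n + 1) d) = y (n + 1) d * M.eval (x (n + 1) d)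
  der : ∀ n d, (N.derivative * D - N * D.derivative).eval (x (n + 1) d) =
    p * (M * D).eval (x (n + 1) d)

end Pool.Agent.Work.MP_dd0d16_nt.T
end

-- merged part: Pool.Agent.Work.MP_dd0d16_nt.E.Add
section
/-!
Addition formulas.

PLAN. `Point.add_of_X_ne`, `Point.add_self_of_Y_ne`, `Point.neg_some`, `sub_eq_add_neg`; unfold
`addX`, `addY`, `negAddY`, `negY`, `slope_of_X_ne`, `slope_of_Y_ne`; the equations of the points
(`equation_iff`), `b₂`, `b₄`, `b₆`, `b₈`; put `l` for the slope with `l * (x1 - x2) = y1 - y2` and use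
`linear_combination` (find the coefficients by hand or eliminate `a₆`, `a₄`), or `field_simp`.
`chn_of`: `X j`, `Y j` are read off from `j • P` (`succ_nsmul`); if `X j = X 1` then `j • P = P` or
`j • P = -P` (`Point.X_eq_iff`), so `(j - 1) • P = 0` or `(j + 1) • P = 0`; if `Y j = 0` then
`j • P + j • P = 0` (`add_self_of_Y_eq`).
-/

set_option autoImplicit false

namespace Pool.Agent.Work.MP_dd0d16_nt.T

open WeierstrassCurve WeierstrassCurve.Affine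

variable {F : Type} [Field F] [DecidableEq F] {W : WeierstrassCurve F} {x1 y1 x2 y2 : F}

theorem EAdd_l (y1 y2 : F) (hx : x1 ≠ x2) :
    W.toAffine.slope x1 x2 y1 y2 * (x1 - x2) = y1 - y2 := by
  rw [slope_of_X_ne hx, div_mul_cancel₀ _ (sub_ne_zero.2 hx)]

theorem EAdd_X (y1 y2 : F) (hx : x1 ≠ x2) :
    W.toAffine.addX x1 x2 (W.toAffine.slope x1 x2 y1 y2) * (x1 - x2) ^ 2 =
      (y1 - y2) ^ 2 + W.a₁ * (y1 - y2) * (x1 - x2) - (W.a₂ + x1 + x2) * (x1 - x2) ^ 2 := by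
  rw [← EAdd_l (W := W) y1 y2 hx, addX]
  ring

theorem EAdd_d (hy : y1 ≠ W.toAffine.negY x1 y1) : 2 * y1 + W.a₁ * x1 + W.a₃ ≠ 0 ∧
    W.toAffine.slope x1 x1 y1 y1 * (2 * y1 + W.a₁ * x1 + W.a₃) =
      3 * x1 ^ 2 + 2 * W.a₂ * x1 + W.a₄ - W.a₁ * y1 := by
  have e : y1 - W.toAffine.negY x1 y1 = 2 * y1 + W.a₁ * x1 + W.a₃ := by
    rw [negY]
    ring
  have k := sub_ne_zero.2 hy
  rw [slope_of_Y_ne rfl hy, ← e]
  exact ⟨k, div_mul_cancel₀ _ k⟩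

theorem addsub (h1 : W.toAffine.Nonsingular x1 y1) (h2 : W.toAffine.Nonsingular x2 y2)
    (hx : x1 ≠ x2) : ∃ (x3 y3 x4 y4 : F) (h3 : W.toAffine.Nonsingular x3 y3)
      (h4 : W.toAffine.Nonsingular x4 y4),
      Point.some x1 y1 h1 + Point.some x2 y2 h2 = Point.some x3 y3 h3 ∧
      Point.some x1 y1 h1 - Point.some x2 y2 h2 = Point.some x4 y4 h4 ∧
      x3 * x4 * (x1 - x2) ^ 2 = (x1 * x2) ^ 2 - W.b₄ * (x1 * x2) - W.b₆ * (x1 + x2) - W.b₈ ∧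
      (x3 + x4) * (x1 - x2) ^ 2 =
        2 * (x1 + x2) * (x1 * x2) + W.b₂ * (x1 * x2) + W.b₄ * (x1 + x2) + W.b₆ := by
  have e1 := (equation_iff _ _).1 h1.1
  have e2 := (equation_iff _ _).1 h2.1
  have d := sub_ne_zero.2 hx
  have e3 := EAdd_X (W := W) y1 y2 hx
  have e4 := EAdd_X (W := W) y1 (W.toAffine.negY x2 y2) hx
  refine ⟨_, _, _, _, _, _, Point.add_of_X_ne hx, by
    rw [sub_eq_add_neg, Point.neg_some, Point.add_of_X_ne hx], ?_, ?_⟩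
  · refine mul_right_cancel₀ (pow_ne_zero 2 d) ?_
    rw [show ∀ a b c : F, a * b * c * c = (a * c) * (b * c) from fun a b c => by ring, e3, e4]
    simp only [negY, b₄, b₆, b₈]
    linear_combination (2 * (x1 + x2) * (x1 * x2) + (W.a₁ ^ 2 + 4 * W.a₂) * (x1 * x2) +
        (2 * W.a₄ + W.a₁ * W.a₃) * (x1 + x2) + (W.a₃ ^ 2 + 4 * W.a₆)) * (e1 + e2) -
      (2 * y2 + W.a₁ * x2 + W.a₃) ^ 2 * e1 - (2 * y1 + W.a₁ * x1 + W.a₃) ^ 2 * e2 +
      ((y1 ^ 2 + W.a₁ * x1 * y1 + W.a₃ * y1 - (x1 ^ 3 + W.a₂ * x1 ^ 2 + W.a₄ * x1 + W.a₆)) +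
        6 * (y2 ^ 2 + W.a₁ * x2 * y2 + W.a₃ * y2 - (x2 ^ 3 + W.a₂ * x2 ^ 2 + W.a₄ * x2 + W.a₆))) * e1 +
      (y2 ^ 2 + W.a₁ * x2 * y2 + W.a₃ * y2 - (x2 ^ 3 + W.a₂ * x2 ^ 2 + W.a₄ * x2 + W.a₆)) * e2
  · rw [add_mul, e3, e4]
    simp only [negY, b₂, b₄, b₆]
    linear_combination 2 * e1 + 2 * e2

omit [DecidableEq F] in
theorem sq_Y (h1 : W.toAffine.Nonsingular x1 y1) : (2 * y1 + W.a₁ * x1 + W.a₃) ^ 2 =
    4 * x1 ^ 3 + W.b₂ * x1 ^ 2 + 2 * W.b₄ * x1 + W.b₆ := by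
  have e1 := (equation_iff _ _).1 h1.1
  simp only [b₂, b₄, b₆]
  linear_combination 4 * e1

theorem dbl (h1 : W.toAffine.Nonsingular x1 y1)
    (h : Point.some x1 y1 h1 + Point.some x1 y1 h1 ≠ 0) :
    ∃ (x3 y3 : F) (h3 : W.toAffine.Nonsingular x3 y3),
      Point.some x1 y1 h1 + Point.some x1 y1 h1 = Point.some x3 y3 h3 ∧
      2 * y1 + W.a₁ * x1 + W.a₃ ≠ 0 ∧
      x3 * (2 * y1 + W.a₁ * x1 + W.a₃) ^ 2 = x1 ^ 4 - W.b₄ * x1 ^ 2 - 2 * W.b₆ * x1 - W.b₈ := by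
  have hy : y1 ≠ W.toAffine.negY x1 y1 := fun e => h (Point.add_self_of_Y_eq e)
  have e1 := (equation_iff _ _).1 h1.1
  obtain ⟨k, e⟩ := EAdd_d hy
  refine ⟨_, _, _, Point.add_self_of_Y_ne hy, k, ?_⟩
  simp only [addX, b₄, b₆, b₈]
  linear_combination (W.toAffine.slope x1 x1 y1 y1 * (2 * y1 + W.a₁ * x1 + W.a₃) +
      (3 * x1 ^ 2 + 2 * W.a₂ * x1 + W.a₄ - W.a₁ * y1) + W.a₁ * (2 * y1 + W.a₁ * x1 + W.a₃)) * e -
    (W.a₁ ^ 2 + 4 * W.a₂ + 8 * x1) * e1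

theorem chn_of [CharZero F] {p : ℕ} (hp : 2 ≤ p) (P : W.toAffine.Point)
    (hP : ∀ j, 1 ≤ j → j ≤ 2 * p → j • P ≠ 0) : ∃ X Y : ℕ → F,
      Chn p (W.b₂ / 4) (W.b₄ / 2) (W.b₆ / 4) X Y ∧ ∀ j, 1 ≤ j → j ≤ p → Y j ≠ 0 ∧
        ∃ (y : F) (h : W.toAffine.Nonsingular (X j) y), j • P = Point.some (X j) y h ∧
          Y j = y + (W.a₁ * X j + W.a₃) / 2 := by
  have ex : ∀ j : ℕ, ∃ x y : F, 1 ≤ j → j ≤ p →
      ∃ h : W.toAffine.Nonsingular x y, j • P = Point.some x y h := fun j => by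
    rcases e : j • P with _ | ⟨x, y, h⟩
    · exact ⟨0, 0, fun a b => absurd e (hP j a (by omega))⟩
    · exact ⟨x, y, fun _ _ => ⟨h, rfl⟩⟩
  choose X y h e using ex
  have p1 : 1 ≤ p := by omega
  have e1 : P = Point.some _ _ (h 1 le_rfl p1) := (one_nsmul P).symm.trans (e 1 le_rfl p1)
  have ny : ∀ j, 1 ≤ j → j ≤ p → y j ≠ W.toAffine.negY (X j) (y j) := fun j a b k =>
    hP (j + j) (by omega) (by omega) (by rw [add_nsmul, e j a b, Point.add_self_of_Y_eq k])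
  have d := (e 2 one_le_two hp).symm.trans ((two_nsmul P).trans
    ((congrArg₂ (· + ·) e1 e1).trans (Point.add_self_of_Y_ne (ny 1 le_rfl p1))))
  rw [Point.some.injEq] at d
  have l := (EAdd_d (ny 1 le_rfl p1)).2
  have s : ∀ j, 2 ≤ j → j < p → ∃ l, l * (X j - X 1) = y j - y 1 ∧
      X (j + 1) = W.toAffine.addX (X j) (X 1) l ∧
      y (j + 1) = W.toAffine.addY (X j) (X 1) (y j) l := fun j a b => by
    have nx : X j ≠ X 1 := fun k => by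
      have := (Point.X_eq_iff (h₁ := h j (by omega) b.le) (h₂ := h 1 le_rfl p1)).1 k
      rw [← e j (by omega) b.le, ← e1] at this
      obtain ⟨i, rfl⟩ : ∃ i, j = i + 1 := ⟨j - 1, by omega⟩
      rcases this with k | k
      · exact hP i (by omega) (by omega) (by rwa [succ_nsmul, add_eq_right] at k)
      · exact hP (i + 1 + 1) (by omega) (by omega) (by rw [succ_nsmul, k, neg_add_cancel])
    have k := (e (j + 1) (by omega) b).symm.trans ((succ_nsmul P j).trans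
      ((congrArg₂ (· + ·) (e j (by omega) b.le) e1).trans (Point.add_of_X_ne nx)))
    rw [Point.some.injEq] at k
    exact ⟨_, EAdd_l _ _ nx, k⟩
  refine ⟨X, fun j => y j + (W.a₁ * X j + W.a₃) / 2, ⟨fun j a b => ?_, ?_, ?_, fun j a b => ?_,
    fun j a b => ?_⟩, fun j a b => ⟨fun k => (EAdd_d (ny j a b)).1 ?_, _, h j a b, e j a b, rfl⟩⟩
  · rw [cu]
    linear_combination (1 / 4) * sq_Y (h j a b)
  · simp only [d.1, addX, b₂, b₄]
    linear_combination ((W.toAffine.slope (X 1) (X 1) (y 1) (y 1) + W.a₁) *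
      (2 * y 1 + W.a₁ * X 1 + W.a₃) + (3 * X 1 ^ 2 + 2 * W.a₂ * X 1 + W.a₄ - W.a₁ * y 1)) * l
  · simp only [d.2, addY, negY, negAddY, ← d.1, b₂, b₄]
    linear_combination (X 1 - X 2) * l
  · obtain ⟨l, k, k1, -⟩ := s j a b
    simp only [k1, addX, b₂]
    linear_combination ((l + W.a₁) * (X j - X 1) + (y j - y 1)) * k
  · obtain ⟨l, k, k1, k2⟩ := s j a b
    simp only [k2, addY, negY, negAddY, ← k1]
    linear_combination (X j - X (j + 1)) * k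
  · linear_combination 2 * k

end Pool.Agent.Work.MP_dd0d16_nt.T
end

-- merged part: Pool.Agent.Work.MP_dd0d16_nt.E.Int
section
/-!
Torsion points of order prime to `p` are integral and stay apart modulo the maximal ideal.

PLAN. `b₂, b₄, b₆, b₈` are integral (`Ram_B p`). `tors_int`: suppose `‖x‖ > 1`, `ε = ‖x‖⁻¹`. For a point `R` let
`u R = 0` if `R = 0` and `(x R)⁻¹` otherwise, and call `R` deep if `R = 0` or `ε⁻¹ ≤ ‖x R‖`. Lemma: if `R` is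
deep then `R + P`, `R - P` are deep and `‖u (R + P) + u (R - P) - 2 * (u R + u P)‖ ≤ ε ^ 2`. Cases:
`R = 0`; `R = P` or `R = -P` (`dbl`, `sq_Y`; `P + P ≠ 0` because the right side of `sq_Y` has norm
`‖x‖ ^ 3`; `‖2‖ = 1` by `Ram_nat`); otherwise `addsub`: with `F0, F1, F2` the three forms, `‖F0‖ = ‖x1 x2‖ ^ 2`,
so `x3, x4 ≠ 0`, `u3 + u4 = F1 / F0`, `u3 * u4 = F2 / F0` have norm at most `ε`, `ε ^ 2`, so both `u3`, `u4`
have norm at most `ε` (roots of `T ^ 2 - σ T + π`). Induction on `j` for the pair `j • P`, `(j + 1) • P`: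
deep and `‖u (j • P) - j ^ 2 * u P‖ ≤ ε ^ 2`. For `j = M`: `‖M‖ ^ 2 * ε ≤ ε ^ 2`, `Ram_nat`.
`tors_far`: `addsub`, `tors_int` for the sum and the difference; if `‖x1 - x2‖ < 1` the three forms have
norm `< 1`, against `addSubMapCoeff_condition` with `i = 2` (or the explicit identity with `W.Δ`; the
definition `addSubMapCoeff` is not exposed, so copy its last row and prove the identity by
`b_relation`, `linear_combination` or `grind`). `tors_Y`: the same with `dbl`, `x1 = x2`.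
-/

set_option autoImplicit false

namespace Pool.Agent.Work.MP_dd0d16_nt.T

open WeierstrassCurve WeierstrassCurve.Affine

variable {p : ℕ} [Fact p.Prime] [DecidableEq (PadicAlgCl p)]
  {K : IntermediateField ℚ_[p] (PadicAlgCl p)} {W : WeierstrassCurve (PadicAlgCl p)}
  {x1 y1 x2 y2 : PadicAlgCl p} {M : ℕ}

omit [DecidableEq (PadicAlgCl p)] in
theorem EInt_b (hW : Good K W) :
    W.b₂ ∈ Ram_B p ∧ W.b₄ ∈ Ram_B p ∧ W.b₆ ∈ Ram_B p ∧ W.b₈ ∈ Ram_B p := by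
  have h1 : W.a₁ ∈ Ram_B p := (hW.1 _ (by simp)).2
  have h2 : W.a₂ ∈ Ram_B p := (hW.1 _ (by simp)).2
  have h3 : W.a₃ ∈ Ram_B p := (hW.1 _ (by simp)).2
  have h4 : W.a₄ ∈ Ram_B p := (hW.1 _ (by simp)).2
  have h6 : W.a₆ ∈ Ram_B p := (hW.1 _ (by simp)).2
  simp only [b₂, b₄, b₆, b₈]
  refine ⟨?_, ?_, ?_, ?_⟩ <;>
    repeat' with_reducible (first | assumption | exact ofNat_mem _ _ | apply add_mem | apply sub_mem |
                     apply mul_mem | apply pow_mem)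

omit [DecidableEq (PadicAlgCl p)] in
theorem EInt_mul {a z : PadicAlgCl p} (hz : z ∈ Ram_B p) : ‖a * z‖ ≤ ‖a‖ := by
  rw [norm_mul]
  exact mul_le_of_le_one_right (norm_nonneg _) hz

omit [DecidableEq (PadicAlgCl p)] in
theorem EInt_root {c d : PadicAlgCl p} {ε : ℝ} (h0 : 0 ≤ ε) (h1 : ‖c + d‖ ≤ ε)
    (h2 : ‖c * d‖ ≤ ε ^ 2) : ‖c‖ ≤ ε := by
  by_contra hc
  have hc' : ε < ‖c‖ := not_le.1 hc
  have e : c * c = c * (c + d) - c * d := by ring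
  have h3 := Ram_sub_le (c * (c + d)) (c * d)
  rw [← e, norm_mul, norm_mul c (c + d)] at h3
  have hpos : 0 < ‖c‖ := h0.trans_lt hc'
  rcases le_max_iff.1 h3 with h4 | h4
  · have := mul_le_mul_of_nonneg_left h1 hpos.le
    nlinarith
  · nlinarith

omit [DecidableEq (PadicAlgCl p)] in
theorem EInt_G0 {a v b4 b6 b8 : PadicAlgCl p} (h4 : b4 ∈ Ram_B p) (h6 : b6 ∈ Ram_B p)
    (h8 : b8 ∈ Ram_B p) (hv0 : v ≠ 0) (hv : ‖v‖ < 1) (ha : ‖a‖ ≤ ‖v‖) :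
    ‖b4 * (a * v) + b6 * (a + v) * (a * v) + b8 * (a * v) ^ 2‖ ≤ ‖v‖ ^ 2 ∧
    ‖1 - (b4 * (a * v) + b6 * (a + v) * (a * v) + b8 * (a * v) ^ 2)‖ = 1 := by
  obtain ⟨t, rfl⟩ : ∃ t, a = v * t := ⟨a / v, by field_simp⟩
  have hv1 : v ∈ Ram_B p := hv.le
  have hp : 0 < ‖v‖ := norm_pos_iff.2 hv0
  have ht : t ∈ Ram_B p := by
    rw [norm_mul] at ha
    exact (mul_le_iff_le_one_right hp).1 ha
  have h1 : ‖b4 * (v * t * v) + b6 * (v * t + v) * (v * t * v) + b8 * (v * t * v) ^ 2‖ ≤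
      ‖v‖ ^ 2 := by
    have e : b4 * (v * t * v) + b6 * (v * t + v) * (v * t * v) + b8 * (v * t * v) ^ 2 =
        v ^ 2 * (b4 * t + b6 * (v * t + v) * t + b8 * (v * t) ^ 2) := by ring
    rw [e, ← norm_pow]
    apply EInt_mul
    repeat' with_reducible (first | assumption | apply add_mem | apply mul_mem | apply pow_mem)
  refine ⟨h1, ?_⟩
  have h2 : ‖v‖ ^ 2 < 1 := by nlinarith
  rw [sub_eq_add_neg, IsUltrametricDist.norm_add_eq_max_of_norm_ne_norm, norm_one, norm_neg]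
  · exact max_eq_left (h1.trans h2.le)
  · rw [norm_one, norm_neg]
    exact (h1.trans_lt h2).ne'

omit [DecidableEq (PadicAlgCl p)] in
theorem EInt_core {a v c d b2 b4 b6 b8 : PadicAlgCl p} (h2 : b2 ∈ Ram_B p) (h4 : b4 ∈ Ram_B p)
    (h6 : b6 ∈ Ram_B p) (h8 : b8 ∈ Ram_B p) (hv0 : v ≠ 0) (hv : ‖v‖ < 1) (ha : ‖a‖ ≤ ‖v‖)
    (e2 : c * d * (1 - (b4 * (a * v) + b6 * (a + v) * (a * v) + b8 * (a * v) ^ 2)) = (a - v) ^ 2)
    (e1 : (c + d) * (1 - (b4 * (a * v) + b6 * (a + v) * (a * v) + b8 * (a * v) ^ 2)) =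
      2 * (a + v) + b2 * (a * v) + b4 * (a + v) * (a * v) + b6 * (a * v) ^ 2) :
    ‖c‖ ≤ ‖v‖ ∧ ‖c + d - 2 * (a + v)‖ ≤ ‖v‖ ^ 2 := by
  obtain ⟨g1, g2⟩ := EInt_G0 h4 h6 h8 hv0 hv ha
  generalize b4 * (a * v) + b6 * (a + v) * (a * v) + b8 * (a * v) ^ 2 = G at g1 g2 e1 e2
  obtain ⟨t, rfl⟩ : ∃ t, a = v * t := ⟨a / v, by field_simp⟩
  have hv1 : v ∈ Ram_B p := hv.le
  have hp : 0 < ‖v‖ := norm_pos_iff.2 hv0
  have ht : t ∈ Ram_B p := by
    rw [norm_mul] at ha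
    exact (mul_le_iff_le_one_right hp).1 ha
  have k1 : ‖c + d‖ ≤ ‖v‖ := by
    have e : (c + d) * (1 - G) =
        v * (2 * (t + 1) + b2 * (t * v) + b4 * (v * t + v) * (t * v) + b6 * (v * (t * v) ^ 2)) := by
      rw [e1]; ring
    have := congrArg norm e
    rw [norm_mul, g2, mul_one] at this
    rw [this]
    apply EInt_mul
    repeat' with_reducible (first | assumption | exact ofNat_mem _ _ | exact one_mem _ | apply add_mem |
                     apply mul_mem | apply pow_mem)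
  have k2 : ‖c * d‖ ≤ ‖v‖ ^ 2 := by
    have e : c * d * (1 - G) = v ^ 2 * (t - 1) ^ 2 := by
      rw [e2]; ring
    have := congrArg norm e
    rw [norm_mul, g2, mul_one] at this
    rw [this, ← norm_pow]
    apply EInt_mul
    exact pow_mem (sub_mem ht (one_mem _)) _
  refine ⟨EInt_root hp.le k1 k2, ?_⟩
  have e : c + d - 2 * (v * t + v) =
      G * (c + d) + v ^ 2 * (b2 * t + b4 * (v * t + v) * t + b6 * (v * t) ^ 2) := by
    linear_combination e1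
  rw [e]
  refine (IsUltrametricDist.norm_add_le_max _ _).trans (max_le ?_ ?_)
  · exact (EInt_mul (k1.trans hv.le)).trans g1
  · rw [← norm_pow]
    apply EInt_mul
    repeat' with_reducible (first | assumption | apply add_mem | apply mul_mem | apply pow_mem)

/-- `a` is the inverse of the abscissa of `R`. -/
def EInt_U {W : WeierstrassCurve (PadicAlgCl p)} (R : W.toAffine.Point) (a : PadicAlgCl p) : Prop :=
  (R = 0 ∧ a = 0) ∨ ∃ x y h, R = Point.some x y h ∧ x * a = 1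

omit [DecidableEq (PadicAlgCl p)] in
theorem EInt_uniq {R : W.toAffine.Point} {a b : PadicAlgCl p} (ha : EInt_U R a)
    (hb : EInt_U R b) : a = b := by
  rcases ha with ⟨h1, h2⟩ | ⟨x, y, h, h1, h2⟩ <;> rcases hb with ⟨h3, h4⟩ | ⟨x', y', h', h3, h4⟩
  · rw [h2, h4]
  · rw [h1] at h3
    exact absurd h3.symm (Point.some_ne_zero _)
  · rw [h1] at h3
    exact absurd h3 (Point.some_ne_zero _)
  · rw [h1] at h3
    obtain ⟨rfl, -⟩ := Point.some.inj h3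
    calc a = a * (x * b) := by rw [h4, mul_one]
      _ = x * a * b := by ring
      _ = b := by rw [h2, one_mul]

omit [DecidableEq (PadicAlgCl p)] in
theorem EInt_neg {R : W.toAffine.Point} {a : PadicAlgCl p} (ha : EInt_U R a) : EInt_U (-R) a := by
  rcases ha with ⟨h1, h2⟩ | ⟨x, y, h, h1, h2⟩
  · exact Or.inl ⟨by rw [h1, Point.neg_zero], h2⟩
  · exact Or.inr ⟨x, _, _, by rw [h1, Point.neg_some], h2⟩

theorem EInt_dbl (h1 : W.toAffine.Nonsingular x1 y1) {v : PadicAlgCl p} (hv : x1 * v = 1)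
    (hG : 1 - (W.b₄ * (v * v) + W.b₆ * (v + v) * (v * v) + W.b₈ * (v * v) ^ 2) ≠ 0) :
    ∃ c, EInt_U (Point.some x1 y1 h1 + Point.some x1 y1 h1) c ∧
      c * (1 - (W.b₄ * (v * v) + W.b₆ * (v + v) * (v * v) + W.b₈ * (v * v) ^ 2)) =
        2 * (v + v) + W.b₂ * (v * v) + W.b₄ * (v + v) * (v * v) + W.b₆ * (v * v) ^ 2 := by
  have hY := sq_Y h1
  have hv0 : v ≠ 0 := right_ne_zero_of_mul_eq_one hv
  obtain rfl : x1 = v⁻¹ := eq_inv_of_mul_eq_one_left hv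
  by_cases h : Point.some v⁻¹ y1 h1 + Point.some v⁻¹ y1 h1 = 0
  · refine ⟨0, Or.inl ⟨h, rfl⟩, ?_⟩
    have h' := eq_neg_of_add_eq_zero_left h
    rw [Point.neg_some] at h'
    have h2 := (Point.some.inj h').2
    have h3 : 2 * y1 + W.a₁ * v⁻¹ + W.a₃ = 0 := by
      simp only [negY] at h2
      linear_combination h2
    rw [h3] at hY
    field_simp at hY
    linear_combination v * hY
  · obtain ⟨x3, y3, h3, e, -, e3⟩ := dbl h1 h
    rw [hY] at e3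
    have e4 : x3 * (2 * (v + v) + W.b₂ * (v * v) + W.b₄ * (v + v) * (v * v) + W.b₆ * (v * v) ^ 2) =
        1 - (W.b₄ * (v * v) + W.b₆ * (v + v) * (v * v) + W.b₈ * (v * v) ^ 2) := by
      field_simp at e3
      linear_combination e3
    have hx : x3 ≠ 0 := by
      rintro rfl
      exact hG (by rw [← e4, zero_mul])
    refine ⟨x3⁻¹, Or.inr ⟨x3, y3, h3, e, mul_inv_cancel₀ hx⟩, ?_⟩
    rw [← e4, ← mul_assoc, inv_mul_cancel₀ hx, one_mul]

theorem EInt_alg (h1 : W.toAffine.Nonsingular x1 y1) {v a : PadicAlgCl p} (hv : x1 * v = 1)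
    {R : W.toAffine.Point} (hR : EInt_U R a)
    (hG : 1 - (W.b₄ * (a * v) + W.b₆ * (a + v) * (a * v) + W.b₈ * (a * v) ^ 2) ≠ 0) :
    ∃ c d, EInt_U (R + Point.some x1 y1 h1) c ∧ EInt_U (R - Point.some x1 y1 h1) d ∧
      c * d * (1 - (W.b₄ * (a * v) + W.b₆ * (a + v) * (a * v) + W.b₈ * (a * v) ^ 2)) =
        (a - v) ^ 2 ∧
      (c + d) * (1 - (W.b₄ * (a * v) + W.b₆ * (a + v) * (a * v) + W.b₈ * (a * v) ^ 2)) =
        2 * (a + v) + W.b₂ * (a * v) + W.b₄ * (a + v) * (a * v) + W.b₆ * (a * v) ^ 2 := by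
  have hP : EInt_U (Point.some x1 y1 h1) v := Or.inr ⟨x1, y1, h1, rfl, hv⟩
  rcases hR with ⟨rfl, rfl⟩ | ⟨x2, y2, h2, rfl, ha⟩
  · refine ⟨v, v, by rwa [zero_add], by rw [zero_sub]; exact EInt_neg hP, by ring, by ring⟩
  by_cases hx : x2 = x1
  · have hav : a = v := by
      calc a = a * (x1 * v) := by rw [hv, mul_one]
        _ = x2 * a * v := by rw [hx]; ring
        _ = v := by rw [ha, one_mul]
    subst hav
    obtain ⟨c, hc, ec⟩ := EInt_dbl h1 hv hG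
    rcases (Point.X_eq_iff (h₁ := h2) (h₂ := h1)).1 hx with h | h
    · rw [h]
      exact ⟨c, 0, hc, Or.inl ⟨sub_self _, rfl⟩, by ring, by rw [add_zero, ec]⟩
    · rw [h]
      refine ⟨0, c, Or.inl ⟨neg_add_cancel _, rfl⟩, ?_, by ring, by rw [zero_add, ec]⟩
      rw [← neg_add']
      exact EInt_neg hc
  · obtain ⟨x3, y3, x4, y4, h3, h4, e3, e4, f0, f1⟩ := addsub h2 h1 hx
    have hv0 : v ≠ 0 := right_ne_zero_of_mul_eq_one hv
    have ha0 : a ≠ 0 := right_ne_zero_of_mul_eq_one ha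
    obtain rfl : x1 = v⁻¹ := eq_inv_of_mul_eq_one_left hv
    obtain rfl : x2 = a⁻¹ := eq_inv_of_mul_eq_one_left ha
    have g0 : x3 * x4 * (a - v) ^ 2 =
        1 - (W.b₄ * (a * v) + W.b₆ * (a + v) * (a * v) + W.b₈ * (a * v) ^ 2) := by
      field_simp at f0
      linear_combination f0
    have g1 : (x3 + x4) * (a - v) ^ 2 =
        2 * (a + v) + W.b₂ * (a * v) + W.b₄ * (a + v) * (a * v) + W.b₆ * (a * v) ^ 2 := by
      field_simp at f1
      linear_combination f1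
    have hx3 : x3 ≠ 0 := by
      rintro rfl
      exact hG (by rw [← g0, zero_mul, zero_mul])
    have hx4 : x4 ≠ 0 := by
      rintro rfl
      exact hG (by rw [← g0, mul_zero, zero_mul])
    refine ⟨x3⁻¹, x4⁻¹, Or.inr ⟨x3, y3, h3, e3, mul_inv_cancel₀ hx3⟩,
      Or.inr ⟨x4, y4, h4, e4, mul_inv_cancel₀ hx4⟩, ?_, ?_⟩
    · rw [← g0]
      field_simp
    · rw [← g0, ← g1]
      field_simp
      ring

theorem EInt_ind (hW : Good K W) (h1 : W.toAffine.Nonsingular x1 y1) {v : PadicAlgCl p}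
    (hv : x1 * v = 1) (hv1 : ‖v‖ < 1) (j : ℕ) : ∃ a b, EInt_U (j • Point.some x1 y1 h1) a ∧
      EInt_U ((j + 1) • Point.some x1 y1 h1) b ∧ ‖b‖ ≤ ‖v‖ ∧ ‖a - j ^ 2 * v‖ ≤ ‖v‖ ^ 2 ∧
      ‖b - (j + 1) ^ 2 * v‖ ≤ ‖v‖ ^ 2 := by
  obtain ⟨b2, b4, b6, b8⟩ := EInt_b hW
  have hv0 : v ≠ 0 := right_ne_zero_of_mul_eq_one hv
  induction j with
  | zero =>
    refine ⟨0, v, Or.inl ⟨zero_nsmul _, rfl⟩, Or.inr ⟨x1, y1, h1, by rw [zero_add, one_nsmul], hv⟩,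
      le_rfl, ?_, ?_⟩ <;> simp
  | succ j ih =>
    obtain ⟨a, b, ha, hb, k1, k2, k3⟩ := ih
    have hG := (EInt_G0 b4 b6 b8 hv0 hv1 k1).2
    obtain ⟨c, d, hc, hd, e2, e1⟩ := EInt_alg h1 hv hb (by
      intro h
      rw [h, norm_zero] at hG
      exact zero_ne_one hG)
    obtain ⟨k4, k5⟩ := EInt_core b2 b4 b6 b8 hv0 hv1 k1 e2 e1
    rw [succ_nsmul, add_sub_cancel_right] at hd
    obtain rfl := EInt_uniq ha hd
    refine ⟨b, c, hb, by rwa [succ_nsmul], k4, by exact_mod_cast k3, ?_⟩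
    have e : c - ((j + 1 : ℕ) + 1 : PadicAlgCl p) ^ 2 * v =
        c + a - 2 * (b + v) - (a - j ^ 2 * v) + (b - (j + 1) ^ 2 * v) * 2 := by
      push_cast
      ring
    rw [e]
    refine (IsUltrametricDist.norm_add_le_max _ _).trans (max_le ?_ ?_)
    · exact (Ram_sub_le _ _).trans (max_le k5 k2)
    · exact (EInt_mul (ofNat_mem _ _)).trans k3

omit [DecidableEq (PadicAlgCl p)] in
theorem EInt_disc (hW : Good K W) {s t D z0 z1 z2 : PadicAlgCl p} (hs : s ∈ Ram_B p)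
    (ht : t ∈ Ram_B p) (h0 : z0 ∈ Ram_B p) (h1 : z1 ∈ Ram_B p) (h2 : z2 ∈ Ram_B p)
    (e0 : z0 * D ^ 2 = s ^ 2 - W.b₄ * s - W.b₆ * t - W.b₈)
    (e1 : z1 * D ^ 2 = 2 * t * s + W.b₂ * s + W.b₄ * t + W.b₆)
    (e2 : z2 * D ^ 2 = t ^ 2 - 4 * s) : 1 ≤ ‖D‖ := by
  obtain ⟨b2, b4, b6, b8⟩ := EInt_b hW
  have e : W.Δ = D ^ 2 * ((W.b₂ ^ 2 - 32 * W.b₄ - 12 * t ^ 2 - 4 * W.b₂ * t) * z0 +
      (6 * s * t - W.b₂ * s - 5 * W.b₄ * t + W.b₂ * W.b₄ - 27 * W.b₆) * z1 +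
      (W.b₄ ^ 2 - 28 * W.b₈ - 8 * W.b₄ * s - 12 * W.b₆ * t) * z2) := by
    have hb := W.b_relation
    rw [Δ]
    linear_combination (-(W.b₂ ^ 2 - 32 * W.b₄ - 12 * t ^ 2 - 4 * W.b₂ * t)) * e0 -
      (6 * s * t - W.b₂ * s - 5 * W.b₄ * t + W.b₂ * W.b₄ - 27 * W.b₆) * e1 -
      (W.b₄ ^ 2 - 28 * W.b₈ - 8 * W.b₄ * s - 12 * W.b₆ * t) * e2 + (4 * t ^ 2 - 8 * W.b₄ - W.b₂ * t - 28 * s) * hb
  have h : ‖W.Δ‖ ≤ ‖D ^ 2‖ := by
    rw [e]
    apply EInt_mul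
    repeat' with_reducible (first | assumption | exact ofNat_mem _ _ | apply add_mem | apply sub_mem |
                     apply mul_mem | apply pow_mem)
  rw [hW.2, norm_pow] at h
  exact (one_le_sq_iff₀ (norm_nonneg _)).1 h

theorem tors_int (hp : p ≠ 2) (hW : Good K W) (h1 : W.toAffine.Nonsingular x1 y1) (hM : ¬ p ∣ M)
    (h : M • Point.some x1 y1 h1 = 0) : ‖x1‖ ≤ 1 := by
  by_contra hx
  have hx' : 1 < ‖x1‖ := not_le.1 hx
  have hx0 : x1 ≠ 0 := norm_pos_iff.1 (zero_lt_one.trans hx')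
  have hv1 : ‖x1⁻¹‖ < 1 := by
    rw [norm_inv]
    exact inv_lt_one_of_one_lt₀ hx'
  have hv0 : 0 < ‖x1⁻¹‖ := norm_pos_iff.2 (inv_ne_zero hx0)
  obtain ⟨a, b, ha, -, -, k, -⟩ := EInt_ind hW h1 (mul_inv_cancel₀ hx0) hv1 M
  obtain rfl : a = 0 := EInt_uniq ha (Or.inl ⟨h, rfl⟩)
  rw [zero_sub, norm_neg, norm_mul, norm_pow, Ram_nat hM] at k
  have _ := hp
  nlinarith

theorem tors_far (hp : p ≠ 2) (hW : Good K W) (h1 : W.toAffine.Nonsingular x1 y1)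
    (h2 : W.toAffine.Nonsingular x2 y2) (hM : ¬ p ∣ M) (k1 : M • Point.some x1 y1 h1 = 0)
    (k2 : M • Point.some x2 y2 h2 = 0) (hx : x1 ≠ x2) : ‖x1 - x2‖ = 1 := by
  obtain ⟨x3, y3, x4, y4, h3, h4, e3, e4, f0, f1⟩ := addsub h1 h2 hx
  have i1 : x1 ∈ Ram_B p := tors_int hp hW h1 hM k1
  have i2 : x2 ∈ Ram_B p := tors_int hp hW h2 hM k2
  have i3 : x3 ∈ Ram_B p := tors_int hp hW h3 hM (by rw [← e3, nsmul_add, k1, k2, add_zero])
  have i4 : x4 ∈ Ram_B p := tors_int hp hW h4 hM (by rw [← e4, nsmul_sub, k1, k2, sub_zero])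
  exact le_antisymm (sub_mem i1 i2 : x1 - x2 ∈ Ram_B p) (EInt_disc hW (mul_mem i1 i2)
    (add_mem i1 i2) (mul_mem i3 i4) (add_mem i3 i4) (one_mem _) f0 f1 (by ring))

theorem tors_Y (hp : p ≠ 2) (hW : Good K W) (h1 : W.toAffine.Nonsingular x1 y1) (hM : ¬ p ∣ M)
    (h : M • Point.some x1 y1 h1 = 0) (h2 : Point.some x1 y1 h1 + Point.some x1 y1 h1 ≠ 0) :
    ‖y1 + (W.a₁ * x1 + W.a₃) / 2‖ = 1 := by
  obtain ⟨x3, y3, h3, e3, -, f0⟩ := dbl h1 h2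
  have f1 := sq_Y h1
  obtain ⟨b2, b4, b6, b8⟩ := EInt_b hW
  have i1 : x1 ∈ Ram_B p := tors_int hp hW h1 hM h
  have i3 : x3 ∈ Ram_B p := tors_int hp hW h3 hM (by rw [← e3, nsmul_add, h, add_zero])
  have k1 : 1 ≤ ‖2 * y1 + W.a₁ * x1 + W.a₃‖ :=
    EInt_disc hW (mul_mem i1 i1) (add_mem i1 i1) i3 (one_mem _) (zero_mem _)
      (by rw [f0]; ring) (by rw [f1]; ring) (by ring)
  have k2 : (2 * y1 + W.a₁ * x1 + W.a₃) ^ 2 ∈ Ram_B p := by
    rw [f1]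
    repeat' with_reducible (first | assumption | exact ofNat_mem _ _ | apply add_mem | apply mul_mem |
                     apply pow_mem)
  have k3 : ‖2 * y1 + W.a₁ * x1 + W.a₃‖ ≤ 1 := by
    have : ‖(2 * y1 + W.a₁ * x1 + W.a₃) ^ 2‖ ≤ 1 := k2
    rw [norm_pow] at this
    exact (sq_le_one_iff₀ (norm_nonneg _)).1 this
  have k4 : ‖(2 : PadicAlgCl p)‖ = 1 := by
    have := Ram_nat (p := p) (N := 2) fun hd =>
      hp ((Nat.prime_dvd_prime_iff_eq Fact.out Nat.prime_two).1 hd)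
    exact_mod_cast this
  have e : y1 + (W.a₁ * x1 + W.a₃) / 2 = (2 * y1 + W.a₁ * x1 + W.a₃) / 2 := by ring
  rw [e, norm_div, k4, div_one]
  exact le_antisymm k3 k1

end Pool.Agent.Work.MP_dd0d16_nt.T
end
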